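import Mathlib

/-!
# Betweenness of the complements of disjoint unions of complete multipartite graphs
-/

set_option autoImplicit false

namespace Pool.Agent.Q106.Between

open SimpleGraph

variable {V : Type*}

/-- the number of shortest paths from `s` to `t` -/
noncomputable def sigma (G : SimpleGraph V) (s t : V) : ℕ :=
  Nat.card {p : G.Walk s t // p.IsPath ∧ p.length = G.dist s t}

/-- the number of shortest paths from `s` to `t` which contain `v` -/
noncomputable def sigmaVia (G : SimpleGraph V) (s t v : V) : ℕ :=
  Nat.card {p : G.Walk s t // p.IsPath ∧ p.length = G.dist s t ∧ v ∈ p.support}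

open Classical in
/-- the betweenness of `v`: the sum over the unordered pairs `{s, t}` of distinct vertices different
from `v`, written as one half of the sum over the ordered pairs -/
noncomputable def betweenness [Fintype V] (G : SimpleGraph V) (v : V) : ℝ :=
  (∑ s : V, ∑ t : V, if s ≠ t ∧ s ≠ v ∧ t ≠ v then (sigmaVia G s t v : ℝ) / sigma G s t else 0) / 2

theorem via_adj {G : SimpleGraph V} {s t v : V} (h : G.Adj s t) (hs : s ≠ v) (ht : t ≠ v) :
    sigmaVia G s t v = 0 := by
  unfold sigmaVia
  rw [Nat.card_eq_zero]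
  left
  refine ⟨?_⟩
  rintro ⟨p, hp, hl, hv⟩
  rw [SimpleGraph.dist_eq_one_iff_adj.2 h] at hl
  match p, hl with
  | .cons h' .nil, _ =>
    simp only [Walk.support_cons, Walk.support_nil, List.mem_cons, List.not_mem_nil, or_false] at hv
    rcases hv with hv | hv
    · exact hs hv.symm
    · exact ht hv.symm

theorem dist_two {G : SimpleGraph V} {s t : V} (hne : s ≠ t) (h : ¬ G.Adj s t)
    (hc : (G.commonNeighbors s t).Nonempty) : G.dist s t = 2 := by
  obtain ⟨w, hw⟩ := hc
  rw [mem_commonNeighbors] at hw
  have h1 : G.dist s t ≤ 2 := by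
    have := SimpleGraph.dist_le (Walk.cons hw.1 (Walk.cons hw.2.symm Walk.nil))
    simpa using this
  have hr : G.Reachable s t := ⟨Walk.cons hw.1 (Walk.cons hw.2.symm Walk.nil)⟩
  have h0 : G.dist s t ≠ 0 := by
    intro h0
    exact hne (hr.dist_eq_zero_iff.1 h0)
  have h2 : G.dist s t ≠ 1 := by
    intro h2
    exact h (SimpleGraph.dist_eq_one_iff_adj.1 h2)
  omega

theorem isPath_two {G : SimpleGraph V} {s t : V} (hne : s ≠ t) (p : G.Walk s t)
    (hl : p.length = 2) : p.IsPath := by
  match p, hl with
  | .cons h (.cons h' .nil), _ =>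
    simp only [Walk.cons_isPath_iff, Walk.IsPath.nil, Walk.support_cons, Walk.support_nil,
      List.mem_cons, List.not_mem_nil, or_false, true_and]
    refine ⟨h'.ne, ?_⟩
    rintro (h2 | h2)
    · exact h.ne h2
    · exact hne h2

theorem sigma_two {G : SimpleGraph V} {s t : V} (hne : s ≠ t) (h : ¬ G.Adj s t)
    (hc : (G.commonNeighbors s t).Nonempty) : sigma G s t = Nat.card (G.commonNeighbors s t) := by
  unfold sigma
  rw [dist_two hne h hc]
  refine Nat.card_congr ((Equiv.subtypeEquivRight fun p => ?_).trans
    (G.walkLengthTwoEquivCommonNeighbors s t))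
  exact ⟨fun h => h.2, fun h => ⟨isPath_two hne p h, h⟩⟩

theorem via_two {G : SimpleGraph V} {s t v : V} (hne : s ≠ t) (h : ¬ G.Adj s t)
    (hv : v ∈ G.commonNeighbors s t) : sigmaVia G s t v = 1 := by
  unfold sigmaVia
  rw [dist_two hne h ⟨v, hv⟩, Nat.card_eq_one_iff_unique]
  rw [mem_commonNeighbors] at hv
  constructor
  · constructor
    rintro ⟨p, hp, hl, hvp⟩ ⟨q, hq, hl', hvq⟩
    have key : ∀ (p : G.Walk s t) (hl : p.length = 2) (hvp : v ∈ p.support),
        p = Walk.cons hv.1 (Walk.cons hv.2.symm Walk.nil) := by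
      intro p hl hvp
      match p, hl with
      | .cons (v := w) h1 (.cons h2 .nil), _ =>
        simp only [Walk.support_cons, Walk.support_nil, List.mem_cons, List.not_mem_nil,
          or_false] at hvp
        have hvs : v ≠ s := hv.1.ne'
        have hvt : v ≠ t := hv.2.ne'
        have : v = w := by tauto
        subst this
        rfl
    exact Subtype.ext ((key p hl hvp).trans (key q hl' hvq).symm)
  · refine ⟨⟨Walk.cons hv.1 (Walk.cons hv.2.symm Walk.nil), isPath_two hne _ rfl, rfl, ?_⟩⟩
    simp

theorem via_two' {G : SimpleGraph V} {s t v : V} (hne : s ≠ t) (h : ¬ G.Adj s t)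
    (hc : (G.commonNeighbors s t).Nonempty) (hv : v ∉ G.commonNeighbors s t) (hs : s ≠ v)
    (ht : t ≠ v) : sigmaVia G s t v = 0 := by
  unfold sigmaVia
  rw [dist_two hne h hc, Nat.card_eq_zero]
  left
  refine ⟨?_⟩
  rintro ⟨p, hp, hl, hvp⟩
  match p, hl with
  | .cons (v := w) h1 (.cons h2 .nil), _ =>
    simp only [Walk.support_cons, Walk.support_nil, List.mem_cons, List.not_mem_nil,
      or_false] at hvp
    rcases hvp with hvp | hvp | hvp
    · exact hs hvp.symm
    · subst hvp
      exact hv ((mem_commonNeighbors G).2 ⟨h1, h2.symm⟩)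
    · exact ht hvp.symm

/-! ### the graphs -/

/-- Two vertices are adjacent if they are in different components, or in the same part of the same
component (of the complement). -/
def graph {J P : Type*} (comp : V → J) (part : V → P) : SimpleGraph V where
  Adj s t := s ≠ t ∧ (comp s = comp t → part s = part t)
  symm := ⟨fun _ _ h => ⟨h.1.symm, fun h' => (h.2 h'.symm).symm⟩⟩
  loopless := ⟨fun _ h => h.1 rfl⟩

theorem mem_common {J P : Type*} {comp : V → J} {part : V → P} {s t : V}
    (hc : comp s = comp t) (hp : part s ≠ part t) (w : V) :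
    w ∈ (graph comp part).commonNeighbors s t ↔ comp w ≠ comp s := by
  rw [mem_commonNeighbors]
  constructor
  · rintro ⟨h1, h2⟩ h3
    exact hp ((h1.2 h3.symm).trans (h2.2 (hc.symm.trans h3.symm)).symm)
  · intro h
    refine ⟨⟨?_, fun h' => (h h'.symm).elim⟩, ⟨?_, fun h' => (h (h'.symm.trans hc.symm)).elim⟩⟩
    · rintro rfl; exact h rfl
    · rintro rfl; exact h hc.symm

open Classical in
theorem betweenness_graph [Fintype V] {J P : Type*} [Fintype J] (comp : V → J) (part : V → P)
    (c : ℝ) (hN : ∀ j, 0 < Nat.card {w : V // comp w ≠ j})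
    (hE : ∀ j, (∑ s : V, ∑ t : V, if comp s = j ∧ comp t = j ∧ part s ≠ part t then (1 : ℝ) else 0)
      = 2 * c * Nat.card {w : V // comp w ≠ j}) (v : V) :
    betweenness (graph comp part) v = ((Fintype.card J : ℝ) - 1) * c := by
  have hterm : ∀ s t : V, (if s ≠ t ∧ s ≠ v ∧ t ≠ v then
      (sigmaVia (graph comp part) s t v : ℝ) / sigma (graph comp part) s t else 0) =
      ∑ j : J, if comp s = j ∧ comp t = j ∧ part s ≠ part t then
        (if j ≠ comp v then ((Nat.card {w : V // comp w ≠ j} : ℕ) : ℝ)⁻¹ else 0) else 0 := by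
    intro s t
    by_cases hc : comp s = comp t
    · by_cases hp : part s = part t
      · -- adjacent or equal
        have h0 : ∀ j : J, (if comp s = j ∧ comp t = j ∧ part s ≠ part t then
          (if j ≠ comp v then ((Nat.card {w : V // comp w ≠ j} : ℕ) : ℝ)⁻¹ else 0) else 0) = 0 := by
          intro j
          rw [if_neg]
          rintro ⟨_, _, h⟩
          exact h hp
        rw [Finset.sum_eq_zero fun j _ => h0 j]
        split_ifs with h
        · rw [via_adj (G := graph comp part) ⟨h.1, fun _ => hp⟩ h.2.1 h.2.2]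
          simp
        · rfl
      · have hst : s ≠ t := fun h => hp (by rw [h])
        have hnadj : ¬ (graph comp part).Adj s t := fun h => hp (h.2 hc)
        obtain ⟨w, hw⟩ : ∃ w : V, comp w ≠ comp s := by
          have := hN (comp s)
          rw [Nat.card_pos_iff] at this
          obtain ⟨⟨w, hw⟩⟩ := this.1
          exact ⟨w, hw⟩
        have hne : ((graph comp part).commonNeighbors s t).Nonempty :=
          ⟨w, (mem_common hc hp w).2 hw⟩
        have hsum : (∑ j : J, if comp s = j ∧ comp t = j ∧ part s ≠ part t then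
            (if j ≠ comp v then ((Nat.card {w : V // comp w ≠ j} : ℕ) : ℝ)⁻¹ else 0) else 0) =
            if comp s ≠ comp v then ((Nat.card {w : V // comp w ≠ comp s} : ℕ) : ℝ)⁻¹ else 0 := by
          rw [Finset.sum_eq_single (comp s)]
          · rw [if_pos ⟨rfl, hc.symm, hp⟩]
          · intro j _ hj
            rw [if_neg]
            rintro ⟨h, _⟩
            exact hj h.symm
          · intro h
            exact absurd (Finset.mem_univ _) h
        rw [hsum]
        by_cases hv : comp s = comp v
        · rw [if_neg (not_not.2 hv)]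
          split_ifs with h
          · rw [via_two' hst hnadj hne _ h.2.1 h.2.2]
            · simp
            · rw [mem_common hc hp]
              exact not_not.2 hv.symm
          · rfl
        · rw [if_pos hv]
          have hvs : s ≠ v := by rintro rfl; exact hv rfl
          have hvt : t ≠ v := by rintro rfl; exact hv hc
          have hvm : v ∈ (graph comp part).commonNeighbors s t :=
            (mem_common hc hp v).2 (fun h => hv h.symm)
          rw [if_pos ⟨hst, hvs, hvt⟩, via_two hst hnadj hvm, sigma_two hst hnadj hne]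
          have : Nat.card ((graph comp part).commonNeighbors s t) =
              Nat.card {w : V // comp w ≠ comp s} :=
            Nat.card_congr (Equiv.subtypeEquivRight fun w => mem_common hc hp w)
          rw [this, Nat.cast_one, one_div]
    · have h0 : ∀ j : J, (if comp s = j ∧ comp t = j ∧ part s ≠ part t then
          (if j ≠ comp v then ((Nat.card {w : V // comp w ≠ j} : ℕ) : ℝ)⁻¹ else 0) else 0) = 0 := by
        intro j
        rw [if_neg]
        rintro ⟨h1, h2, _⟩
        exact hc (h1.trans h2.symm)
      rw [Finset.sum_eq_zero fun j _ => h0 j]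
      split_ifs with h
      · rw [via_adj (G := graph comp part) ⟨h.1, fun h' => (hc h').elim⟩ h.2.1 h.2.2]
        simp
      · rfl
  unfold betweenness
  have h1 : (∑ s : V, ∑ t : V, if s ≠ t ∧ s ≠ v ∧ t ≠ v then
      (sigmaVia (graph comp part) s t v : ℝ) / sigma (graph comp part) s t else 0) =
      ∑ j : J, (if j ≠ comp v then ((Nat.card {w : V // comp w ≠ j} : ℕ) : ℝ)⁻¹ else 0) *
        ∑ s : V, ∑ t : V, if comp s = j ∧ comp t = j ∧ part s ≠ part t then (1 : ℝ) else 0 := by
    simp only [hterm]
    have h2 : ∀ s : V, (∑ t : V, ∑ j : J, if comp s = j ∧ comp t = j ∧ part s ≠ part t then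
        (if j ≠ comp v then ((Nat.card {w : V // comp w ≠ j} : ℕ) : ℝ)⁻¹ else 0) else 0) =
        ∑ j : J, ∑ t : V, if comp s = j ∧ comp t = j ∧ part s ≠ part t then
        (if j ≠ comp v then ((Nat.card {w : V // comp w ≠ j} : ℕ) : ℝ)⁻¹ else 0) else 0 :=
      fun s => Finset.sum_comm
    simp only [h2]
    rw [Finset.sum_comm]
    refine Finset.sum_congr rfl fun j _ => ?_
    rw [Finset.mul_sum]
    refine Finset.sum_congr rfl fun s _ => ?_
    rw [Finset.mul_sum]
    refine Finset.sum_congr rfl fun t _ => ?_
    by_cases h : comp s = j ∧ comp t = j ∧ part s ≠ part t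
    · rw [if_pos h, if_pos h, mul_one]
    · rw [if_neg h, if_neg h, mul_zero]
  rw [h1]
  have h3 : ∀ j : J, (if j ≠ comp v then ((Nat.card {w : V // comp w ≠ j} : ℕ) : ℝ)⁻¹ else 0) *
      (∑ s : V, ∑ t : V, if comp s = j ∧ comp t = j ∧ part s ≠ part t then (1 : ℝ) else 0) =
      2 * c - if j = comp v then 2 * c else 0 := by
    intro j
    rw [hE j]
    have hpos : ((Nat.card {w : V // comp w ≠ j} : ℕ) : ℝ) ≠ 0 := by
      have := hN j
      positivity
    by_cases h : j = comp v
    · rw [if_neg (not_not.2 h), if_pos h]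
      ring
    · rw [if_pos h, if_neg h]
      field_simp
      ring
  simp only [h3]
  rw [Finset.sum_sub_distrib, Finset.sum_ite_eq' Finset.univ (comp v)]
  simp only [Finset.sum_const, Finset.card_univ, nsmul_eq_mul, Finset.mem_univ, if_true]
  ring

theorem connected_graph {J P : Type*} (comp : V → J) (part : V → P) [Nonempty V]
    (hN : ∀ j, ∃ w : V, comp w ≠ j) : (graph comp part).Connected := by
  refine ⟨fun s t => ?_⟩
  by_cases hst : s = t
  · subst hst
    exact Reachable.refl _
  by_cases h : (graph comp part).Adj s t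
  · exact h.reachable
  · have hc : comp s = comp t := by
      by_contra hc
      exact h ⟨hst, fun h' => (hc h').elim⟩
    have hp : part s ≠ part t := fun hp => h ⟨hst, fun _ => hp⟩
    obtain ⟨w, hw⟩ := hN (comp s)
    have := (mem_common (part := part) hc hp w).2 hw
    rw [mem_commonNeighbors] at this
    exact this.1.reachable.trans this.2.symm.reachable

end Pool.Agent.Q106.Between
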