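import Pool.Agent.Q106.Between

/-!
# Graphs with betweenness `q`
-/

set_option autoImplicit false

namespace Pool.Agent.Q106.Between

open SimpleGraph

section general

variable {W₁ W₂ P₁ P₂ : Type} [Fintype W₁] [Fintype W₂]

/-- the number of ordered pairs in different parts -/
noncomputable def pairs {W P : Type} [Fintype W] (π : W → P) : ℝ :=
  open Classical in ∑ x : W, ∑ y : W, if π x ≠ π y then (1 : ℝ) else 0

theorem ite_inst {p : Prop} (i₁ i₂ : Decidable p) (a b : ℝ) :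
    @ite _ p i₁ a b = @ite _ p i₂ a b := by
  rw [Subsingleton.elim i₁ i₂]

theorem pairs_eq {W P : Type} [Fintype W] [DecidableEq P] (π : W → P) :
    pairs π = ∑ x : W, ∑ y : W, if π x ≠ π y then (1 : ℝ) else 0 := by
  unfold pairs
  refine Finset.sum_congr rfl fun x _ => Finset.sum_congr rfl fun y _ => ite_inst _ _ _ _

def comp (κ k : ℕ) (W₁ W₂ : Type) : (Fin κ × W₁) ⊕ (Fin k × W₂) → Fin κ ⊕ Fin k :=
  Sum.map Prod.fst Prod.fst

def part (κ k : ℕ) (π₁ : W₁ → P₁) (π₂ : W₂ → P₂) : (Fin κ × W₁) ⊕ (Fin k × W₂) → P₁ ⊕ P₂ :=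
  Sum.map (fun x => π₁ x.2) (fun x => π₂ x.2)

open Classical in
theorem E_inl (κ k : ℕ) (π₁ : W₁ → P₁) (π₂ : W₂ → P₂) (i : Fin κ) :
    (∑ s, ∑ t, if comp κ k W₁ W₂ s = Sum.inl i ∧ comp κ k W₁ W₂ t = Sum.inl i ∧
      part κ k π₁ π₂ s ≠ part κ k π₁ π₂ t then (1 : ℝ) else 0) = pairs π₁ := by
  simp only [Fintype.sum_sum_type, Fintype.sum_prod_type, comp, part, Sum.map_inl, Sum.map_inr,
    Sum.inl.injEq, reduceCtorEq, false_and, and_false, if_false, Finset.sum_const_zero, add_zero,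
    ne_eq]
  rw [Finset.sum_eq_single i]
  · unfold pairs
    refine Finset.sum_congr rfl fun x _ => ?_
    rw [Finset.sum_eq_single i]
    · simp
    · intro j _ hj
      simp [hj]
    · simp
  · intro j _ hj
    simp [hj]
  · simp

open Classical in
theorem E_inr (κ k : ℕ) (π₁ : W₁ → P₁) (π₂ : W₂ → P₂) (i : Fin k) :
    (∑ s, ∑ t, if comp κ k W₁ W₂ s = Sum.inr i ∧ comp κ k W₁ W₂ t = Sum.inr i ∧
      part κ k π₁ π₂ s ≠ part κ k π₁ π₂ t then (1 : ℝ) else 0) = pairs π₂ := by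
  simp only [Fintype.sum_sum_type, Fintype.sum_prod_type, comp, part, Sum.map_inl, Sum.map_inr,
    Sum.inr.injEq, reduceCtorEq, false_and, and_false, if_false, Finset.sum_const_zero, zero_add,
    ne_eq]
  rw [Finset.sum_eq_single i]
  · unfold pairs
    refine Finset.sum_congr rfl fun x _ => ?_
    rw [Finset.sum_eq_single i]
    · simp
    · intro j _ hj
      simp [hj]
    · simp
  · intro j _ hj
    simp [hj]
  · simp

open Classical in
theorem card_ne {V J : Type} [Fintype V] (f : V → J) (j : J) :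
    ((Nat.card {w : V // f w ≠ j} : ℕ) : ℝ) = ∑ w : V, if f w = j then (0 : ℝ) else 1 := by
  rw [Nat.card_eq_fintype_card, Fintype.card_subtype, Finset.card_filter]
  push_cast
  refine Finset.sum_congr rfl fun w _ => ?_
  by_cases h : f w = j <;> simp [h]

theorem N_inl (κ k : ℕ) (i : Fin κ) :
    ((Nat.card {w // comp κ k W₁ W₂ w ≠ Sum.inl i} : ℕ) : ℝ) =
      ((κ : ℝ) - 1) * Fintype.card W₁ + k * Fintype.card W₂ := by
  classical
  rw [card_ne]
  simp only [Fintype.sum_sum_type, Fintype.sum_prod_type, comp, Sum.map_inl, Sum.map_inr,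
    Sum.inl.injEq, reduceCtorEq, if_false]
  have h1 : (∑ x : Fin κ, ∑ _y : W₁, if x = i then (0 : ℝ) else 1) =
      ∑ x : Fin κ, ((Fintype.card W₁ : ℝ) - if x = i then (Fintype.card W₁ : ℝ) else 0) := by
    refine Finset.sum_congr rfl fun x _ => ?_
    by_cases hx : x = i <;> simp [hx]
  have h2 : (∑ _x : Fin k, ∑ _y : W₂, (1 : ℝ)) = k * Fintype.card W₂ := by
    simp
  rw [h2]
  refine (congrArg (· + (k : ℝ) * Fintype.card W₂) h1).trans ?_
  simp only [Finset.sum_sub_distrib, Finset.sum_const, Finset.card_univ, Fintype.card_fin,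
    Finset.sum_ite_eq', Finset.mem_univ, if_true, nsmul_eq_mul]
  ring

theorem N_inr (κ k : ℕ) (i : Fin k) :
    ((Nat.card {w // comp κ k W₁ W₂ w ≠ Sum.inr i} : ℕ) : ℝ) =
      (κ : ℝ) * Fintype.card W₁ + ((k : ℝ) - 1) * Fintype.card W₂ := by
  classical
  rw [card_ne]
  simp only [Fintype.sum_sum_type, Fintype.sum_prod_type, comp, Sum.map_inl, Sum.map_inr,
    Sum.inr.injEq, reduceCtorEq, if_false]
  have h1 : (∑ x : Fin k, ∑ _y : W₂, if x = i then (0 : ℝ) else 1) =
      ∑ x : Fin k, ((Fintype.card W₂ : ℝ) - if x = i then (Fintype.card W₂ : ℝ) else 0) := by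
    refine Finset.sum_congr rfl fun x _ => ?_
    by_cases hx : x = i <;> simp [hx]
  have h2 : (∑ _x : Fin κ, ∑ _y : W₁, (1 : ℝ)) = κ * Fintype.card W₁ := by
    simp
  rw [h2]
  refine (congrArg ((κ : ℝ) * Fintype.card W₁ + ·) h1).trans ?_
  simp only [Finset.sum_sub_distrib, Finset.sum_const, Finset.card_univ, Fintype.card_fin,
    Finset.sum_ite_eq', Finset.mem_univ, if_true, nsmul_eq_mul]
  ring

end general

/-- the stars -/
def starPart (g : ℕ) : Unit ⊕ Fin g → Bool := Sum.elim (fun _ => false) (fun _ => true)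

/-- one part of size `b`, `c` parts of size two and `r` of size one -/
def densePart (b c r : ℕ) : Fin b ⊕ ((Fin c × Bool) ⊕ Fin r) → Unit ⊕ (Fin c ⊕ Fin r) :=
  Sum.map (fun _ => ()) (Sum.map Prod.fst id)

theorem pairs_star (g : ℕ) : pairs (starPart g) = 2 * g := by
  classical
  unfold pairs starPart
  simp only [Fintype.sum_sum_type, Sum.elim_inl, Sum.elim_inr, ne_eq]
  simp
  ring

theorem sum_ne_fin (r : ℕ) (l : Fin r) : (∑ m : Fin r, if l = m then (0 : ℝ) else 1) = r - 1 := by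
  have h : ∀ m : Fin r, (if l = m then (0 : ℝ) else 1) = 1 - if l = m then (1 : ℝ) else 0 := by
    intro m
    split_ifs <;> ring
  simp only [h, Finset.sum_sub_distrib, Finset.sum_const, Finset.card_univ, Fintype.card_fin,
    Finset.sum_ite_eq, Finset.mem_univ, if_true, nsmul_eq_mul, mul_one]

theorem pairs_dense (b c r : ℕ) : pairs (densePart b c r) =
    b * (2 * c + r) + 2 * c * (b + (2 * c - 2) + r) + r * (b + 2 * c + (r - 1)) := by
  rw [pairs_eq, Fintype.sum_sum_type, Fintype.sum_sum_type, Fintype.sum_prod_type]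
  have h1 : ∀ x : Fin b, (∑ y : Fin b ⊕ ((Fin c × Bool) ⊕ Fin r),
      if densePart b c r (Sum.inl x) ≠ densePart b c r y then (1 : ℝ) else 0) = 2 * c + r := by
    intro x
    rw [Fintype.sum_sum_type, Fintype.sum_sum_type]
    simp [densePart]
    ring
  have h2 : ∀ (i : Fin c) (β : Bool), (∑ y : Fin b ⊕ ((Fin c × Bool) ⊕ Fin r),
      if densePart b c r (Sum.inr (Sum.inl (i, β))) ≠ densePart b c r y then (1 : ℝ) else 0) =
      b + (2 * c - 2) + r := by
    intro i β
    rw [Fintype.sum_sum_type, Fintype.sum_sum_type, Fintype.sum_prod_type]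
    have h3 : (∑ x : Fin c, ∑ γ : Bool, if densePart b c r (Sum.inr (Sum.inl (i, β))) ≠
        densePart b c r (Sum.inr (Sum.inl (x, γ))) then (1 : ℝ) else 0) = 2 * c - 2 := by
      have h4 : ∀ x : Fin c, (∑ γ : Bool, if densePart b c r (Sum.inr (Sum.inl (i, β))) ≠
        densePart b c r (Sum.inr (Sum.inl (x, γ))) then (1 : ℝ) else 0) =
          2 * if i = x then (0 : ℝ) else 1 := by
        intro x
        by_cases hx : i = x <;> simp [densePart, hx]
      simp only [h4]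
      rw [← Finset.mul_sum, sum_ne_fin]
      ring
    rw [h3]
    simp [densePart]
    ring
  have h5 : ∀ l : Fin r, (∑ y : Fin b ⊕ ((Fin c × Bool) ⊕ Fin r),
      if densePart b c r (Sum.inr (Sum.inr l)) ≠ densePart b c r y then (1 : ℝ) else 0) =
      b + 2 * c + (r - 1) := by
    intro l
    rw [Fintype.sum_sum_type, Fintype.sum_sum_type]
    have h6 : (∑ m : Fin r, if densePart b c r (Sum.inr (Sum.inr l)) ≠
        densePart b c r (Sum.inr (Sum.inr m)) then (1 : ℝ) else 0) = r - 1 := by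
      rw [← sum_ne_fin r l]
      refine Finset.sum_congr rfl fun m _ => ?_
      by_cases hm : l = m <;> simp [densePart, hm]
    rw [h6]
    simp [densePart]
    ring
  simp only [h1, h2, h5, Finset.sum_const, Finset.card_univ, Fintype.card_fin, nsmul_eq_mul,
    Fintype.card_bool]
  push_cast
  ring

/-- The graph has constant betweenness. -/
theorem exists_graph (g b c r κ k : ℕ) (c₀ : ℝ) (hκ : 1 ≤ κ) (hk : 1 ≤ k) (hb : 1 ≤ b)
    (h1 : (g : ℝ) = c₀ * (((κ : ℝ) - 1) * (g + 1) + k * (b + 2 * c + r)))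
    (h2 : (b : ℝ) * (2 * c + r) + 2 * c * (b + (2 * c - 2) + r) + r * (b + 2 * c + (r - 1)) =
      2 * c₀ * (κ * (g + 1) + ((k : ℝ) - 1) * (b + 2 * c + r))) :
    ∃ G : SimpleGraph ((Fin κ × (Unit ⊕ Fin g)) ⊕ (Fin k × (Fin b ⊕ ((Fin c × Bool) ⊕ Fin r)))),
      G.Connected ∧ ∀ v, betweenness G v = ((κ : ℝ) + k - 1) * c₀ := by
  classical
  have c1 : (Fintype.card (Unit ⊕ Fin g) : ℝ) = g + 1 := by
    simp
    ring
  have c2 : (Fintype.card (Fin b ⊕ ((Fin c × Bool) ⊕ Fin r)) : ℝ) = b + 2 * c + r := by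
    simp
    ring
  have hκ' : (1 : ℝ) ≤ κ := by exact_mod_cast hκ
  have hk' : (1 : ℝ) ≤ k := by exact_mod_cast hk
  have hb' : (1 : ℝ) ≤ b := by exact_mod_cast hb
  have hc' : (0 : ℝ) ≤ c := by positivity
  have hr' : (0 : ℝ) ≤ r := by positivity
  have hg' : (0 : ℝ) ≤ g := by positivity
  have hN : ∀ j : Fin κ ⊕ Fin k, 0 < Nat.card {w // comp κ k (Unit ⊕ Fin g)
      (Fin b ⊕ ((Fin c × Bool) ⊕ Fin r)) w ≠ j} := by
    rintro (i | i)
    · have h := N_inl (W₁ := Unit ⊕ Fin g) (W₂ := Fin b ⊕ ((Fin c × Bool) ⊕ Fin r)) κ k i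
      rw [c1, c2] at h
      have h' : (0 : ℝ) < ((κ : ℝ) - 1) * (g + 1) + k * (b + 2 * c + r) := by nlinarith
      rw [← h] at h'
      exact_mod_cast h'
    · have h := N_inr (W₁ := Unit ⊕ Fin g) (W₂ := Fin b ⊕ ((Fin c × Bool) ⊕ Fin r)) κ k i
      rw [c1, c2] at h
      have h' : (0 : ℝ) < (κ : ℝ) * (g + 1) + ((k : ℝ) - 1) * (b + 2 * c + r) := by nlinarith
      rw [← h] at h'
      exact_mod_cast h'
  refine ⟨graph (comp κ k _ _) (part κ k (starPart g) (densePart b c r)), ?_, ?_⟩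
  · have : Nonempty ((Fin κ × (Unit ⊕ Fin g)) ⊕
        (Fin k × (Fin b ⊕ ((Fin c × Bool) ⊕ Fin r)))) := ⟨Sum.inl (⟨0, hκ⟩, Sum.inl ())⟩
    refine connected_graph _ _ fun j => ?_
    have := hN j
    rw [Nat.card_pos_iff] at this
    obtain ⟨⟨w, hw⟩⟩ := this.1
    exact ⟨w, hw⟩
  · intro v
    rw [betweenness_graph _ _ c₀ hN ?_ v]
    · simp
    · rintro (i | i)
      · rw [N_inl, c1, c2]
        refine (Finset.sum_congr rfl fun s _ => Finset.sum_congr rfl fun t _ =>
          ite_inst _ _ _ _).trans ((E_inl κ k (starPart g) (densePart b c r) i).trans ?_)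
        rw [pairs_star]
        linarith
      · rw [N_inr, c1, c2]
        refine (Finset.sum_congr rfl fun s _ => Finset.sum_congr rfl fun t _ =>
          ite_inst _ _ _ _).trans ((E_inr κ k (starPart g) (densePart b c r) i).trans ?_)
        rw [pairs_dense]
        linarith

end Pool.Agent.Q106.Between
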