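import Pool.Agent.Q106.Between2

/-!
# The parameters: every rational number larger than one is a constant betweenness
-/

set_option autoImplicit false

namespace Pool.Agent.Q106.Between

/-- every number is `b (b - 1) / 2 + c` with `c < b` -/
theorem triangular (τ : ℕ) : ∃ b c : ℕ, c < b ∧ 2 * τ + b = b * b + 2 * c := by
  induction τ with
  | zero => exact ⟨1, 0, by omega, by omega⟩
  | succ n ih =>
    obtain ⟨b, c, h1, h2⟩ := ih
    by_cases h : c + 1 < b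
    · exact ⟨b, c + 1, h, by omega⟩
    · refine ⟨b + 1, 0, by omega, ?_⟩
      have : c + 1 = b := by omega
      subst this
      nlinarith

theorem exists_base (a s : ℕ) (ha : 1 ≤ a) (hs : 1 ≤ s) (h : Nat.Coprime s a) :
    ∃ k₀ K₀ : ℕ, 1 ≤ k₀ ∧ s * k₀ = 1 + a * K₀ := by
  have hb := Nat.gcd_eq_gcd_ab s a
  rw [h] at hb
  set x := Nat.gcdA s a
  set y := Nat.gcdB s a
  have hT : 0 ≤ |x| + |y| + 1 := by positivity
  have ha' : (1 : ℤ) ≤ a := by exact_mod_cast ha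
  have hs' : (1 : ℤ) ≤ s := by exact_mod_cast hs
  have h1 : (1 : ℤ) ≤ x + a * (|x| + |y| + 1) := by
    nlinarith [neg_abs_le x, abs_nonneg x, abs_nonneg y, mul_nonneg (sub_nonneg.2 ha') hT]
  have h2 : (1 : ℤ) ≤ -y + s * (|x| + |y| + 1) := by
    nlinarith [le_abs_self y, abs_nonneg x, abs_nonneg y, mul_nonneg (sub_nonneg.2 hs') hT]
  obtain ⟨k₀, hk⟩ := Int.eq_ofNat_of_zero_le (by omega : (0 : ℤ) ≤ x + a * (|x| + |y| + 1))
  obtain ⟨K₀, hK⟩ := Int.eq_ofNat_of_zero_le (by omega : (0 : ℤ) ≤ -y + s * (|x| + |y| + 1))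
  refine ⟨k₀, K₀, by omega, ?_⟩
  have : (s : ℤ) * k₀ = 1 + a * K₀ := by
    rw [← hk, ← hK]
    push_cast at hb
    linear_combination -hb
  exact_mod_cast this

/-- the parameters -/
theorem params (a s : ℕ) (ha : 1 ≤ a) (hs : 1 ≤ s) (h : Nat.Coprime s a) :
    ∃ K k b c r y : ℕ, 1 ≤ k ∧ 1 ≤ b ∧ s * k = 1 + a * K ∧ b + 2 * c + r = s * y ∧
      (s * y) * (s * y) = b * b + 4 * c + r +
        2 * ((s + a) * (y * (1 + a * (K + 1)) + K + 1)) := by
  obtain ⟨k₀, K₀, hk₀, h₀⟩ := exists_base a s ha hs h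
  set p := s + a with hp
  have hp1 : 1 ≤ p := by omega
  set C₀ := p * (3 * (1 + a * (K₀ + 1)) + K₀ + 1) with hC
  set Y := C₀ + 8 * p * a + 1 with hY
  have hY1 : 1 ≤ Y := by omega
  -- the number of pairs
  obtain ⟨M, hM⟩ : ∃ M : ℕ, (s * (3 * Y)) * (s * (3 * Y)) = 2 * M + s * (3 * Y) := by
    have he : Even ((s * (3 * Y)) * (s * (3 * Y) - 1)) := Nat.even_mul_pred_self _
    obtain ⟨M, hM⟩ := he
    refine ⟨M, ?_⟩
    have h1 : 1 ≤ s * (3 * Y) := Nat.mul_pos hs (by omega)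
    obtain ⟨w, hw⟩ : ∃ w, s * (3 * Y) = w + 1 := ⟨s * (3 * Y) - 1, by omega⟩
    rw [hw] at hM ⊢
    rw [Nat.add_sub_cancel] at hM
    nlinarith
  set A := p * ((3 * Y) * (1 + a * (K₀ + 1)) + K₀ + 1) with hA
  have hAM : A ≤ M := by
    have h1 : A ≤ Y * C₀ := by
      rw [hA, hC]
      nlinarith [Nat.mul_le_mul_left p (Nat.mul_le_mul_right (K₀ + 1) hY1)]
    have h2 : C₀ ≤ Y := by omega
    have h3 : 3 * Y ≤ s * (3 * Y) := Nat.le_mul_of_pos_left _ hs
    have h4 : (3 * Y) * (3 * Y) ≤ 2 * M + 3 * Y := by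
      obtain ⟨w, hw⟩ : ∃ w, s * (3 * Y) = 3 * Y + w := ⟨s * (3 * Y) - 3 * Y, by omega⟩
      rw [hw] at hM
      nlinarith
    nlinarith
  set Δ := p * s * (a * (3 * Y) + 1) with hΔ
  have hΔ0 : 0 < Δ := by positivity
  obtain ⟨t, τ, hdm, hτlt⟩ : ∃ t τ : ℕ, Δ * t + τ = M - A ∧ τ < Δ :=
    ⟨(M - A) / Δ, (M - A) % Δ, Nat.div_add_mod _ _, Nat.mod_lt _ hΔ0⟩
  obtain ⟨b, c, hcb, hbc⟩ := triangular τ
  have hbig : 2 * Δ ≤ s * Y * (s * Y - 1) := by
    have h1 : 8 * p * a + 1 ≤ Y := by omega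
    have h2 : Y ≤ s * Y := Nat.le_mul_of_pos_left _ hs
    have h3 : 2 * Δ ≤ s * (8 * p * a * Y) := by
      rw [hΔ]
      have : 1 ≤ a * Y := Nat.mul_pos ha hY1
      nlinarith [Nat.mul_le_mul_left (2 * p * s) this]
    have h4 : 8 * p * a ≤ s * Y - 1 := by omega
    calc 2 * Δ ≤ s * (8 * p * a * Y) := h3
      _ = s * Y * (8 * p * a) := by ring
      _ ≤ s * Y * (s * Y - 1) := Nat.mul_le_mul_left _ h4
  have hbsY : b ≤ s * Y := by
    by_contra hcon
    push Not at hcon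
    have h1 : s * Y * (s * Y - 1) + s * Y = (s * Y) * (s * Y) := by
      have : 1 ≤ s * Y := Nat.mul_pos hs hY1
      obtain ⟨w, hw⟩ : ∃ w, s * Y = w + 1 := ⟨s * Y - 1, by omega⟩
      rw [hw, Nat.add_sub_cancel]
      ring
    obtain ⟨w, hw⟩ : ∃ w, b = s * Y + 1 + w := ⟨b - (s * Y + 1), by omega⟩
    rw [hw] at hbc
    have h5 : 2 * Δ + s * Y ≤ (s * Y) * (s * Y) := by linarith
    have h6 : (s * Y) * (s * Y) + (s * Y + 1 + w) ≤ (s * Y + 1 + w) * (s * Y + 1 + w) := by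
      nlinarith [Nat.zero_le ((s * Y) * w), Nat.zero_le (s * Y), Nat.zero_le (w * w)]
    generalize s * Y = u at *
    generalize (u + 1 + w) * (u + 1 + w) = X at *
    generalize u * u = U at *
    omega
  have h3sY : s * (3 * Y) = 3 * (s * Y) := by ring
  refine ⟨K₀ + s * t, k₀ + a * t, b, c, s * (3 * Y) - b - 2 * c, 3 * Y, by omega, by omega, ?_,
    by omega, ?_⟩
  · nlinarith
  · obtain ⟨r, hr⟩ : ∃ r, s * (3 * Y) = b + 2 * c + r := ⟨s * (3 * Y) - b - 2 * c, by omega⟩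
    have hr' : s * (3 * Y) - b - 2 * c = r := by omega
    rw [hr', hM]
    have e1 : p * (3 * Y * (1 + a * (K₀ + s * t + 1)) + (K₀ + s * t) + 1) = A + Δ * t := by
      rw [hA, hΔ]
      ring
    rw [e1]
    omega

/-- Every rational `p / s > 1` is a constant betweenness. -/
theorem exists_of_coprime (a s : ℕ) (ha : 1 ≤ a) (hs : 1 ≤ s) (h : Nat.Coprime s a) :
    ∃ (V : Type) (_ : Fintype V) (G : SimpleGraph V), G.Connected ∧
      ∀ v, betweenness G v = ((s : ℝ) + a) / s := by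
  obtain ⟨K, k, b, c, r, y, hk, hb, h1, h2, h3⟩ := params a s ha hs h
  have h1' : (s : ℝ) * k = 1 + a * K := by exact_mod_cast h1
  have h2' : (b : ℝ) + 2 * c + r = s * y := by exact_mod_cast h2
  have h3' : ((s : ℝ) * y) * (s * y) = b * b + 4 * c + r +
        2 * ((s + a) * (y * (1 + a * (K + 1)) + K + 1)) := by exact_mod_cast h3
  have hs0 : (0 : ℝ) < s := by exact_mod_cast hs
  have hk0 : (0 : ℝ) < k := by exact_mod_cast hk
  have hKnn : (0 : ℝ) ≤ K := by positivity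
  have hD : (s : ℝ) * (K + k) = 1 + (s + a) * K := by linear_combination h1'
  have hD0 : (0 : ℝ) < (s : ℝ) * (K + k) := by positivity
  have e : (k : ℝ) * (s * y) = (1 + a * K) * y := by rw [← h1']; ring
  have H1 : (((s + a) * ((1 + a * K) * y + K) : ℕ) : ℝ) = ((s : ℝ) + a) / (s * (K + k)) *
      ((((K + 1 : ℕ) : ℝ) - 1) * ((((s + a) * ((1 + a * K) * y + K) : ℕ) : ℝ) + 1) +
        k * (b + 2 * c + r)) := by
    push_cast
    rw [h2', div_mul_eq_mul_div, eq_div_iff hD0.ne', e, hD]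
    ring
  have H2 : (b : ℝ) * (2 * c + r) + 2 * c * (b + (2 * c - 2) + r) + r * (b + 2 * c + (r - 1)) =
      2 * (((s : ℝ) + a) / (s * (K + k))) * (((K + 1 : ℕ) : ℝ) *
        ((((s + a) * ((1 + a * K) * y + K) : ℕ) : ℝ) + 1) + ((k : ℝ) - 1) * (b + 2 * c + r)) := by
    push_cast
    have e1 : (b : ℝ) * (2 * c + r) + 2 * c * (b + (2 * c - 2) + r) + r * (b + 2 * c + (r - 1)) =
        2 * ((s + a) * (y * (1 + a * (K + 1)) + K + 1)) := by
      have : (b : ℝ) * (2 * c + r) + 2 * c * (b + (2 * c - 2) + r) + r * (b + 2 * c + (r - 1)) =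
        (b + 2 * c + r) * (b + 2 * c + r) - (b * b + 4 * c + r) := by ring
      rw [this, h2', h3']
      ring
    rw [e1, h2']
    have e2 : 2 * (((s : ℝ) + a) / (s * (K + k))) * (((K : ℝ) + 1) *
        ((s + a) * ((1 + a * K) * y + K) + 1) + ((k : ℝ) - 1) * (s * y)) =
        2 * ((s : ℝ) + a) * (((K : ℝ) + 1) *
        ((s + a) * ((1 + a * K) * y + K) + 1) + ((k : ℝ) - 1) * (s * y)) / (s * (K + k)) := by
      ring
    rw [e2, eq_div_iff hD0.ne', hD]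
    linear_combination (-2 * ((s : ℝ) + a)) * e
  obtain ⟨G, hG, hB⟩ := exists_graph ((s + a) * ((1 + a * K) * y + K)) b c r (K + 1) k
    (((s : ℝ) + a) / (s * (K + k))) (by omega) hk hb H1 H2
  refine ⟨_, inferInstance, G, hG, fun v => ?_⟩
  rw [hB v]
  push_cast
  have : (K : ℝ) + 1 + k - 1 = K + k := by ring
  rw [this]
  field_simp

end Pool.Agent.Q106.Between
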