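import Pool.Agent.Q106.WordRep

/-!
# Colourings of the circulant graphs `C_{2n}(1, x, n)`
-/

set_option autoImplicit false

namespace Pool.Agent.Q106.Circ

open Pool.Agent.Q106.WordRep

/-- `j = i + d` modulo `2 n`, for numbers less than `2 n` -/
def st (n d i j : ℕ) : Prop := j = i + d ∨ j + 2 * n = i + d

/-- adjacency of `i`, `j < 2 n` -/
def adjN (n x i j : ℕ) : Prop :=
  st n 1 i j ∨ st n 1 j i ∨ st n x i j ∨ st n x j i ∨ st n n i j ∨ st n n j i

/-- The circulant graph `C_{2n}(x, 1, n)`. -/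
def circulant (n x : ℕ) : SimpleGraph (ZMod (2 * n)) where
  Adj a b := a ≠ b ∧ (b = a + 1 ∨ b = a - 1 ∨ b = a + x ∨ b = a - x ∨ b = a + n)
  symm := ⟨by
    rintro a b ⟨h, h1 | h1 | h1 | h1 | h1⟩
    · exact ⟨h.symm, Or.inr (Or.inl (by rw [h1]; ring))⟩
    · exact ⟨h.symm, Or.inl (by rw [h1]; ring)⟩
    · exact ⟨h.symm, Or.inr (Or.inr (Or.inr (Or.inl (by rw [h1]; ring))))⟩
    · exact ⟨h.symm, Or.inr (Or.inr (Or.inl (by rw [h1]; ring)))⟩
    · refine ⟨h.symm, Or.inr (Or.inr (Or.inr (Or.inr ?_)))⟩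
      have h2 : ((2 * n : ℕ) : ZMod (2 * n)) = 0 := ZMod.natCast_self _
      push_cast at h2
      linear_combination -h1 - h2⟩
  loopless := ⟨fun a h => h.1 rfl⟩

theorem add_iff {n d : ℕ} (hd : d < 2 * n) (a b : ZMod (2 * n)) :
    b = a + (d : ZMod (2 * n)) ↔ st n d a.val b.val := by
  have : NeZero (2 * n) := ⟨by omega⟩
  have ha := ZMod.val_lt a
  have hb := ZMod.val_lt b
  have h1 : b = a + (d : ZMod (2 * n)) ↔ b.val = (a.val + d) % (2 * n) := by
    rw [← (ZMod.val_injective (2 * n)).eq_iff, ZMod.val_add, ZMod.val_natCast,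
      Nat.mod_eq_of_lt hd]
  rw [h1]
  unfold st
  rcases Nat.lt_or_ge (a.val + d) (2 * n) with h | h
  · rw [Nat.mod_eq_of_lt h]
    omega
  · rw [Nat.mod_eq_sub_mod h, Nat.mod_eq_of_lt (by omega)]
    omega

theorem adj_iff {n x : ℕ} (hx : 1 < x) (hxn : x < n) (a b : ZMod (2 * n)) :
    (circulant n x).Adj a b ↔ adjN n x a.val b.val := by
  have : NeZero (2 * n) := ⟨by omega⟩
  have ha := ZMod.val_lt a
  have hb := ZMod.val_lt b
  have e1 := add_iff (n := n) (d := 1) (by omega) a b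
  have e2 := add_iff (n := n) (d := 1) (by omega) b a
  have e3 := add_iff (n := n) (d := x) (by omega) a b
  have e4 := add_iff (n := n) (d := x) (by omega) b a
  have e5 := add_iff (n := n) (d := n) (by omega) a b
  have e6 := add_iff (n := n) (d := n) (by omega) b a
  rw [Nat.cast_one] at e1 e2
  have f2 : b = a - 1 ↔ a = b + 1 := by
    constructor <;> intro h <;> rw [h] <;> ring
  have f4 : b = a - (x : ZMod (2 * n)) ↔ a = b + (x : ZMod (2 * n)) := by
    constructor <;> intro h <;> rw [h] <;> ring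
  have f6 : a = b + (n : ZMod (2 * n)) ↔ b = a + (n : ZMod (2 * n)) := by
    have h2 : ((2 * n : ℕ) : ZMod (2 * n)) = 0 := ZMod.natCast_self _
    push_cast at h2
    constructor <;> intro h <;> linear_combination -h - h2
  have hne : adjN n x a.val b.val → a ≠ b := by
    rintro h rfl
    unfold adjN st at h
    omega
  constructor
  · rintro ⟨_, h | h | h | h | h⟩
    · exact Or.inl (e1.1 h)
    · exact Or.inr (Or.inl (e2.1 (f2.1 h)))
    · exact Or.inr (Or.inr (Or.inl (e3.1 h)))
    · exact Or.inr (Or.inr (Or.inr (Or.inl (e4.1 (f4.1 h)))))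
    · exact Or.inr (Or.inr (Or.inr (Or.inr (Or.inl (e5.1 h)))))
  · intro h
    refine ⟨hne h, ?_⟩
    rcases h with h | h | h | h | h | h
    · exact Or.inl (e1.2 h)
    · exact Or.inr (Or.inl (f2.2 (e2.2 h)))
    · exact Or.inr (Or.inr (Or.inl (e3.2 h)))
    · exact Or.inr (Or.inr (Or.inr (Or.inl (f4.2 (e4.2 h)))))
    · exact Or.inr (Or.inr (Or.inr (Or.inr (e5.2 h))))
    · exact Or.inr (Or.inr (Or.inr (Or.inr (f6.1 (e6.2 h)))))

theorem adjN_symm {n x i j : ℕ} (h : adjN n x i j) : adjN n x j i := by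
  rcases h with h | h | h | h | h | h
  · exact Or.inr (Or.inl h)
  · exact Or.inl h
  · exact Or.inr (Or.inr (Or.inr (Or.inl h)))
  · exact Or.inr (Or.inr (Or.inl h))
  · exact Or.inr (Or.inr (Or.inr (Or.inr (Or.inr h))))
  · exact Or.inr (Or.inr (Or.inr (Or.inr (Or.inl h))))

/-- **Criterion with four colours for the circulant graphs.** -/
theorem wr_circ {n x : ℕ} (hx : 1 < x) (hxn : x < n) (c : ℕ → ℕ) (h3 : ∀ i, i < 2 * n → c i ≤ 3)
    (hc : ∀ i j, i < 2 * n → j < 2 * n → adjN n x i j → c i ≠ c j)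
    (hp : ∀ u w w' z, u < 2 * n → w < 2 * n → w' < 2 * n → z < 2 * n → c u = 0 → c w = 1 →
      c w' = 2 → c z = 3 → adjN n x u w → adjN n x w w' → adjN n x w' z → adjN n x u z →
      adjN n x u w' ∧ adjN n x w z) : WordRepresentable (circulant n x) := by
  have : NeZero (2 * n) := ⟨by omega⟩
  refine wr_of_levels _ (fun a => c a.val) (fun v => h3 _ (ZMod.val_lt v)) ?_ ?_
  · intro a b hab
    exact hc _ _ (ZMod.val_lt a) (ZMod.val_lt b) ((adj_iff hx hxn a b).1 hab)
  · intro u w w' z hu hw hw' hz h1 h2 h3 h4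
    rw [adj_iff hx hxn] at h1 h2 h3 h4 ⊢
    rw [adj_iff hx hxn]
    exact hp _ _ _ _ (ZMod.val_lt u) (ZMod.val_lt w) (ZMod.val_lt w') (ZMod.val_lt z) hu hw hw' hz
      h1 h2 h3 h4

theorem wr_circ3 {n x : ℕ} (hx : 1 < x) (hxn : x < n) (c : ℕ → ℕ) (h3 : ∀ i, i < 2 * n → c i ≤ 2)
    (hc : ∀ i j, i < 2 * n → j < 2 * n → (st n 1 i j ∨ st n x i j ∨ st n n i j) → c i ≠ c j) :
    WordRepresentable (circulant n x) := by
  refine wr_circ hx hxn c (fun i hi => (h3 i hi).trans (by norm_num)) ?_ ?_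
  · intro i j hi hj h
    rcases h with h | h | h | h | h | h
    · exact hc i j hi hj (Or.inl h)
    · exact (hc j i hj hi (Or.inl h)).symm
    · exact hc i j hi hj (Or.inr (Or.inl h))
    · exact (hc j i hj hi (Or.inr (Or.inl h))).symm
    · exact hc i j hi hj (Or.inr (Or.inr h))
    · exact (hc j i hj hi (Or.inr (Or.inr h))).symm
  · intro u w w' z _ _ _ hz _ _ _ h
    have := h3 z hz
    omega

/-- **The balanced colourings.** -/
theorem balanced {n x : ℕ} (hx : 1 < x) (hxn : x < n) (B : ℕ) (hB : B % 2 = 1) (hB2 : B ≤ 2 * n)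
    (hB3 : B % 3 = n % 3) (h : (x + x * B / (2 * n)) % 3 = 1) :
    WordRepresentable (circulant n x) := by
  refine wr_circ3 hx hxn (fun i => (i + i * B / (2 * n)) % 3) (fun i _ => by
    have := Nat.mod_lt (i + i * B / (2 * n)) (show 0 < 3 by norm_num)
    omega) ?_
  have hn : 0 < 2 * n := by omega
  -- the floors
  have key : ∀ d : ℕ, (d + d * B / (2 * n)) % 3 = 1 → ∀ i j : ℕ, st n d i j →
      (i + i * B / (2 * n)) % 3 ≠ (j + j * B / (2 * n)) % 3 := by
    intro d hd i j hij
    have h1 : i * B / (2 * n) + d * B / (2 * n) ≤ (i + d) * B / (2 * n) := by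
      rw [Nat.le_div_iff_mul_le hn, add_mul, add_mul]
      exact Nat.add_le_add (Nat.div_mul_le_self _ _) (Nat.div_mul_le_self _ _)
    have h2 : (i + d) * B / (2 * n) ≤ i * B / (2 * n) + d * B / (2 * n) + 1 := by
      rw [← Nat.lt_succ_iff, Nat.div_lt_iff_lt_mul hn, add_mul]
      have e1 := Nat.lt_div_mul_add (a := i * B) hn
      have e2 := Nat.lt_div_mul_add (a := d * B) hn
      generalize i * B / (2 * n) = p at *
      generalize d * B / (2 * n) = q at *
      have : (p + q + 1).succ * (2 * n) = p * (2 * n) + q * (2 * n) + 2 * (2 * n) := by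
        simp only [Nat.succ_eq_add_one]; ring
      omega
    rcases hij with hij | hij
    · rw [← hij] at h1 h2
      generalize j * B / (2 * n) = r at *
      generalize i * B / (2 * n) = p at *
      generalize d * B / (2 * n) = q at *
      omega
    · rw [← hij, add_mul, Nat.add_mul_div_left _ _ hn] at h1 h2
      generalize j * B / (2 * n) = r at *
      generalize i * B / (2 * n) = p at *
      generalize d * B / (2 * n) = q at *
      omega
  intro i j _ _ hij
  rcases hij with hij | hij | hij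
  · refine key 1 ?_ i j hij
    rw [one_mul, Nat.div_eq_of_lt (by omega)]
  · exact key x h i j hij
  · refine key n ?_ i j hij
    have : n * B / (2 * n) = B / 2 := by
      rw [mul_comm 2 n]
      exact Nat.mul_div_mul_left _ _ (by omega)
    rw [this]
    omega

end Pool.Agent.Q106.Circ
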