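import Mathlib

/-!
# Existence of a balanced colouring
-/

set_option autoImplicit false

namespace Pool.Agent.Q106.Circ

/-- in every interval of length `M` there is an integer in a given class modulo `M` -/
theorem pick (M r x a : ℕ) (hx : 0 < x) (hr : r < M) :
    ∃ B, B % M = r ∧ a ≤ x * B ∧ x * B < a + x * M := by
  have hM : 0 < M := by omega
  have hD : 0 < x * M := Nat.mul_pos hx hM
  have hs : x * r < x * M := Nat.mul_lt_mul_of_pos_left hr hx
  refine ⟨M * ((a - x * r + x * M - 1) / (x * M)) + r, ?_, ?_, ?_⟩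
  · rw [Nat.mul_add_mod, Nat.mod_eq_of_lt hr]
  · have h1 := Nat.lt_div_mul_add (a := a - x * r + x * M - 1) hD
    have h2 : x * (M * ((a - x * r + x * M - 1) / (x * M)) + r) =
      (a - x * r + x * M - 1) / (x * M) * (x * M) + x * r := by ring
    rw [h2]
    omega
  · have h1 := Nat.div_mul_le_self (a - x * r + x * M - 1) (x * M)
    have h2 : x * (M * ((a - x * r + x * M - 1) / (x * M)) + r) =
      (a - x * r + x * M - 1) / (x * M) * (x * M) + x * r := by ring
    rw [h2]
    rcases Nat.lt_or_ge a (x * r) with h | h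
    · have h3 : (a - x * r + x * M - 1) / (x * M) = 0 := by
        rw [Nat.div_eq_zero_iff]
        right
        omega
      rw [h3]
      omega
    · omega

/-- the goal for `B` -/
def Good (n x B : ℕ) : Prop :=
  B % 2 = 1 ∧ B ≤ 2 * n ∧ B % 3 = n % 3 ∧ (x + x * B / (2 * n)) % 3 = 1

theorem good_small {n x : ℕ} (h3 : 3 ≤ x) (hx : 3 * x ≤ n) : ∃ B, Good n x B := by
  have hn : 0 < 2 * n := by omega
  obtain ⟨r, hr, hr2, hr3⟩ : ∃ r, r < 6 ∧ r % 2 = 1 ∧ r % 3 = n % 3 := by
    have : n % 3 = 0 ∨ n % 3 = 1 ∨ n % 3 = 2 := by omega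
    rcases this with h | h | h
    · exact ⟨3, by omega, by omega, by omega⟩
    · exact ⟨1, by omega, by omega, by omega⟩
    · exact ⟨5, by omega, by omega, by omega⟩
  obtain ⟨m, hm, hm3⟩ : ∃ m, m ≤ 2 ∧ (x + m) % 3 = 1 := by
    have : x % 3 = 0 ∨ x % 3 = 1 ∨ x % 3 = 2 := by omega
    rcases this with h | h | h
    · exact ⟨1, by omega, by omega⟩
    · exact ⟨0, by omega, by omega⟩
    · exact ⟨2, by omega, by omega⟩
  obtain ⟨B, hB1, hB2, hB3⟩ := pick 6 r x (m * (2 * n)) (by omega) hr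
  have h4 : x * B < (m + 1) * (2 * n) := by
    have : (m + 1) * (2 * n) = m * (2 * n) + 2 * n := by ring
    omega
  have h5 : x * B / (2 * n) = m := Nat.div_eq_of_lt_le hB2 h4
  refine ⟨B, by omega, ?_, by omega, by rw [h5]; exact hm3⟩
  have h6 : x * B < x * (2 * n) := h4.trans_le (Nat.mul_le_mul_right _ (by omega))
  exact (Nat.lt_of_mul_lt_mul_left h6).le

theorem good_large {n x y : ℕ} (hy : x + y = n) (hy2 : 2 ≤ y) (hyn : 3 * y ≤ n)
    (hex : y = 3 → n ≠ 11 ∧ n ≠ 14) : ∃ B, Good n x B := by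
  have hn : 0 < 2 * n := by omega
  obtain ⟨r, hr, hr2, hr3⟩ : ∃ r, r < 6 ∧ r % 2 = 1 ∧ r % 3 = n % 3 := by
    have : n % 3 = 0 ∨ n % 3 = 1 ∨ n % 3 = 2 := by omega
    rcases this with h | h | h
    · exact ⟨3, by omega, by omega, by omega⟩
    · exact ⟨1, by omega, by omega, by omega⟩
    · exact ⟨5, by omega, by omega, by omega⟩
  -- the floor
  have hfloor : ∀ b j k B : ℕ, B = 2 * b + 1 → k + j = b → n * (2 * j) < y * B + n →
      y * B ≤ n * (2 * j) + n → x * B / (2 * n) = k := by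
    intro b j k B hB hk h1 h2
    have e1 : x * B + y * B = 2 * (n * k) + n * (2 * j) + n := by
      rw [← add_mul, hy, hB, ← hk]
      ring
    apply Nat.div_eq_of_lt_le
    · have : k * (2 * n) = 2 * (n * k) := by ring
      omega
    · have : (k + 1) * (2 * n) = 2 * (n * k) + 2 * n := by ring
      omega
  by_cases hy3 : y = 3
  · have hr4 : y * r ≤ n := by
      have h9 := hex hy3
      have h10 : r = 1 ∨ r = 3 ∨ r = 5 := by omega
      subst hy3
      rcases h10 with rfl | rfl | rfl <;> omega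
    refine ⟨r, hr2, by omega, hr3, ?_⟩
    rw [hfloor ((r - 1) / 2) 0 ((r - 1) / 2) r (by omega) (by omega) (by omega) (by omega)]
    omega
  · obtain ⟨j, hj1, hj3, hjy⟩ : ∃ j, 1 ≤ j ∧ (2 * j + 1 ≤ 2 * y) ∧ (y + j) % 3 = 0 := by
      have : y % 3 = 0 ∨ y % 3 = 1 ∨ y % 3 = 2 := by omega
      rcases this with h | h | h
      · exact ⟨3, by omega, by omega, by omega⟩
      · exact ⟨2, by omega, by omega, by omega⟩
      · exact ⟨1, by omega, by omega, by omega⟩
    obtain ⟨B, hB1, hB2, hB3⟩ := pick 6 r y (n * (2 * j - 1) + 1) (by omega) hr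
    have e1 : n * (2 * j - 1) + n = n * (2 * j) := by
      have : 2 * j = (2 * j - 1) + 1 := by omega
      rw [this, mul_add]
      simp
    have h1 : n * (2 * j) < y * B + n := by omega
    have h2 : y * B ≤ n * (2 * j) + n := by omega
    have h3 : B ≤ 2 * n := by
      have h4 : y * B ≤ y * (2 * n) := by
        have h5 : n * (2 * j) + n ≤ y * (2 * n) := by
          have h6 : n * (2 * j + 1) ≤ n * (2 * y) := Nat.mul_le_mul_left _ hj3
          have h7 : n * (2 * y) = y * (2 * n) := by ring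
          have h8 : n * (2 * j + 1) = n * (2 * j) + n := by ring
          omega
        omega
      exact Nat.le_of_mul_le_mul_left h4 (by omega)
    -- `B` is large enough
    have h4 : 3 * (2 * j - 1) < B := by
      have h5 : y * (3 * (2 * j - 1)) < y * B := by
        have h6 : 3 * y * (2 * j - 1) ≤ n * (2 * j - 1) := Nat.mul_le_mul_right _ hyn
        have h7 : y * (3 * (2 * j - 1)) = 3 * y * (2 * j - 1) := by ring
        omega
      exact Nat.lt_of_mul_lt_mul_left h5
    refine ⟨B, by omega, h3, by omega, ?_⟩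
    rw [hfloor ((B - 1) / 2) j ((B - 1) / 2 - j) B (by omega) (by omega) h1 h2]
    omega

theorem floor_pos {n x d B q ρ j : ℕ} (_hn : 0 < n) (h : 2 * x = n + d) (hB : B = 4 * q + ρ)
    (h1 : 4 * (n * j) ≤ n * ρ + d * B) (h2 : n * ρ + d * B < 4 * (n * j) + 4 * n) :
    x * B / (2 * n) = q + j := by
  have e1 : 2 * (x * B) = 4 * (n * q) + n * ρ + d * B := by
    rw [← mul_assoc, h, add_mul, hB]
    ring
  apply Nat.div_eq_of_lt_le
  · have : (q + j) * (2 * n) = 2 * (n * q) + 2 * (n * j) := by ring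
    omega
  · have : (q + j + 1) * (2 * n) = 2 * (n * q) + 2 * (n * j) + 2 * n := by ring
    omega

theorem floor_neg {n x d B k ρ j : ℕ} (_hn : 0 < n) (h : 2 * x + d = n) (hB : B = 4 * (k + j) + ρ)
    (h1 : d * B ≤ 4 * (n * j) + n * ρ) (h2 : 4 * (n * j) + n * ρ < d * B + 4 * n) :
    x * B / (2 * n) = k := by
  have e1 : 2 * (x * B) + d * B = 4 * (n * k) + 4 * (n * j) + n * ρ := by
    rw [← mul_assoc, ← add_mul, h, hB]
    ring
  apply Nat.div_eq_of_lt_le
  · have : k * (2 * n) = 2 * (n * k) := by ring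
    omega
  · have : (k + 1) * (2 * n) = 2 * (n * k) + 2 * n := by ring
    omega

theorem good_pos {n x d : ℕ} (h : 2 * x = n + d) (hd : 0 < d) (hdn : 3 * d < n)
    (hex : d = 2 → n ≠ 8 ∧ n ≠ 10 ∧ n ≠ 14 ∧ n ≠ 20) : ∃ B, Good n x B := by
  obtain ⟨s, hs, hs4, hs3⟩ : ∃ r, r ≤ 11 ∧ r % 4 = 3 ∧ r % 3 = n % 3 := by
    have : n % 3 = 0 ∨ n % 3 = 1 ∨ n % 3 = 2 := by omega
    rcases this with h | h | h
    · exact ⟨3, by omega, by omega, by omega⟩
    · exact ⟨7, by omega, by omega, by omega⟩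
    · exact ⟨11, by omega, by omega, by omega⟩
  obtain ⟨r, hr, hr4, hr3⟩ : ∃ r, r ≤ 9 ∧ r % 4 = 1 ∧ r % 3 = n % 3 := by
    have : n % 3 = 0 ∨ n % 3 = 1 ∨ n % 3 = 2 := by omega
    rcases this with h | h | h
    · exact ⟨9, by omega, by omega, by omega⟩
    · exact ⟨1, by omega, by omega, by omega⟩
    · exact ⟨5, by omega, by omega, by omega⟩
  have hle : ∀ B C : ℕ, d * B < C * n → C ≤ 2 * d → B ≤ 2 * n := by
    intro B C h1 h2
    have h3 : d * B < d * (2 * n) := by
      refine h1.trans_le ?_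
      calc C * n ≤ 2 * d * n := Nat.mul_le_mul_right _ h2
        _ = d * (2 * n) := by ring
    exact (Nat.lt_of_mul_lt_mul_left h3).le
  have hd3 : d % 3 = 0 ∨ d % 3 = 1 ∨ d % 3 = 2 := by omega
  rcases hd3 with hd3 | hd3 | hd3
  · obtain ⟨B, hB1, hB2, hB3⟩ := pick 12 s d n hd (by omega)
    refine ⟨B, by omega, hle B 5 (by omega) (by omega), by omega, ?_⟩
    rw [floor_pos (q := B / 4) (ρ := 3) (j := 1) (by omega) h (by omega) (by omega) (by omega)]
    omega
  · by_cases h7 : 7 ≤ d
    · obtain ⟨B, hB1, hB2, hB3⟩ := pick 12 s d (5 * n) hd (by omega)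
      refine ⟨B, by omega, hle B 9 (by omega) (by omega), by omega, ?_⟩
      rw [floor_pos (q := B / 4) (ρ := 3) (j := 2) (by omega) h (by omega) (by omega) (by omega)]
      omega
    · have hd' : d = 1 ∨ d = 4 := by omega
      have hlt : d * r < 3 * n := by
        rcases hd' with rfl | rfl <;> omega
      refine ⟨r, by omega, by omega, by omega, ?_⟩
      rw [floor_pos (q := r / 4) (ρ := 1) (j := 0) (by omega) h (by omega) (by omega) (by omega)]
      omega
  · by_cases h5 : 5 ≤ d
    · obtain ⟨B, hB1, hB2, hB3⟩ := pick 12 r d (3 * n) hd (by omega)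
      refine ⟨B, by omega, hle B 7 (by omega) (by omega), by omega, ?_⟩
      rw [floor_pos (q := B / 4) (ρ := 1) (j := 1) (by omega) h (by omega) (by omega) (by omega)]
      omega
    · have hd' : d = 2 := by omega
      have := hex hd'
      subst hd'
      refine ⟨s, by omega, by omega, by omega, ?_⟩
      rw [floor_pos (q := s / 4) (ρ := 3) (j := 0) (by omega) h (by omega) (by omega) (by omega)]
      omega

theorem good_neg {n x d : ℕ} (h : 2 * x + d = n) (hd : 0 < d) (hdn : 3 * d < n) (hn7 : 7 ≤ n)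
    (hex : d = 2 → n ≠ 8 ∧ n ≠ 12) (hex4 : d = 4 → n ≠ 14) : ∃ B, Good n x B := by
  obtain ⟨s, hs, hs4, hs3⟩ : ∃ r, r ≤ 11 ∧ r % 4 = 3 ∧ r % 3 = n % 3 := by
    have : n % 3 = 0 ∨ n % 3 = 1 ∨ n % 3 = 2 := by omega
    rcases this with h | h | h
    · exact ⟨3, by omega, by omega, by omega⟩
    · exact ⟨7, by omega, by omega, by omega⟩
    · exact ⟨11, by omega, by omega, by omega⟩
  obtain ⟨r, hr, hr4, hr3⟩ : ∃ r, r ≤ 9 ∧ r % 4 = 1 ∧ r % 3 = n % 3 := by
    have : n % 3 = 0 ∨ n % 3 = 1 ∨ n % 3 = 2 := by omega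
    rcases this with h | h | h
    · exact ⟨9, by omega, by omega, by omega⟩
    · exact ⟨1, by omega, by omega, by omega⟩
    · exact ⟨5, by omega, by omega, by omega⟩
  have hle : ∀ B C : ℕ, d * B ≤ C * n → C ≤ 2 * d → B ≤ 2 * n := by
    intro B C h1 h2
    have h3 : d * B ≤ d * (2 * n) := by
      refine h1.trans ?_
      calc C * n ≤ 2 * d * n := Nat.mul_le_mul_right _ h2
        _ = d * (2 * n) := by ring
    exact Nat.le_of_mul_le_mul_left h3 hd
  have hge : ∀ B C : ℕ, C * n < d * B → 3 * C < B := by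
    intro B C h1
    have h3 : d * (3 * C) < d * B := by
      have h4 : C * (3 * d) ≤ C * n := Nat.mul_le_mul_left _ hdn.le
      have h5 : d * (3 * C) = C * (3 * d) := by ring
      omega
    exact Nat.lt_of_mul_lt_mul_left h3
  have hd3 : d % 3 = 0 ∨ d % 3 = 1 ∨ d % 3 = 2 := by omega
  rcases hd3 with hd3 | hd3 | hd3
  · obtain ⟨B, hB1, hB2, hB3⟩ := pick 12 r d (n + 1) hd (by omega)
    have hg := hge B 1 (by omega)
    refine ⟨B, by omega, hle B 5 (by omega) (by omega), by omega, ?_⟩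
    rw [floor_neg (k := B / 4 - 1) (ρ := 1) (j := 1) (by omega) h (by omega) (by omega) (by omega)]
    omega
  · by_cases h7 : 7 ≤ d
    · obtain ⟨B, hB1, hB2, hB3⟩ := pick 12 r d (5 * n + 1) hd (by omega)
      have hg := hge B 5 (by omega)
      refine ⟨B, by omega, hle B 9 (by omega) (by omega), by omega, ?_⟩
      rw [floor_neg (k := B / 4 - 2) (ρ := 1) (j := 2) (by omega) h (by omega) (by omega)
        (by omega)]
      omega
    · have hd' : d = 1 ∨ d = 4 := by omega
      have hlt : d * s ≤ 3 * n := by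
        rcases hd' with rfl | rfl
        · omega
        · have := hex4 rfl
          omega
      refine ⟨s, by omega, by omega, by omega, ?_⟩
      rw [floor_neg (k := s / 4) (ρ := 3) (j := 0) (by omega) h (by omega) (by omega) (by omega)]
      omega
  · by_cases h5 : 5 ≤ d
    · obtain ⟨B, hB1, hB2, hB3⟩ := pick 12 s d (3 * n + 1) hd (by omega)
      have hg := hge B 3 (by omega)
      refine ⟨B, by omega, hle B 7 (by omega) (by omega), by omega, ?_⟩
      rw [floor_neg (k := B / 4 - 1) (ρ := 3) (j := 1) (by omega) h (by omega) (by omega)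
        (by omega)]
      omega
    · have hd' : d = 2 := by omega
      have := hex hd'
      subst hd'
      refine ⟨r, by omega, by omega, by omega, ?_⟩
      rw [floor_neg (k := r / 4) (ρ := 1) (j := 0) (by omega) h (by omega) (by omega) (by omega)]
      omega

/-- the sporadic pairs -/
def sporadic : List (ℕ × ℕ) :=
  [(8, 3), (8, 5), (10, 6), (11, 8), (12, 5), (14, 5), (14, 8), (14, 11), (20, 11)]

theorem exists_good {n x : ℕ} (h3 : 3 ≤ x) (hxn : x + 2 ≤ n) (h2 : 2 * x ≠ n)
    (hs : (n, x) ∉ sporadic) : ∃ B, Good n x B := by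
  simp only [sporadic, List.mem_cons, Prod.mk.injEq, List.not_mem_nil, or_false, not_or,
    not_and] at hs
  obtain ⟨s1, s2, s3, s4, s5, s6, s7, s8, s9⟩ := hs
  rcases Nat.lt_or_ge n (3 * x) with h | h
  · obtain ⟨y, rfl⟩ : ∃ y, n = x + y := ⟨n - x, by omega⟩
    rcases Nat.lt_or_ge (x + y) (3 * y) with h' | h'
    · rcases Nat.lt_or_ge (x + y) (2 * x) with h4 | h4
      · exact good_pos (d := x - y) (by omega) (by omega) (by omega) (fun hd => by omega)
      · exact good_neg (d := y - x) (by omega) (by omega) (by omega) (by omega)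
          (fun hd => by omega) (fun hd => by omega)
    · exact good_large rfl (by omega) h' (fun hy => by omega)
  · exact good_small h3 h

end Pool.Agent.Q106.Circ
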