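import Pool.Agent.Q106.Circ

/-!
# The special families of circulant graphs
-/

set_option autoImplicit false

namespace Pool.Agent.Q106.Circ

open Pool.Agent.Q106.WordRep

/-! ### `x = n - 1` -/

/-- the cycle -/
def cyc (n : ℕ) : SimpleGraph (Fin n) where
  Adj a b := a.val ≠ b.val ∧ (a.val + 1 = b.val ∨ b.val + 1 = a.val ∨
    (a.val = 0 ∧ b.val + 1 = n) ∨ (b.val = 0 ∧ a.val + 1 = n))
  symm := ⟨by
    rintro a b ⟨h, h1⟩
    refine ⟨h.symm, ?_⟩
    omega⟩
  loopless := ⟨fun a h => h.1 rfl⟩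

theorem wr_cyc {n : ℕ} (hn : 3 ≤ n) : WordRepresentable (cyc n) := by
  refine wr_of_three _ (fun a => if a.val + 1 = n then 2 else a.val % 2) ?_ ?_
  · intro a
    have := Nat.mod_lt a.val (show 0 < 2 by norm_num)
    show (if a.val + 1 = n then 2 else a.val % 2) ≤ 2
    split_ifs <;> omega
  · rintro a b ⟨h, h1⟩
    have ha := a.2
    have hb := b.2
    show (if a.val + 1 = n then 2 else a.val % 2) ≠ (if b.val + 1 = n then 2 else b.val % 2)
    split_ifs <;> omega

theorem wr_pred {n : ℕ} (hn : 3 ≤ n) : WordRepresentable (circulant n (n - 1)) := by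
  have : NeZero (2 * n) := ⟨by omega⟩
  refine wr_of_twins (cyc n) _ (fun a => if h : a.val < n then ⟨a.val, h⟩ else
    ⟨a.val - n, by have := ZMod.val_lt a; omega⟩) ?_ (wr_cyc hn)
  intro a b hab
  rw [adj_iff (by omega) (by omega)]
  have ha := ZMod.val_lt a
  have hb := ZMod.val_lt b
  have hab' : a.val ≠ b.val := fun h => hab (ZMod.val_injective _ h)
  unfold adjN st
  show _ ↔ (_ ∨ (_ ∧ _))
  rw [Fin.ext_iff]
  split_ifs <;> simp only [] <;> omega

/-! ### `x = 2` -/

theorem wr_two_mod2 {n : ℕ} (hn : 5 ≤ n) (h : n % 3 = 2) : WordRepresentable (circulant n 2) := by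
  refine wr_circ (by omega) (by omega) (fun i => if i + 1 = 2 * n then 3 else i % 3) ?_ ?_ ?_
  · intro i _
    show (if i + 1 = 2 * n then 3 else i % 3) ≤ 3
    split_ifs <;> omega
  · intro i j hi hj hij
    show (if i + 1 = 2 * n then 3 else i % 3) ≠ (if j + 1 = 2 * n then 3 else j % 3)
    unfold adjN st at hij
    split_ifs <;> omega
  · intro u w w' z hu hw hw' hz h0 h1 h2 h3 a1 a2 a3 a4
    exfalso
    have hz' : z + 1 = 2 * n := by
      by_contra hne
      simp only [if_neg hne] at h3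
      omega
    have hu' : u % 3 = 0 := by
      split_ifs at h0
      exact h0
    have hw0 : w % 3 = 1 := by
      split_ifs at h1 <;> omega
    have hw0' : w' % 3 = 2 := by
      split_ifs at h2 <;> omega
    clear h0 h1 h2 h3
    have hu2 : u = 0 := by
      unfold adjN st at a4
      omega
    have hw2 : w' + 2 = 2 * n := by
      unfold adjN st at a3
      omega
    subst hu2
    have hw3 : w = 1 := by
      unfold adjN st at a1
      omega
    subst hw3
    unfold adjN st at a2
    omega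

theorem wr_two_mod1 {n : ℕ} (hn : 7 ≤ n) (h : n % 3 = 1) : WordRepresentable (circulant n 2) := by
  refine wr_circ (by omega) (by omega) (fun i => if i = 0 ∨ i + 3 = 2 * n then 3 else
    if i + 1 = 2 * n then 0 else (2 * i + 2) % 3) ?_ ?_ ?_
  · intro i _
    show (if i = 0 ∨ i + 3 = 2 * n then 3 else if i + 1 = 2 * n then 0 else (2 * i + 2) % 3) ≤ 3
    split_ifs <;> omega
  · intro i j hi hj hij
    show (if i = 0 ∨ i + 3 = 2 * n then 3 else if i + 1 = 2 * n then 0 else (2 * i + 2) % 3) ≠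
      (if j = 0 ∨ j + 3 = 2 * n then 3 else if j + 1 = 2 * n then 0 else (2 * j + 2) % 3)
    unfold adjN st at hij
    split_ifs <;> omega
  · intro u w w' z hu hw hw' hz h0 h1 h2 h3 a1 a2 a3 a4
    exfalso
    have hz' : z = 0 ∨ z + 3 = 2 * n := by
      split_ifs at h3 <;> omega
    have hu' : u + 1 = 2 * n ∨ (2 * u + 2) % 3 = 0 := by
      split_ifs at h0 <;> omega
    have hw0 : (2 * w + 2) % 3 = 1 ∧ w ≠ 0 ∧ w + 1 ≠ 2 * n := by
      split_ifs at h1 <;> omega
    have hw0' : (2 * w' + 2) % 3 = 2 ∧ w' ≠ 0 ∧ w' + 3 ≠ 2 * n := by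
      split_ifs at h2 <;> omega
    clear h0 h1 h2 h3
    rcases hz' with hz' | hz'
    · subst hz'
      have hu2 : u + 1 = 2 * n ∨ u = 2 := by
        unfold adjN st at a4
        omega
      have hw2 : w' + 2 = 2 * n := by
        unfold adjN st at a3
        omega
      have hw3 : w = 1 ∨ w = 4 := by
        unfold adjN st at a1
        omega
      unfold adjN st at a2
      omega
    · have hu2 : u + 1 = 2 * n := by
        unfold adjN st at a4
        omega
      have hw2 : w' + 2 = 2 * n ∨ w' + 5 = 2 * n := by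
        unfold adjN st at a3
        omega
      have hw3 : w = 1 := by
        unfold adjN st at a1
        omega
      unfold adjN st at a2
      omega

/-- the colouring for `n` divisible by three -/
def c0 (n i : ℕ) : ℕ :=
  if i = 0 ∨ i = 4 ∨ i + 1 = n then 3 else if i < 4 then (i + 2) % 3 else
    if i < n then (i + 1) % 3 else i % 3

theorem wr_two_mod0 {n : ℕ} (hn : 9 ≤ n) (h : n % 3 = 0) : WordRepresentable (circulant n 2) := by
  refine wr_circ (by omega) (by omega) (c0 n) ?_ ?_ ?_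
  · intro i _
    unfold c0
    split_ifs <;> omega
  · intro i j hi hj hij
    unfold adjN st at hij
    unfold c0
    split_ifs <;> omega
  · intro u w w' z hu hw hw' hz h0 h1 h2 h3 a1 a2 a3 a4
    exfalso
    unfold c0 at h0 h1 h2 h3
    have hz' : z = 0 ∨ z = 4 ∨ z + 1 = n := by
      split_ifs at h3 <;> omega
    have hu' : u ≠ 0 ∧ u ≠ 4 ∧ u + 1 ≠ n ∧ ((u < 4 ∧ u % 3 = 1) ∨ (4 < u ∧ u < n ∧ u % 3 = 2) ∨
        (n ≤ u ∧ u % 3 = 0)) := by
      split_ifs at h0 <;> omega
    have hw0 : w ≠ 0 ∧ w ≠ 4 ∧ w + 1 ≠ n ∧ ((w < 4 ∧ w % 3 = 2) ∨ (4 < w ∧ w < n ∧ w % 3 = 0) ∨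
        (n ≤ w ∧ w % 3 = 1)) := by
      split_ifs at h1 <;> omega
    have hw0' : w' ≠ 0 ∧ w' ≠ 4 ∧ w' + 1 ≠ n ∧ ((w' < 4 ∧ w' % 3 = 0) ∨
        (4 < w' ∧ w' < n ∧ w' % 3 = 1) ∨ (n ≤ w' ∧ w' % 3 = 2)) := by
      split_ifs at h2 <;> omega
    clear h0 h1 h2 h3
    rcases hz' with hz' | hz' | hz'
    · have hu2 : u = 1 ∨ u = n := by
        unfold adjN st at a4
        omega
      have hw2 : w' + 1 = 2 * n := by
        unfold adjN st at a3
        omega
      have hw3 : w = 2 ∨ w = n + 1 := by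
        unfold adjN st at a1
        omega
      unfold adjN st at a2
      omega
    · have hu2 : u = 5 := by
        unfold adjN st at a4
        omega
      have hw2 : w' = 3 := by
        unfold adjN st at a3
        omega
      have hw3 : w = 6 := by
        unfold adjN st at a1
        omega
      unfold adjN st at a2
      omega
    · have hu2 : u = n := by
        unfold adjN st at a4
        omega
      have hw2 : w' + 2 = n ∨ w' + 1 = 2 * n := by
        unfold adjN st at a3
        omega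
      have hw3 : w = n + 1 := by
        unfold adjN st at a1
        omega
      unfold adjN st at a2
      omega

/-! ### `x = n / 2` -/

/-- the column of a vertex -/
def col (m i : ℕ) : ℕ :=
  if i < m then i else if i < 2 * m then i - m else if i < 3 * m then i - 2 * m else i - 3 * m

/-- the row of a vertex -/
def row (m i : ℕ) : ℕ := if i < m then 0 else if i < 2 * m then 1 else if i < 3 * m then 2 else 3

theorem row_col {m i : ℕ} (hi : i < 4 * m) : i = row m i * m + col m i ∧ row m i ≤ 3 ∧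
    col m i < m := by
  unfold row col
  split_ifs <;> omega

/-- the adjacency in terms of rows and columns -/
theorem adj_rc {m i j : ℕ} (hm : 2 ≤ m) (hi : i < 4 * m) (hj : j < 4 * m)
    (h : adjN (2 * m) m i j) :
    (col m i = col m j ∧ row m i ≠ row m j) ∨
    (row m i = row m j ∧ (col m i + 1 = col m j ∨ col m j + 1 = col m i)) ∨
    (col m i + 1 = m ∧ col m j = 0 ∧ (row m j = row m i + 1 ∨ row m j + 3 = row m i)) ∨
    (col m j + 1 = m ∧ col m i = 0 ∧ (row m i = row m j + 1 ∨ row m i + 3 = row m j)) := by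
  unfold adjN st at h
  unfold row col
  split_ifs <;> omega

/-- one step up -/
theorem step_up {m p q p' q' : ℕ} (_hp : p ≤ 3) (_hp' : p' ≤ 3)
    (h : (q = q' ∧ p ≠ p') ∨ (p = p' ∧ (q + 1 = q' ∨ q' + 1 = q)) ∨
      (q + 1 = m ∧ q' = 0 ∧ (p' = p + 1 ∨ p' + 3 = p)) ∨
      (q' + 1 = m ∧ q = 0 ∧ (p = p' + 1 ∨ p + 3 = p')))
    (hc : (p' + 2 * (q' % 2)) % 4 = (p + 2 * (q % 2) + 1) % 4) :
    q = q' ∨ (q + 1 = m ∧ q' = 0 ∧ m % 2 = 1) ∨ (q' + 1 = m ∧ q = 0 ∧ m % 2 = 0) := by
  rcases h with ⟨h, _⟩ | ⟨h, h'⟩ | ⟨h, h', h''⟩ | ⟨h, h', h''⟩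
  · exact Or.inl h
  · exfalso
    omega
  · right
    left
    refine ⟨h, h', ?_⟩
    omega
  · right
    right
    refine ⟨h, h', ?_⟩
    omega

theorem adj_same {m i j : ℕ} (_hm : 2 ≤ m) (hi : i < 4 * m) (hj : j < 4 * m)
    (h : col m i = col m j) (hne : i ≠ j) : adjN (2 * m) m i j := by
  unfold adjN st
  unfold col at h
  split_ifs at h <;> omega

theorem wr_half {m : ℕ} (hm : 2 ≤ m) : WordRepresentable (circulant (2 * m) m) := by
  refine wr_circ (by omega) (by omega) (fun i => (row m i + 2 * (col m i % 2)) % 4) ?_ ?_ ?_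
  · intro i _
    show (row m i + 2 * (col m i % 2)) % 4 ≤ 3
    omega
  · intro i j hi hj hij
    have h1 := adj_rc hm (by omega) (by omega) hij
    have h2 := row_col (m := m) (i := i) (by omega)
    have h3 := row_col (m := m) (i := j) (by omega)
    show (row m i + 2 * (col m i % 2)) % 4 ≠ (row m j + 2 * (col m j % 2)) % 4
    omega
  · intro u w w' z hu hw hw' hz h0 h1 h2 h3 a1 a2 a3 a4
    have d1 := adj_rc hm (by omega) (by omega) a1
    have d2 := adj_rc hm (by omega) (by omega) a2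
    have d3 := adj_rc hm (by omega) (by omega) a3
    have d4 := adj_rc hm (by omega) (by omega) a4
    have r1 := row_col (m := m) (i := u) (by omega)
    have r2 := row_col (m := m) (i := w) (by omega)
    have r3 := row_col (m := m) (i := w') (by omega)
    have r4 := row_col (m := m) (i := z) (by omega)
    have n1 : u ≠ w' := by
      rintro rfl
      omega
    have n2 : w ≠ z := by
      rintro rfl
      omega
    have key : col m u = col m w' ∧ col m w = col m z := by
      have k1 := r1.2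
      have k2 := r2.2
      have k3 := r3.2
      have k4 := r4.2
      have s1 := step_up k1.1 k2.1 d1 (by omega)
      have s2 := step_up k2.1 k3.1 d2 (by omega)
      have s3 := step_up k3.1 k4.1 d3 (by omega)
      have d4' := adj_rc hm (by omega) (by omega) (adjN_symm a4)
      have s4 := step_up k4.1 k1.1 d4' (by omega)
      clear d1 d2 d3 d4 d4' r1 r2 r3 r4 a1 a2 a3 a4 n1 n2 hu hw hw' hz h0 h1 h2 h3
      omega
    exact ⟨adj_same hm (by omega) (by omega) key.1 n1, adj_same hm (by omega) (by omega) key.2 n2⟩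

/-! ### finitely many pairs -/

/-- the neighbours -/
def nb (n x i : ℕ) : List ℕ :=
  [(i + 1) % (2 * n), (i + 2 * n - 1) % (2 * n), (i + x) % (2 * n), (i + 2 * n - x) % (2 * n),
    (i + n) % (2 * n)]

theorem mem_nb {n x i j : ℕ} (hx : 1 < x) (hxn : x < n) (hi : i < 2 * n) (hj : j < 2 * n) :
    adjN n x i j ↔ j ∈ nb n x i := by
  have key : ∀ d, d < 2 * n → (st n d i j ↔ j = (i + d) % (2 * n)) := by
    intro d hd
    unfold st
    rcases Nat.lt_or_ge (i + d) (2 * n) with h | h
    · rw [Nat.mod_eq_of_lt h]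
      omega
    · rw [Nat.mod_eq_sub_mod h, Nat.mod_eq_of_lt (by omega)]
      omega
  have h1 : st n 1 j i ↔ st n (2 * n - 1) i j := by
    unfold st
    omega
  have h2 : st n x j i ↔ st n (2 * n - x) i j := by
    unfold st
    omega
  have h3 : st n n j i ↔ st n n i j := by
    unfold st
    omega
  unfold adjN nb
  rw [h1, h2, h3, key 1 (by omega), key (2 * n - 1) (by omega), key x (by omega),
    key (2 * n - x) (by omega), key n (by omega)]
  have e1 : i + 2 * n - 1 = i + (2 * n - 1) := by omega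
  have e2 : i + 2 * n - x = i + (2 * n - x) := by omega
  rw [e1, e2]
  simp only [List.mem_cons, List.not_mem_nil, or_false, or_self]

/-- the check of a table -/
def check (n x : ℕ) (l : List ℕ) : Bool :=
  (List.range (2 * n)).all fun u => decide (l.getD u 9 ≤ 3) &&
    (nb n x u).all fun w => decide (l.getD u 9 ≠ l.getD w 9) &&
      (decide (l.getD u 9 ≠ 0 ∨ l.getD w 9 ≠ 1) || (nb n x w).all fun w' =>
        decide (l.getD w' 9 ≠ 2) || (nb n x w').all fun z =>
          decide (l.getD z 9 ≠ 3) || decide (z ∉ nb n x u) ||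
            (decide (w' ∈ nb n x u) && decide (z ∈ nb n x w)))

theorem wr_check {n x : ℕ} (hx : 1 < x) (hxn : x < n) (l : List ℕ) (h : check n x l = true) :
    WordRepresentable (circulant n x) := by
  unfold check at h
  rw [List.all_eq_true] at h
  refine wr_circ hx hxn (fun i => l.getD i 9) ?_ ?_ ?_
  · intro i hi
    have h1 := h i (List.mem_range.2 hi)
    rw [Bool.and_eq_true, decide_eq_true_eq] at h1
    exact h1.1
  · intro i j hi hj hij
    have h1 := h i (List.mem_range.2 hi)
    rw [Bool.and_eq_true, List.all_eq_true] at h1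
    have h2 := h1.2 j ((mem_nb hx hxn hi hj).1 hij)
    rw [Bool.and_eq_true, decide_eq_true_eq] at h2
    exact h2.1
  · intro u w w' z hu hw hw' hz h0 h1 h2 h3 a1 a2 a3 a4
    have e1 := h u (List.mem_range.2 hu)
    rw [Bool.and_eq_true, List.all_eq_true] at e1
    have e2 := e1.2 w ((mem_nb hx hxn hu hw).1 a1)
    rw [Bool.and_eq_true, Bool.or_eq_true, List.all_eq_true] at e2
    have e3 := e2.2.resolve_left (by
      rw [decide_eq_true_eq]
      rintro (e | e)
      · exact e h0
      · exact e h1)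
    have e4 := e3 w' ((mem_nb hx hxn hw hw').1 a2)
    rw [Bool.or_eq_true, List.all_eq_true] at e4
    rcases e4 with e4 | e4
    · rw [decide_eq_true_eq] at e4
      exact absurd h2 e4
    · have e5 := e4 z ((mem_nb hx hxn hw' hz).1 a3)
      rw [Bool.or_eq_true, Bool.or_eq_true, Bool.and_eq_true, decide_eq_true_eq, decide_eq_true_eq,
        decide_eq_true_eq, decide_eq_true_eq] at e5
      rcases e5 with (e5 | e5) | e5
      · exact absurd h3 e5
      · exact absurd ((mem_nb hx hxn hu hz).1 a4) e5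
      · exact ⟨(mem_nb hx hxn hu hw').2 e5.1, (mem_nb hx hxn hw hz).2 e5.2⟩

theorem wr_6_2 : WordRepresentable (circulant 6 2) :=
  wr_check (by norm_num) (by norm_num) [0, 1, 2, 3, 0, 1, 2, 3, 0, 1, 2, 3] (by decide +kernel)

theorem wr_8_3 : WordRepresentable (circulant 8 3) :=
  wr_check (by norm_num) (by norm_num) [1, 3, 0, 2, 0, 1, 3, 1, 2, 1, 2, 3, 2, 3, 2, 3]
    (by decide +kernel)

theorem wr_8_5 : WordRepresentable (circulant 8 5) :=
  wr_check (by norm_num) (by norm_num) [0, 1, 2, 3, 0, 1, 3, 0, 1, 3, 0, 1, 2, 3, 2, 3]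
    (by decide +kernel)

theorem wr_10_6 : WordRepresentable (circulant 10 6) :=
  wr_check (by norm_num) (by norm_num)
    [1, 2, 1, 2, 0, 1, 0, 1, 0, 1, 3, 0, 3, 0, 2, 3, 2, 3, 2, 3] (by decide +kernel)

theorem wr_11_8 : WordRepresentable (circulant 11 8) :=
  wr_check (by norm_num) (by norm_num)
    [0, 1, 2, 3, 0, 2, 0, 1, 2, 3, 0, 1, 3, 0, 1, 2, 0, 1, 2, 3, 2, 3] (by decide +kernel)

theorem wr_12_5 : WordRepresentable (circulant 12 5) :=
  wr_check (by norm_num) (by norm_num)
    [1, 3, 0, 3, 0, 2, 0, 1, 0, 1, 3, 1, 2, 1, 2, 0, 2, 3, 2, 3, 2, 3, 2, 3] (by decide +kernel)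

theorem wr_14_5 : WordRepresentable (circulant 14 5) :=
  wr_check (by norm_num) (by norm_num)
    [1, 3, 1, 3, 0, 2, 0, 2, 0, 1, 0, 1, 3, 1, 2, 1, 2, 1, 2, 3, 2, 3, 2, 3, 2, 3, 2, 3]
    (by decide +kernel)

theorem wr_14_8 : WordRepresentable (circulant 14 8) :=
  wr_check (by norm_num) (by norm_num)
    [1, 2, 1, 2, 1, 2, 0, 1, 0, 1, 0, 1, 0, 1, 3, 0, 3, 0, 3, 0, 2, 3, 2, 3, 2, 3, 2, 3]
    (by decide +kernel)

theorem wr_14_11 : WordRepresentable (circulant 14 11) :=
  wr_check (by norm_num) (by norm_num)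
    [0, 1, 2, 3, 0, 2, 3, 0, 1, 3, 0, 1, 3, 0, 2, 3, 0, 1, 2, 3, 0, 1, 3, 0, 2, 3, 2, 3]
    (by decide +kernel)

theorem wr_20_11 : WordRepresentable (circulant 20 11) :=
  wr_check (by norm_num) (by norm_num)
    [0, 1, 2, 1, 2, 1, 2, 0, 1, 3, 0, 1, 0, 1, 0, 1, 0, 1, 3, 0, 2, 3, 0, 3, 0, 3, 0, 3, 0, 1, 2,
      3, 2, 3, 2, 3, 2, 3, 2, 3] (by decide +kernel)

end Pool.Agent.Q106.Circ
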