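import Mathlib

set_option autoImplicit false

/-! A Hall type lemma for symmetric configurations (points and lines, every point on `p` lines and
every line with `p` points). -/

namespace Q106.Config

open Finset

variable {V L : Type*} [Fintype V] [Fintype L] [DecidableEq V] [DecidableEq L]
  (inc : V → L → Prop) [∀ x l, Decidable (inc x l)] (p k : ℕ)

theorem hall_aux (hp : k + 2 ≤ p)
    (hV : ∀ x, (univ.filter fun l => inc x l).card = p)
    (hL : ∀ l, (univ.filter fun x => inc x l).card = p)
    (H : Finset V) (F : Finset (V × L)) (hF : ∀ q ∈ F, inc q.1 q.2)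
    (h1 : ∀ x, x ∉ H → ∃ l, (x, l) ∈ F)
    (h2 : ∀ x, x ∉ H → ∀ l, inc x l → ∃ y, (y, l) ∈ F)
    (h3 : H.card + F.card ≤ Fintype.card V + k) :
    ∃ f : V → L, Function.Bijective f ∧ ∀ x, inc x (f x) ∧ (x, f x) ∉ F := by
  classical
  -- number of points = number of lines
  have hcard : Fintype.card V = Fintype.card L := by
    have e1 : ∑ x : V, (univ.filter fun l => inc x l).card =
        ∑ l : L, (univ.filter fun x => inc x l).card := by
      simp_rw [card_filter]
      rw [sum_comm]
    simp_rw [hV, hL, sum_const, card_univ, smul_eq_mul] at e1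
    exact Nat.eq_of_mul_eq_mul_right (by omega) e1
  let t : V → Finset L := fun x => univ.filter fun l => inc x l ∧ (x, l) ∉ F
  let d : V → ℕ := fun x => (univ.filter fun l => (x, l) ∈ F).card
  let h : V → ℕ := fun x => if x ∈ H then 1 else 0
  let av : L → ℕ := fun l => (univ.filter fun x => inc x l ∧ (x, l) ∉ F).card
  let LX : Finset L := univ.filter fun l => ∃ y, (y, l) ∈ F
  have ht : ∀ x, (t x).card + d x = p := by
    intro x
    rw [← hV x]
    have : (univ.filter fun l => (x, l) ∈ F) = univ.filter fun l => inc x l ∧ (x, l) ∈ F := by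
      ext l; simp only [mem_filter, mem_univ, true_and]
      exact ⟨fun h => ⟨hF _ h, h⟩, fun h => h.2⟩
    change (univ.filter fun l => inc x l ∧ (x, l) ∉ F).card +
      (univ.filter fun l => (x, l) ∈ F).card = _
    rw [this, ← filter_filter, ← filter_filter, add_comm]
    exact card_filter_add_card_filter_not _
  have hav : ∀ l, av l ≤ p := by
    intro l
    rw [← hL l]
    exact card_le_card (fun x hx => by
      simp only [mem_filter, mem_univ, true_and] at hx ⊢
      exact hx.1)
  have hav' : ∀ l ∈ LX, av l + 1 ≤ p := by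
    intro l hl
    obtain ⟨y, hy⟩ := (mem_filter.mp hl).2
    rw [← hL l, Nat.succ_le_iff]
    apply card_lt_card
    rw [ssubset_iff_of_subset]
    · exact ⟨y, by simpa using hF _ hy, by simp [hy]⟩
    · intro x hx
      simp only [mem_filter, mem_univ, true_and] at hx ⊢
      exact hx.1
  -- excess
  have hdF : ∑ x : V, d x = F.card := by
    have : F.card = ∑ x : V, (F.filter fun q => q.1 = x).card :=
      card_eq_sum_card_fiberwise (fun _ _ => mem_coe.mpr (mem_univ _))
    rw [this]
    apply sum_congr rfl
    intro x _
    apply card_bij (fun l _ => (x, l))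
    · intro l hl
      simpa using hl
    · intro a _ b _ hab
      exact (Prod.mk.inj hab).2
    · rintro ⟨x', l⟩ hq
      rw [mem_filter] at hq
      obtain ⟨hq, rfl⟩ := hq
      exact ⟨l, by simpa using hq, rfl⟩
  have hHs : ∑ x : V, h x = H.card := by
    simp [h]
  have hhd : ∀ x, 1 ≤ h x + d x := by
    intro x
    by_cases hx : x ∈ H
    · simp [h, hx]
    · obtain ⟨l, hl⟩ := h1 x hx
      have : 0 < d x := card_pos.mpr ⟨l, by simpa using hl⟩
      omega
  have hexc : ∀ S : Finset V, ∑ x ∈ S, (h x + d x) ≤ S.card + k := by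
    intro S
    have e1 : ∑ x ∈ S, (h x + d x) + ∑ x ∈ Sᶜ, (h x + d x) = H.card + F.card := by
      rw [sum_add_sum_compl, sum_add_distrib, hdF, hHs]
    have e2 : Sᶜ.card ≤ ∑ x ∈ Sᶜ, (h x + d x) := by
      rw [card_eq_sum_ones]
      exact sum_le_sum fun x _ => hhd x
    have e3 : S.card + Sᶜ.card = Fintype.card V := card_add_card_compl S
    omega
  -- double counting
  have hdc : ∀ S : Finset V, p * S.card ≤ ∑ x ∈ S, d x + ∑ l ∈ S.biUnion t, av l := by
    intro S
    have e1 : ∑ x ∈ S, (t x).card ≤ ∑ l ∈ S.biUnion t, av l := by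
      have e2 : ∀ x ∈ S, (t x).card = ∑ l ∈ S.biUnion t, if l ∈ t x then 1 else 0 := by
        intro x hx
        rw [← card_filter]
        congr 1
        ext l
        exact ⟨fun hl => mem_filter.mpr ⟨mem_biUnion.mpr ⟨x, hx, hl⟩, hl⟩,
          fun hl => (mem_filter.mp hl).2⟩
      rw [sum_congr rfl e2, sum_comm]
      apply sum_le_sum
      intro l _
      rw [← card_filter]
      apply card_le_card
      intro x hx
      have hx2 := (mem_filter.mp hx).2
      simp only [t, mem_filter, mem_univ, true_and] at hx2 ⊢
      exact hx2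
    have e3 : ∑ x ∈ S, ((t x).card + d x) = p * S.card := by
      rw [sum_congr rfl fun x _ => ht x, sum_const, smul_eq_mul, mul_comm]
    rw [sum_add_distrib] at e3
    omega
  have hall : ∀ S : Finset V, S.card ≤ (S.biUnion t).card := by
    intro S
    let S' := S.filter fun x => x ∉ H
    -- lines through `S'`
    have hT' : S'.biUnion t ⊆ LX := by
      intro l hl
      obtain ⟨x, hx, hxl⟩ := mem_biUnion.mp hl
      have hxH : x ∉ H := (mem_filter.mp hx).2
      have hinc : inc x l := (mem_filter.mp hxl).2.1
      simpa [LX] using h2 x hxH l hinc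
    have hT'' : S'.biUnion t ⊆ (S.biUnion t) ∩ LX := by
      intro l hl
      rw [mem_inter]
      exact ⟨biUnion_subset_biUnion_of_subset_left t (filter_subset _ _) hl, hT' hl⟩
    have a1 := hdc S'
    have a2 : ∑ l ∈ S'.biUnion t, av l + (S'.biUnion t).card ≤ p * (S'.biUnion t).card := by
      rw [card_eq_sum_ones, ← sum_add_distrib, mul_sum, mul_one]
      exact sum_le_sum fun l hl => hav' l (hT' hl)
    have a3 : ∑ x ∈ S', d x ≤ S'.card + k := by
      refine le_trans (sum_le_sum fun x _ => ?_) (hexc S')
      omega
    have a4 : S'.card ≤ (S'.biUnion t).card := by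
      by_contra hcon
      have hlt : (S'.biUnion t).card + 1 ≤ S'.card := by omega
      have hb : p * ((S'.biUnion t).card + 1) + S'.card ≤ p * S'.card + ((S'.biUnion t).card + 1) := by
        obtain ⟨m, hm⟩ := Nat.exists_eq_add_of_le hlt
        rw [hm]
        nlinarith
      have : p * ((S'.biUnion t).card + 1) = p * (S'.biUnion t).card + p := by ring
      omega
    have b1 := hdc S
    have b2 : ∑ l ∈ S.biUnion t, av l + ((S.biUnion t) ∩ LX).card ≤ p * (S.biUnion t).card := by
      have : ((S.biUnion t) ∩ LX).card = ∑ l ∈ S.biUnion t, if l ∈ LX then 1 else 0 := by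
        rw [← card_filter, filter_mem_eq_inter]
      rw [this, ← sum_add_distrib, card_eq_sum_ones, mul_sum, mul_one]
      apply sum_le_sum
      intro l _
      by_cases hl : l ∈ LX
      · simpa [hl] using hav' l hl
      · simpa [hl] using hav l
    have b3 : ∑ x ∈ S, d x ≤ S'.card + k := by
      have e1 := hexc S
      rw [sum_add_distrib] at e1
      have e2 : ∑ x ∈ S, h x = (S.filter fun x => x ∈ H).card := by
        simp only [h, card_filter]
      have e3 : (S.filter fun x => x ∈ H).card + S'.card = S.card :=
        card_filter_add_card_filter_not _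
      omega
    have b4 : (S'.biUnion t).card ≤ ((S.biUnion t) ∩ LX).card := card_le_card hT''
    by_contra hcon
    have hlt : (S.biUnion t).card + 1 ≤ S.card := by omega
    have : p * ((S.biUnion t).card + 1) ≤ p * S.card := Nat.mul_le_mul_left p hlt
    have e : p * ((S.biUnion t).card + 1) = p * (S.biUnion t).card + p := by ring
    omega
  obtain ⟨f, hf, hft⟩ := (Finset.all_card_le_biUnion_card_iff_exists_injective t).mp hall
  refine ⟨f, (Fintype.bijective_iff_injective_and_card f).mpr ⟨hf, hcard⟩, fun x => ?_⟩
  have := hft x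
  simpa [t] using this

end Q106.Config
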