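import Mathlib

set_option autoImplicit false

/-! A convenient connectivity criterion for graphs on `Fin (n+1)`. -/

namespace Q106.FinConn

/-- If each vertex other than `0` has a neighbour of smaller index, the graph is connected. -/
theorem connected_of_lt_nbr {n : ℕ} (G : SimpleGraph (Fin (n + 1)))
    (h : ∀ v : Fin (n + 1), v ≠ 0 → ∃ u, u < v ∧ G.Adj v u) : G.Connected := by
  have key : ∀ k : ℕ, ∀ v : Fin (n + 1), v.1 = k → G.Reachable v 0 := by
    intro k
    induction k using Nat.strong_induction_on with
    | _ k ih =>
      intro v hv
      by_cases h0 : v = 0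
      · rw [h0]
      · obtain ⟨u, hu, hadj⟩ := h v h0
        exact hadj.reachable.trans (ih u.1 (by rw [← hv]; exact hu) u rfl)
  refine SimpleGraph.Connected.mk ?_
  intro u v
  exact (key _ u rfl).trans (key _ v rfl).symm

end Q106.FinConn
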