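import Mathlib

/-!
Hypo-unique-domination graphs: definitions and criteria.
-/

set_option autoImplicit false

namespace Q106.HypoUD

/-- `D` is a dominating set of `G`. -/
def IsDom {V : Type} (G : SimpleGraph V) (D : Finset V) : Prop :=
  ∀ v, v ∈ D ∨ ∃ u ∈ D, G.Adj v u

/-- `D` is a `γ`-set of `G`: a dominating set of minimum size. -/
def IsGammaSet {V : Type} (G : SimpleGraph V) (D : Finset V) : Prop :=
  IsDom G D ∧ ∀ D' : Finset V, IsDom G D' → D.card ≤ D'.card

/-- The graph `G - v`. -/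
def del {V : Type} (G : SimpleGraph V) (v : V) : SimpleGraph {w : V // w ≠ v} :=
  G.comap Subtype.val

/-- `G` is a hypo-unique-domination graph: it has at least two `γ`-sets, and each `G - v` has
exactly one `γ`-set. -/
def IsHypoUD {V : Type} (G : SimpleGraph V) : Prop :=
  (∃ D D' : Finset V, D ≠ D' ∧ IsGammaSet G D ∧ IsGammaSet G D') ∧
    ∀ v : V, ∃! D : Finset {w : V // w ≠ v}, IsGammaSet (del G v) D

/-- Criterion for a unique `γ`-set in `G - v`. -/
theorem unique_gammaSet {V : Type} [DecidableEq V] (G : SimpleGraph V) (v : V) (E : Finset V)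
    (hv : v ∉ E) (hE : ∀ w, w ≠ v → w ∈ E ∨ ∃ u ∈ E, G.Adj w u)
    (hu : ∀ D : Finset V, v ∉ D → (∀ w, w ≠ v → w ∈ D ∨ ∃ u ∈ D, G.Adj w u) →
      D.card ≤ E.card → D = E) :
    ∃! D : Finset {w : V // w ≠ v}, IsGammaSet (del G v) D := by
  have lift : ∀ D : Finset {w : V // w ≠ v}, IsDom (del G v) D →
      ∀ w, w ≠ v → w ∈ D.map (Function.Embedding.subtype _) ∨
        ∃ u ∈ D.map (Function.Embedding.subtype _), G.Adj w u := by
    intro D hD w hw
    rcases hD ⟨w, hw⟩ with h | ⟨u, hu1, hu2⟩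
    · left; exact Finset.mem_map.2 ⟨⟨w, hw⟩, h, rfl⟩
    · right; exact ⟨u.1, Finset.mem_map.2 ⟨u, hu1, rfl⟩, hu2⟩
  have hnot : ∀ D : Finset {w : V // w ≠ v}, v ∉ D.map (Function.Embedding.subtype _) := by
    intro D h
    rw [Finset.mem_map] at h
    obtain ⟨x, _, hx⟩ := h
    exact x.2 hx
  have hEsub : (E.subtype (fun w => w ≠ v)).map (Function.Embedding.subtype _) = E := by
    rw [Finset.subtype_map]
    apply Finset.filter_true_of_mem
    intro x hx hxv
    exact hv (hxv ▸ hx)
  have hEdom : IsDom (del G v) (E.subtype (fun w => w ≠ v)) := by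
    intro w
    rcases hE w.1 w.2 with h | ⟨u, hu1, hu2⟩
    · left; rw [Finset.mem_subtype]; exact h
    · right
      exact ⟨⟨u, fun e => hv (e ▸ hu1)⟩, by rw [Finset.mem_subtype]; exact hu1, hu2⟩
  have hcard : (E.subtype (fun w => w ≠ v)).card = E.card := by
    rw [← Finset.card_map (Function.Embedding.subtype (fun w => w ≠ v)), hEsub]
  refine ⟨E.subtype (fun w => w ≠ v), ⟨hEdom, fun D' hD' => ?_⟩, ?_⟩
  · by_contra hlt
    rw [not_le, hcard] at hlt
    have h1 := hu _ (hnot D') (lift D' hD') (by rw [Finset.card_map]; omega)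
    have h2 := congrArg Finset.card h1
    rw [Finset.card_map] at h2
    omega
  · intro D hD
    have h1 := hu _ (hnot D) (lift D hD.1) (by
      rw [Finset.card_map, ← hcard]; exact hD.2 _ hEdom)
    apply Finset.map_injective (Function.Embedding.subtype (fun w => w ≠ v))
    rw [h1, hEsub]

/-- A nonempty finite set with at most four elements is `{a, b, c, d}` for some elements. -/
theorem exists_four {V : Type} [DecidableEq V] (D : Finset V) (h0 : D.Nonempty)
    (h : D.card ≤ 4) : ∃ a b c d : V, D = {a, b, c, d} := by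
  have hl : D.toList.length ≤ 4 := by rw [Finset.length_toList]; exact h
  have hD : D = D.toList.toFinset := by rw [Finset.toList_toFinset]
  rcases hcase : D.toList with _ | ⟨a, _ | ⟨b, _ | ⟨c, _ | ⟨d, _ | ⟨e, t⟩⟩⟩⟩⟩
  · rw [hcase] at hD
    exact absurd hD (Finset.nonempty_iff_ne_empty.1 h0)
  · rw [hcase] at hD; exact ⟨a, a, a, a, by rw [hD]; simp⟩
  · rw [hcase] at hD; exact ⟨a, b, b, b, by rw [hD]; simp⟩
  · rw [hcase] at hD; exact ⟨a, b, c, c, by rw [hD]; simp⟩
  · rw [hcase] at hD; exact ⟨a, b, c, d, by rw [hD]; simp⟩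
  · rw [hcase] at hl; simp only [List.length_cons] at hl; omega

end Q106.HypoUD
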