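import Mathlib

/-!
# Alternation through counting functions, and the cyclic order of triangles

For a word `w` and a letter `x` let `cnt w x t` be the number of occurrences of `x` among the first `t`
letters. Two letters `x ≠ y` alternate in `w` if and only if `cnt w y ≤ cnt w x ≤ cnt w y + 1` or
`cnt w x ≤ cnt w y ≤ cnt w x + 1`.
-/

set_option autoImplicit false

namespace Pool.Agent.Q106.LineWR

open List

section Count

variable {V : Type*} [DecidableEq V]

/-- the number of occurrences of `x` among the first `t` letters of `w` -/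
def cnt (w : List V) (x : V) (t : ℕ) : ℤ := ((w.take t).count x : ℕ)

theorem cnt_zero (w : List V) (x : V) : cnt w x 0 = 0 := by simp [cnt]

theorem cnt_nil (x : V) (t : ℕ) : cnt ([] : List V) x t = 0 := by simp [cnt]

theorem cnt_cons (z : V) (w : List V) (x : V) (t : ℕ) :
    cnt (z :: w) x (t + 1) = cnt w x t + (if z = x then 1 else 0) := by
  unfold cnt
  rw [List.take_succ_cons, List.count_cons]
  by_cases h : z = x
  · simp [h]
  · simp [h]

end Count

section Abstract

variable {V : Type*} (c : V → ℕ → ℤ)

def Lead (x y : V) : Prop := ∀ t, c y t ≤ c x t ∧ c x t ≤ c y t + 1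

def Near (x y : V) : Prop := Lead c x y ∨ Lead c y x

def Cyc (x y z : V) : Prop :=
  ∃ a b : ℤ, ∀ t, c y t + a ≤ c x t ∧ c z t + b ≤ c y t + a ∧ c x t ≤ c z t + b + 1

end Abstract

section Count2

variable {V : Type*} [DecidableEq V]

theorem lead_iff {x y : V} (hxy : x ≠ y) (w : List V) :
    ((w.filter (fun z => z = x ∨ z = y)).IsChain (· ≠ ·) ∧
      ∀ h ∈ (w.filter (fun z => z = x ∨ z = y)).head?, h = x) ↔ Lead (cnt w) x y := by
  induction w generalizing x y with
  | nil => simp [Lead, cnt_nil]
  | cons z w ih =>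
    by_cases hx : z = x
    · subst hx
      have h1 : (z :: w).filter (fun u => decide (u = z ∨ u = y)) =
          z :: w.filter (fun u => decide (u = z ∨ u = y)) := by
        simp
      have h2 : (w.filter (fun u => decide (u = z ∨ u = y))) =
          (w.filter (fun u => decide (u = y ∨ u = z))) := by
        congr 1; funext u; simp [or_comm]
      rw [h1, h2]
      have ih' := ih (x := y) (y := z) (Ne.symm hxy)
      have h3 : ((z :: w.filter (fun u => decide (u = y ∨ u = z))).IsChain (· ≠ ·) ∧
          ∀ h ∈ (z :: w.filter (fun u => decide (u = y ∨ u = z))).head?, h = z) ↔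
          ((w.filter (fun u => decide (u = y ∨ u = z))).IsChain (· ≠ ·) ∧
          ∀ h ∈ (w.filter (fun u => decide (u = y ∨ u = z))).head?, h = y) := by
        rw [List.isChain_cons]
        constructor
        · rintro ⟨⟨ha, hb⟩, -⟩
          refine ⟨hb, fun h hh => ?_⟩
          have hm : h ∈ w.filter (fun u => decide (u = y ∨ u = z)) := List.mem_of_mem_head? hh
          have hne := ha h hh
          simp only [mem_filter, decide_eq_true_eq] at hm
          rcases hm.2 with h5 | h5
          · exact h5
          · exact absurd h5.symm hne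
        · rintro ⟨ha, hb⟩
          refine ⟨⟨fun h hh => ?_, ha⟩, fun h hh => ?_⟩
          · rw [hb h hh]; exact hxy
          · simpa using hh.symm
      rw [h3, ih']
      unfold Lead
      constructor
      · intro h t
        cases t with
        | zero => simp [cnt_zero]
        | succ t =>
          rw [cnt_cons, cnt_cons, if_pos rfl, if_neg hxy]
          have := h t
          constructor <;> omega
      · intro h t
        have := h (t + 1)
        rw [cnt_cons, cnt_cons, if_pos rfl, if_neg hxy] at this
        constructor <;> omega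
    · by_cases hy : z = y
      · subst hy
        have h1 : (z :: w).filter (fun u => decide (u = x ∨ u = z)) =
            z :: w.filter (fun u => decide (u = x ∨ u = z)) := by
          simp
        rw [h1]
        constructor
        · rintro ⟨-, h⟩
          exact absurd (h z (by simp)) hx
        · intro h
          exfalso
          have := h 1
          rw [cnt_cons, cnt_cons, if_pos rfl, if_neg hx, cnt_zero, cnt_zero] at this
          omega
      · have h1 : (z :: w).filter (fun u => decide (u = x ∨ u = y)) =
            w.filter (fun u => decide (u = x ∨ u = y)) := by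
          simp [hx, hy]
        rw [h1, ih hxy]
        unfold Lead
        constructor
        · intro h t
          cases t with
          | zero => simp [cnt_zero]
          | succ t =>
            rw [cnt_cons, cnt_cons, if_neg hx, if_neg hy]
            have := h t
            constructor <;> omega
        · intro h t
          have := h (t + 1)
          rw [cnt_cons, cnt_cons, if_neg hx, if_neg hy] at this
          constructor <;> omega

/-- distinct letters alternate iff their counting functions are near each other -/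
theorem chain_iff_near {x y : V} (hxy : x ≠ y) (w : List V) :
    (w.filter (fun z => z = x ∨ z = y)).IsChain (· ≠ ·) ↔ Near (cnt w) x y := by
  have h2 : (w.filter (fun u => decide (u = y ∨ u = x))) =
      (w.filter (fun u => decide (u = x ∨ u = y))) := by
    congr 1; funext u; simp [or_comm]
  have hl1 := lead_iff hxy w
  have hl2 := lead_iff (Ne.symm hxy) w
  rw [h2] at hl2
  unfold Near
  rw [← hl1, ← hl2]
  constructor
  · intro h
    rcases hh : (w.filter (fun z => decide (z = x ∨ z = y))).head? with _ | a
    · left; exact ⟨h, by simp⟩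
    · have hm : a ∈ w.filter (fun u => decide (u = x ∨ u = y)) := List.mem_of_mem_head? hh
      simp only [mem_filter, decide_eq_true_eq] at hm
      rcases hm.2 with h5 | h5
      · left; exact ⟨h, by simp [h5]⟩
      · right; exact ⟨h, by simp [h5]⟩
  · rintro (h | h) <;> exact h.1

theorem not_const {x y : V} (hxy : x ≠ y) {w : List V} (hx : x ∈ w) :
    ¬ ∃ k : ℤ, ∀ t, cnt w x t = cnt w y t + k := by
  rintro ⟨k, hk⟩
  have hk0 := hk 0
  rw [cnt_zero, cnt_zero] at hk0
  obtain rfl : k = 0 := by omega
  clear hk0
  induction w with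
  | nil => simp at hx
  | cons z w ih =>
    have h1 := hk 1
    rw [cnt_cons, cnt_cons, cnt_zero, cnt_zero] at h1
    by_cases hzx : z = x
    · rw [if_pos hzx, if_neg (by rw [hzx]; exact hxy)] at h1
      omega
    · rw [if_neg hzx] at h1
      have hzy : ¬ z = y := by
        intro h
        rw [if_pos h] at h1
        omega
      apply ih (by
        rcases List.mem_cons.1 hx with h | h
        · exact absurd h.symm hzx
        · exact h)
      intro t
      have := hk (t + 1)
      rw [cnt_cons, cnt_cons, if_neg hzx, if_neg hzy] at this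
      omega

end Count2

section Abstract2

variable {V : Type*} {c : V → ℕ → ℤ}

theorem Near.symm {x y : V} (h : Near c x y) : Near c y x := Or.symm h

theorem near_of_offset (h0 : ∀ x, c x 0 = 0) {x y : V} {k : ℤ}
    (h : ∀ t, c y t + k ≤ c x t ∧ c x t ≤ c y t + k + 1) : Near c x y := by
  have h1 := h 0
  rw [h0, h0] at h1
  have hk : k = 0 ∨ k = -1 := by omega
  rcases hk with rfl | rfl
  · left; intro t; have := h t; constructor <;> omega
  · right; intro t; have := h t; constructor <;> omega

theorem Near.offset {x y : V} (h : Near c x y) :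
    ∃ k : ℤ, (k = 0 ∨ k = -1) ∧ ∀ t, c y t + k ≤ c x t ∧ c x t ≤ c y t + k + 1 := by
  rcases h with h | h
  · exact ⟨0, Or.inl rfl, fun t => by have := h t; constructor <;> omega⟩
  · exact ⟨-1, Or.inr rfl, fun t => by have := h t; constructor <;> omega⟩

theorem offset_unique (h0 : ∀ x, c x 0 = 0) (hc : ∀ x y, x ≠ y → ¬ ∃ k : ℤ, ∀ t, c x t = c y t + k)
    {x y : V} (hxy : x ≠ y) {a b : ℤ}
    (ha : ∀ t, c y t + a ≤ c x t ∧ c x t ≤ c y t + a + 1)
    (hb : ∀ t, c y t + b ≤ c x t ∧ c x t ≤ c y t + b + 1) : a = b := by
  by_contra hab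
  have h1 := ha 0
  have h2 := hb 0
  rw [h0, h0] at h1 h2
  have : (a = 0 ∧ b = -1) ∨ (a = -1 ∧ b = 0) := by omega
  apply hc x y hxy
  refine ⟨0, fun t => ?_⟩
  have h3 := ha t
  have h4 := hb t
  rcases this with ⟨rfl, rfl⟩ | ⟨rfl, rfl⟩ <;> omega

theorem Cyc.rot {x y z : V} (h : Cyc c x y z) : Cyc c y z x := by
  obtain ⟨a, b, h⟩ := h
  refine ⟨b - a, -1 - a, fun t => ?_⟩
  have := h t
  refine ⟨?_, ?_, ?_⟩ <;> omega

theorem cyc_or (hc : ∀ x y, x ≠ y → ¬ ∃ k : ℤ, ∀ t, c x t = c y t + k) {x y z : V}
    (hxy : x ≠ y) (hxz : x ≠ z) (h1 : Near c x y) (h2 : Near c y z) (h3 : Near c x z) :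
    Cyc c x y z ∨ Cyc c x z y := by
  obtain ⟨a, ha, h1⟩ := h1.offset
  obtain ⟨k, hk, h2⟩ := h2.offset
  obtain ⟨b, hb, h3⟩ := h3.offset
  have hm : k + a - b = 0 ∨ k + a - b = -1 ∨ k + a - b = 1 ∨ k + a - b = -2 := by omega
  rcases hm with hm | hm | hm | hm
  · left
    refine ⟨a, b, fun t => ?_⟩
    have e1 := h1 t; have e2 := h2 t; have e3 := h3 t
    refine ⟨?_, ?_, ?_⟩ <;> omega
  · right
    refine ⟨b, a, fun t => ?_⟩
    have e1 := h1 t; have e2 := h2 t; have e3 := h3 t
    refine ⟨?_, ?_, ?_⟩ <;> omega
  · exfalso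
    apply hc x y hxy
    refine ⟨a, fun t => ?_⟩
    have e1 := h1 t; have e2 := h2 t; have e3 := h3 t
    omega
  · exfalso
    apply hc x z hxz
    refine ⟨b, fun t => ?_⟩
    have e1 := h1 t; have e2 := h2 t; have e3 := h3 t
    omega

/-- in a diamond (an edge `b d'` with two common neighbours `a`, `d` which are not adjacent) the two
triangles have the same cyclic orientation -/
theorem diamond (h0 : ∀ x, c x 0 = 0) (hc : ∀ x y, x ≠ y → ¬ ∃ k : ℤ, ∀ t, c x t = c y t + k)
    {x y a d : V} (hxy : x ≠ y) (hxd : x ≠ d) (n1 : Near c x y) (n2 : Near c x d) (n3 : Near c y d)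
    (nad : ¬ Near c a d) (h : Cyc c x y a) : Cyc c x y d := by
  rcases cyc_or hc hxy hxd n1 n3 n2 with h' | h'
  · exact h'
  · exfalso
    obtain ⟨α, β, h1⟩ := h
    obtain ⟨γ, δ, h2⟩ := h'
    have hu : α = δ := by
      apply offset_unique h0 hc hxy
      · intro t; have := h1 t; constructor <;> omega
      · intro t; have := h2 t; constructor <;> omega
    subst hu
    apply nad
    apply Near.symm
    apply near_of_offset h0 (k := β - γ)
    intro t
    have e1 := h1 t
    have e2 := h2 t
    constructor <;> omega

/-- The combinatorial core: the line graph of a wheel with at least four spokes has no word. First the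
case of one of the two cyclic orientations. -/
theorem core1 (h0 : ∀ x, c x 0 = 0) (hc : ∀ x y, x ≠ y → ¬ ∃ k : ℤ, ∀ t, c x t = c y t + k)
    {n : ℕ} (hn : 4 ≤ n) (s r : ZMod n → V) (hs : Function.Injective s)
    (hsr : ∀ i j, s i ≠ r j) (nss : ∀ i j, i ≠ j → Near c (s i) (s j))
    (nsr : ∀ i, Near c (s i) (r i)) (nsr' : ∀ i, Near c (s (i + 1)) (r i))
    (nrr : ∀ i, Near c (r i) (r (i + 1)))
    (nn1 : ∀ i j, j ≠ i → j ≠ i + 1 → ¬ Near c (s j) (r i)) (nn2 : ¬ Near c (r 0) (r 2))
    (h : Cyc c (s 0) (s 1) (s 2)) : False := by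
  have : NeZero n := ⟨by omega⟩
  have nz : ∀ m : ℕ, 0 < m → m < n → (m : ZMod n) ≠ 0 := by
    intro m hm1 hm2 h
    rw [ZMod.natCast_eq_zero_iff] at h
    exact absurd (Nat.le_of_dvd hm1 h) (by omega)
  have z1 : (1 : ZMod n) ≠ 0 := by have := nz 1 (by omega) (by omega); simpa using this
  have z2 : (2 : ZMod n) ≠ 0 := by have := nz 2 (by omega) (by omega); simpa using this
  have z3 : (3 : ZMod n) ≠ 0 := by have := nz 3 (by omega) (by omega); simpa using this
  -- Step A
  have hA1 : ∀ i : ZMod n, Cyc c (s i) (s (i + 1)) (s (i + 2)) →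
      Cyc c (s (i + 1)) (s (i + 2)) (r (i + 1)) := by
    intro i hi
    have e1 : i + 1 + 1 = i + 2 := by ring
    have e2 : i + 1 ≠ i + 2 := fun h => z1 (by linear_combination -h)
    have e3 : i ≠ i + 1 := fun h => z1 (by linear_combination -h)
    have e4 : i ≠ i + 1 + 1 := fun h => z2 (by linear_combination -h)
    exact diamond h0 hc (a := s i) (hs.ne e2) (hsr _ _) (nss _ _ e2) (nsr _)
      (by rw [← e1]; exact nsr' _) (nn1 _ _ e3 e4) hi.rot
  have hA2 : ∀ i j : ZMod n, j ≠ i → j ≠ i + 1 → Cyc c (s i) (s (i + 1)) (r i) →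
      Cyc c (s i) (s (i + 1)) (s j) := by
    intro i j h1 h2 hi
    have e3 : i ≠ i + 1 := fun h => z1 (by linear_combination -h)
    exact diamond h0 hc (a := r i) (hs.ne e3) (hs.ne (Ne.symm h1)) (nss _ _ e3)
      (nss _ _ (Ne.symm h1)) (nss _ _ (Ne.symm h2)) (fun h => nn1 _ _ h1 h2 h.symm) hi
  have hA3 : ∀ k : ℕ, Cyc c (s (k : ZMod n)) (s (k + 1)) (s (k + 2)) := by
    intro k
    induction k with
    | zero => simpa using h
    | succ k ih =>
      have h1 := hA1 _ ih
      have e1 : (k : ZMod n) + 1 + 1 = k + 2 := by ring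
      have h2 := hA2 (k + 1) (k + 3) (fun h => z2 (by linear_combination h))
        (fun h => z1 (by linear_combination h)) (by rw [e1]; exact h1)
      push_cast
      rw [show (k : ZMod n) + 1 + 2 = k + 3 by ring]
      exact h2
  have hA : ∀ i : ZMod n, Cyc c (s i) (s (i + 1)) (r i) := by
    intro i
    have h1 := hA1 _ (hA3 (i - 1).val)
    rw [ZMod.natCast_zmod_val] at h1
    rw [show i - 1 + 1 = i by ring, show i - 1 + 2 = i + 1 by ring] at h1
    exact h1
  -- Step B
  have hB : ∀ i : ZMod n, Cyc c (s (i + 1)) (r i) (r (i + 1)) := by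
    intro i
    apply diamond h0 hc (a := s i) (hsr _ _) (hsr _ _) (nsr' _) (nsr _) (nrr _) (nn1 _ _ ?_ ?_)
      (hA i).rot
    · intro h; apply z1; linear_combination -h
    · intro h; apply z2; linear_combination -h
  -- Step C
  choose α β hαβ using hA
  let A : ℕ → ℤ := fun k => ∑ j ∈ Finset.range k, α j
  have hA0 : A 0 = 0 := by simp [A]
  have hAs : ∀ k, A (k + 1) = A k + α k := fun k => by simp [A, Finset.sum_range_succ]
  have u1 : ∀ (k : ℕ) t, c (s (k + 1)) t + A (k + 1) ≤ c (s k) t + A k := by
    intro k t; have := hαβ k t; rw [hAs]; omega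
  have u2 : ∀ (k : ℕ) t, c (r k) t + β k + A k ≤ c (s (k + 1)) t + A (k + 1) := by
    intro k t; have := hαβ k t; rw [hAs]; omega
  have u3 : ∀ (k : ℕ) t, c (s k) t + A k ≤ c (r k) t + β k + A k + 1 := by
    intro k t; have := hαβ k t; omega
  -- Step D
  have hD : ∀ (k : ℕ) t, c (r (k + 1)) t + β (k + 1) + A (k + 1) ≤ c (r k) t + β k + A k := by
    intro k
    obtain ⟨a, b, hab⟩ := hB k
    have ea : a = β k - α k := by
      apply offset_unique h0 hc (hsr (k + 1) k)
      · intro t; have := hab t; constructor <;> omega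
      · intro t; have := hαβ k t; constructor <;> omega
    have eb : b = β (k + 1) := by
      apply offset_unique h0 hc (hsr (k + 1) (k + 1))
      · intro t; have := hab t; constructor <;> omega
      · intro t; have := hαβ (k + 1) t; constructor <;> omega
    intro t
    have := hab t
    rw [hAs]
    omega
  -- Step E
  have hE : ∀ k : ℕ, 1 ≤ k → k + 1 ≤ n → ∀ t, c (s 0) t - 1 ≤ c (s k) t + A k ∧
      c (s k) t + A k ≤ c (s 0) t := by
    intro k hk
    induction k, hk using Nat.le_induction with
    | base =>
      intro _ t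
      have e1 := u1 0 t
      have e2 := u2 0 t
      have e3 := u3 0 t
      simp only [Nat.cast_zero, zero_add, hA0, Nat.cast_one] at e1 e2 e3 ⊢
      constructor <;> omega
    | succ k hk ih =>
      intro hkn
      have ih := ih (by omega)
      have hk0 : (k : ZMod n) ≠ 0 := nz k (by omega) (by omega)
      have hk1 : (k : ZMod n) + 1 ≠ 0 := by
        have := nz (k + 1) (by omega) (by omega); simpa using this
      obtain ⟨a, b, hab⟩ := hA2 k 0 (Ne.symm hk0) (Ne.symm hk1) ⟨α k, β k, hαβ k⟩
      have ea : a = α k := by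
        apply offset_unique h0 hc (x := s k) (y := s (k + 1))
          (fun h => z1 (by have := hs h; linear_combination -this))
        · intro t; have := hab t; constructor <;> omega
        · intro t; have := hαβ k t; constructor <;> omega
      have eb : b = - A k - 1 := by
        apply offset_unique h0 hc (x := s k) (y := s 0) (fun h => hk0 (hs h))
        · intro t; have := hab t; constructor <;> omega
        · intro t; have := ih t; constructor <;> omega
      intro t
      have e1 := hab t
      have e2 := u1 k t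
      have e3 := ih t
      push_cast
      constructor
      · rw [hAs]; omega
      · omega
  -- Step F
  have hn1 : ((n - 1 : ℕ) : ZMod n) + 1 = 0 := by
    have : ((n - 1 : ℕ) : ZMod n) + 1 = ((n - 1 + 1 : ℕ) : ZMod n) := by push_cast; ring
    rw [this, Nat.sub_add_cancel (by omega)]
    simp
  have hAn : A n = -1 := by
    have e := hE (n - 1) (by omega) (by omega)
    have f1 := u1 (n - 1)
    have f2 := u2 (n - 1)
    have f3 := u3 (n - 1)
    rw [hn1, Nat.sub_add_cancel (by omega)] at f1 f2
    apply offset_unique h0 hc (x := s ((n - 1 : ℕ) : ZMod n)) (y := s 0) (a := A n - A (n - 1))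
      (b := -1 - A (n - 1)) ?_ ?_ ?_ |> fun h => by omega
    · intro h
      have := hs h
      rw [this] at hn1
      apply z1
      linear_combination hn1
    · intro t
      have := f1 t; have := f2 t; have := f3 t
      constructor <;> omega
    · intro t
      have := e t
      constructor <;> omega
  -- Step G, H
  have mono : ∀ (k m : ℕ) t, c (r ((k + m : ℕ) : ZMod n)) t + β ((k + m : ℕ) : ZMod n) + A (k + m) ≤
      c (r k) t + β k + A k := by
    intro k m t
    induction m with
    | zero => simp
    | succ m ih =>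
      have := hD (k + m) t
      rw [← add_assoc]
      push_cast at ih this ⊢
      omega
  have g1 := mono 0 2
  have g2 := mono 2 (n - 2)
  rw [show 2 + (n - 2) = n by omega] at g2
  simp only [zero_add, Nat.cast_zero, hA0, CharP.cast_eq_zero, hAn, Nat.cast_ofNat] at g1 g2
  apply nn2
  apply near_of_offset h0 (k := β 2 + A 2 - β 0)
  intro t
  have := g1 t
  have := g2 t
  constructor <;> omega

/-- the core in both orientations -/
theorem core (h0 : ∀ x, c x 0 = 0) (hc : ∀ x y, x ≠ y → ¬ ∃ k : ℤ, ∀ t, c x t = c y t + k)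
    {n : ℕ} (hn : 4 ≤ n) (s r : ZMod n → V) (hs : Function.Injective s)
    (hsr : ∀ i j, s i ≠ r j) (nss : ∀ i j, i ≠ j → Near c (s i) (s j))
    (nsr : ∀ i, Near c (s i) (r i)) (nsr' : ∀ i, Near c (s (i + 1)) (r i))
    (nrr : ∀ i, Near c (r i) (r (i + 1)))
    (nn1 : ∀ i j, j ≠ i → j ≠ i + 1 → ¬ Near c (s j) (r i))
    (nn2 : ∀ i, ¬ Near c (r i) (r (i + 2))) : False := by
  have : NeZero n := ⟨by omega⟩
  have nz : ∀ m : ℕ, 0 < m → m < n → (m : ZMod n) ≠ 0 := by
    intro m hm1 hm2 h
    rw [ZMod.natCast_eq_zero_iff] at h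
    exact absurd (Nat.le_of_dvd hm1 h) (by omega)
  have z1 : (1 : ZMod n) ≠ 0 := by have := nz 1 (by omega) (by omega); simpa using this
  have z2 : (2 : ZMod n) ≠ 0 := by have := nz 2 (by omega) (by omega); simpa using this
  have d01 : (0 : ZMod n) ≠ 1 := Ne.symm z1
  have d02 : (0 : ZMod n) ≠ 2 := Ne.symm z2
  have d12 : (1 : ZMod n) ≠ 2 := fun h => z1 (by linear_combination -h)
  rcases cyc_or hc (fun h => d01 (hs h)) (fun h => d02 (hs h)) (nss 0 1 d01) (nss 1 2 d12)
    (nss 0 2 d02) with h | h
  · refine core1 h0 hc hn s r hs hsr nss nsr nsr' nrr nn1 ?_ h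
    have := nn2 0
    rwa [zero_add] at this
  · refine core1 h0 hc hn (fun i => s (2 - i)) (fun i => r (1 - i)) ?_ (fun i j => hsr _ _) ?_ ?_ ?_
      ?_ ?_ ?_ ?_
    · intro i j hij
      have := hs hij
      linear_combination -this
    · intro i j hij
      apply nss
      intro h; apply hij; linear_combination -h
    · intro i
      have := nsr' (1 - i)
      rw [show (1 : ZMod n) - i + 1 = 2 - i by ring] at this
      exact this
    · intro i
      have := nsr (1 - i)
      rw [show (2 : ZMod n) - (i + 1) = 1 - i by ring]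
      exact this
    · intro i
      have := nrr (1 - (i + 1))
      rw [show (1 : ZMod n) - (i + 1) + 1 = 1 - i by ring] at this
      exact this.symm
    · intro i j h1 h2
      apply nn1
      · intro h; apply h2; linear_combination -h
      · intro h; apply h1; linear_combination -h
    · have := nn2 (-1)
      rw [show (1 : ZMod n) - 0 = -1 + 2 by ring, show (1 : ZMod n) - 2 = -1 by ring]
      exact fun h => this h.symm
    · rw [sub_zero, show (2 : ZMod n) - 1 = 1 by ring, sub_self]
      exact h.rot

end Abstract2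

end Pool.Agent.Q106.LineWR
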