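import Mathlib

set_option autoImplicit false

/-!
# Minimal dominating sets: the reconfiguration graph has a cycle of length at most five

All notions are relative to a set `S` of vertices (they refer to the subgraph induced by `S`).
-/

namespace Q106.Reconf

variable {V : Type*} (G : SimpleGraph V)

/-- Independent set. -/
def Ind (M : Set V) : Prop := ∀ x ∈ M, ∀ y ∈ M, ¬ G.Adj x y

/-- `M` dominates `S`. -/
def Dom (S M : Set V) : Prop := ∀ x ∈ S, x ∈ M ∨ ∃ m ∈ M, G.Adj m x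

/-- `M` is a minimal dominating set of `G[S]`. -/
def MD (S M : Set V) : Prop :=
  M ⊆ S ∧ Dom G S M ∧ ∀ m ∈ M, ∃ p ∈ S, (p = m ∨ G.Adj m p) ∧ ∀ m' ∈ M, m' ≠ m → p ≠ m' ∧ ¬ G.Adj m' p

/-- `M` arises from `N` by replacing neighbours of `v` by `v`. -/
def RA (M N : Set V) : Prop :=
  ∃ v, v ∈ M ∧ v ∉ N ∧ (∀ x ∈ M, x = v ∨ x ∈ N) ∧ (∀ x ∈ N, x ∈ M ∨ G.Adj v x)

/-- Adjacency in the reconfiguration graph. -/
def Rel (M N : Set V) : Prop := RA G M N ∨ RA G N M

theorem Rel.symm {M N : Set V} (h : Rel G M N) : Rel G N M := Or.symm h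

/-- Star-like: no triangle and no two disjoint edges. -/
def SL (S : Set V) : Prop :=
  (∀ a ∈ S, ∀ b ∈ S, ∀ c ∈ S, ∀ d ∈ S, G.Adj a b → G.Adj c d → a = c ∨ a = d ∨ b = c ∨ b = d) ∧
  (∀ a ∈ S, ∀ b ∈ S, ∀ c ∈ S, G.Adj a b → G.Adj b c → G.Adj a c → False)

/-- There is a closed walk of length 3, a nondegenerate closed walk of length 4, or a closed walk of
length 5 in the reconfiguration graph of `G[S]`. -/
def SC (S : Set V) : Prop :=
  (∃ A B C, MD G S A ∧ MD G S B ∧ MD G S C ∧ Rel G A B ∧ Rel G B C ∧ Rel G C A) ∨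
  (∃ A B C D, MD G S A ∧ MD G S B ∧ MD G S C ∧ MD G S D ∧ Rel G A B ∧ Rel G B C ∧ Rel G C D ∧
    Rel G D A ∧ A ≠ C ∧ B ≠ D) ∨
  (∃ A B C D E, MD G S A ∧ MD G S B ∧ MD G S C ∧ MD G S D ∧ MD G S E ∧ Rel G A B ∧ Rel G B C ∧
    Rel G C D ∧ Rel G D E ∧ Rel G E A)

/-- The nonneighbours of `a` in `S`. -/
def Non (S : Set V) (a : V) : Set V := {x | x ∈ S ∧ x ≠ a ∧ ¬ G.Adj a x}

variable {G}

theorem md_of_ind {S M : Set V} (h1 : M ⊆ S) (h2 : Ind G M) (h3 : Dom G S M) : MD G S M := by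
  refine ⟨h1, h3, fun m hm => ⟨m, h1 hm, Or.inl rfl, fun m' hm' hne => ⟨hne.symm, h2 m' hm' m hm⟩⟩⟩

theorem md_insert {S M : Set V} {a : V} (ha : a ∈ S) (h : MD G (Non G S a) M) :
    MD G S (insert a M) := by
  obtain ⟨h1, h2, h3⟩ := h
  have hM : ∀ m ∈ M, m ∈ S ∧ m ≠ a ∧ ¬ G.Adj a m := fun m hm => h1 hm
  refine ⟨?_, ?_, ?_⟩
  · intro x hx
    rcases hx with rfl | hx
    · exact ha
    · exact (hM x hx).1
  · intro x hx
    by_cases hxa : x = a
    · exact Or.inl (Or.inl hxa)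
    by_cases hadj : G.Adj a x
    · exact Or.inr ⟨a, Or.inl rfl, hadj⟩
    rcases h2 x ⟨hx, hxa, hadj⟩ with h | ⟨m, hm, hm'⟩
    · exact Or.inl (Or.inr h)
    · exact Or.inr ⟨m, Or.inr hm, hm'⟩
  · intro m hm
    rcases hm with rfl | hm
    · refine ⟨m, ha, Or.inl rfl, ?_⟩
      intro m' hm' hne
      rcases hm' with rfl | hm'
      · exact absurd rfl hne
      · exact ⟨hne.symm, fun h => (hM m' hm').2.2 h.symm⟩
    · obtain ⟨p, hp, hp2, hp3⟩ := h3 m hm
      refine ⟨p, hp.1, hp2, ?_⟩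
      intro m' hm' hne
      rcases hm' with rfl | hm'
      · exact ⟨hp.2.1, hp.2.2⟩
      · exact hp3 m' hm' hne

theorem ra_insert {M N : Set V} {a : V} (hM : a ∉ M) (hN : a ∉ N) (h : RA G M N) :
    RA G (insert a M) (insert a N) := by
  obtain ⟨v, h1, h2, h3, h4⟩ := h
  refine ⟨v, Or.inr h1, ?_, ?_, ?_⟩
  · rintro (rfl | h)
    · exact hM h1
    · exact h2 h
  · rintro x (rfl | hx)
    · exact Or.inr (Or.inl rfl)
    · rcases h3 x hx with h | h
      · exact Or.inl h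
      · exact Or.inr (Or.inr h)
  · rintro x (rfl | hx)
    · exact Or.inl (Or.inl rfl)
    · rcases h4 x hx with h | h
      · exact Or.inl (Or.inr h)
      · exact Or.inr h

theorem rel_insert {M N : Set V} {a : V} (hM : a ∉ M) (hN : a ∉ N) (h : Rel G M N) :
    Rel G (insert a M) (insert a N) := by
  rcases h with h | h
  · exact Or.inl (ra_insert hM hN h)
  · exact Or.inr (ra_insert hN hM h)

theorem not_mem_of_md_non {S M : Set V} {a : V} (h : MD G (Non G S a) M) : a ∉ M :=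
  fun ha => (h.1 ha).2.1 rfl

theorem insert_ne {M N : Set V} {a : V} (hM : a ∉ M) (hN : a ∉ N) (h : M ≠ N) :
    insert a M ≠ insert a N := by
  intro heq
  apply h
  ext x
  constructor
  · intro hx
    have : x ∈ insert a N := heq ▸ (Or.inr hx : x ∈ insert a M)
    rcases this with rfl | h'
    · exact absurd hx hM
    · exact h'
  · intro hx
    have : x ∈ insert a M := heq.symm ▸ (Or.inr hx : x ∈ insert a N)
    rcases this with rfl | h'
    · exact absurd hx hN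
    · exact h'

/-- The embedding of the reconfiguration graph of `G - N[a]`. -/
theorem sc_of_non {S : Set V} {a : V} (ha : a ∈ S) (h : SC G (Non G S a)) : SC G S := by
  rcases h with ⟨A, B, C, hA, hB, hC, h1, h2, h3⟩ | ⟨A, B, C, D, hA, hB, hC, hD, h1, h2, h3, h4, h5, h6⟩ |
    ⟨A, B, C, D, E, hA, hB, hC, hD, hE, h1, h2, h3, h4, h5⟩
  · exact Or.inl ⟨_, _, _, md_insert ha hA, md_insert ha hB, md_insert ha hC,
      rel_insert (not_mem_of_md_non hA) (not_mem_of_md_non hB) h1,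
      rel_insert (not_mem_of_md_non hB) (not_mem_of_md_non hC) h2,
      rel_insert (not_mem_of_md_non hC) (not_mem_of_md_non hA) h3⟩
  · exact Or.inr (Or.inl ⟨_, _, _, _, md_insert ha hA, md_insert ha hB, md_insert ha hC,
      md_insert ha hD,
      rel_insert (not_mem_of_md_non hA) (not_mem_of_md_non hB) h1,
      rel_insert (not_mem_of_md_non hB) (not_mem_of_md_non hC) h2,
      rel_insert (not_mem_of_md_non hC) (not_mem_of_md_non hD) h3,
      rel_insert (not_mem_of_md_non hD) (not_mem_of_md_non hA) h4,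
      insert_ne (not_mem_of_md_non hA) (not_mem_of_md_non hC) h5,
      insert_ne (not_mem_of_md_non hB) (not_mem_of_md_non hD) h6⟩)
  · exact Or.inr (Or.inr ⟨_, _, _, _, _, md_insert ha hA, md_insert ha hB, md_insert ha hC,
      md_insert ha hD, md_insert ha hE,
      rel_insert (not_mem_of_md_non hA) (not_mem_of_md_non hB) h1,
      rel_insert (not_mem_of_md_non hB) (not_mem_of_md_non hC) h2,
      rel_insert (not_mem_of_md_non hC) (not_mem_of_md_non hD) h3,
      rel_insert (not_mem_of_md_non hD) (not_mem_of_md_non hE) h4,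
      rel_insert (not_mem_of_md_non hE) (not_mem_of_md_non hA) h5⟩)

/-- A star-like graph with an edge has a centre. -/
theorem SL.center {S : Set V} (h : SL G S) {a b : V} (ha : a ∈ S) (hb : b ∈ S)
    (hab : G.Adj a b) :
    ∃ c ∈ S, (∃ d ∈ S, G.Adj c d) ∧ ∀ x ∈ S, ∀ y ∈ S, G.Adj x y → x = c ∨ y = c := by
  by_cases h1 : ∀ x ∈ S, ∀ y ∈ S, G.Adj x y → x = a ∨ y = a
  · exact ⟨a, ha, ⟨b, hb, hab⟩, h1⟩
  by_cases h2 : ∀ x ∈ S, ∀ y ∈ S, G.Adj x y → x = b ∨ y = b
  · exact ⟨b, hb, ⟨a, ha, hab.symm⟩, h2⟩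
  exfalso
  push Not at h1 h2
  obtain ⟨x, hx, y, hy, hxy, hxa, hya⟩ := h1
  obtain ⟨z, hz, w, hw, hzw, hzb, hwb⟩ := h2
  have e1 := h.1 a ha b hb x hx y hy hab hxy
  have e2 := h.1 a ha b hb z hz w hw hab hzw
  have e3 := h.1 x hx y hy z hz w hw hxy hzw
  have t := h.2
  have := hxy.symm
  have := hzw.symm
  have := hab.symm
  grind

/-- In a star-like graph with an edge there are two adjacent minimal dominating sets. -/
theorem SL.exists_rel {S : Set V} (h : SL G S) {a b : V} (ha : a ∈ S) (hb : b ∈ S)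
    (hab : G.Adj a b) : ∃ A B, MD G S A ∧ MD G S B ∧ Rel G A B := by
  obtain ⟨c, hc, ⟨d, hd, hcd⟩, hall⟩ := h.center ha hb hab
  refine ⟨{x | x ∈ S ∧ (x = c ∨ ¬ G.Adj c x)}, {x | x ∈ S ∧ x ≠ c}, ?_, ?_, ?_⟩
  · apply md_of_ind
    · exact fun x hx => hx.1
    · rintro x ⟨hx, hx'⟩ y ⟨hy, hy'⟩ hxy
      rcases hall x hx y hy hxy with rfl | rfl
      · rcases hy' with rfl | hy'
        · exact G.loopless.irrefl _ hxy
        · exact hy' hxy
      · rcases hx' with rfl | hx'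
        · exact G.loopless.irrefl _ hxy
        · exact hx' hxy.symm
    · intro x hx
      by_cases hcx : G.Adj c x
      · exact Or.inr ⟨c, ⟨hc, Or.inl rfl⟩, hcx⟩
      · exact Or.inl ⟨hx, Or.inr hcx⟩
  · apply md_of_ind
    · exact fun x hx => hx.1
    · rintro x ⟨hx, hx'⟩ y ⟨hy, hy'⟩ hxy
      rcases hall x hx y hy hxy with rfl | rfl
      · exact hx' rfl
      · exact hy' rfl
    · intro x hx
      by_cases hcx : x = c
      · subst hcx
        exact Or.inr ⟨d, ⟨hd, hcd.ne'⟩, hcd.symm⟩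
      · exact Or.inl ⟨hx, hcx⟩
  · refine Or.inl ⟨c, ⟨hc, Or.inl rfl⟩, fun h => h.2 rfl, ?_, ?_⟩
    · rintro x ⟨hx, hx'⟩
      by_cases hcx : x = c
      · exact Or.inl hcx
      · exact Or.inr ⟨hx, hcx⟩
    · rintro x ⟨hx, hx'⟩
      by_cases hcx : G.Adj c x
      · exact Or.inr hcx
      · exact Or.inl ⟨hx, Or.inr hcx⟩

end Q106.Reconf
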