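import Pool.Agent.Q106.Reconf

set_option autoImplicit false

namespace Q106.Reconf

variable {V : Type*} {G : SimpleGraph V}

/-- Every independent subset of `S` extends to an independent dominating set. -/
theorem exists_mis [Finite V] {S A : Set V} (hA : A ⊆ S) (hind : Ind G A) :
    ∃ I, A ⊆ I ∧ I ⊆ S ∧ Ind G I ∧ Dom G S I := by
  obtain ⟨I, hI⟩ := (Set.toFinite {I : Set V | A ⊆ I ∧ I ⊆ S ∧ Ind G I}).exists_maximal
    ⟨A, le_refl _, hA, hind⟩
  obtain ⟨⟨h1, h2, h3⟩, hmax⟩ := hI
  refine ⟨I, h1, h2, h3, ?_⟩
  intro x hx
  by_contra hcon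
  push Not at hcon
  obtain ⟨hxI, hxadj⟩ := hcon
  apply hxI
  refine hmax (y := insert x I) ⟨?_, ?_, ?_⟩ (Set.subset_insert x I) (Set.mem_insert x I)
  · exact h1.trans (Set.subset_insert x I)
  · rintro y (rfl | hy)
    · exact hx
    · exact h2 hy
  · rintro y (rfl | hy) z (rfl | hz) hyz
    · exact G.loopless.irrefl _ hyz
    · exact hxadj z hz hyz.symm
    · exact hxadj y hy hyz
    · exact h3 y hy z hz hyz

theorem SC.exists_rel {S : Set V} (h : SC G S) : ∃ A B, MD G S A ∧ MD G S B ∧ Rel G A B := by
  rcases h with ⟨A, B, C, hA, hB, hC, h1, h2, h3⟩ | ⟨A, B, C, D, hA, hB, hC, hD, h1, h2, h3, h4, h5, h6⟩ |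
    ⟨A, B, C, D, E, hA, hB, hC, hD, hE, h1, h2, h3, h4, h5⟩
  · exact ⟨A, B, hA, hB, h1⟩
  · exact ⟨A, B, hA, hB, h1⟩
  · exact ⟨A, B, hA, hB, h1⟩

/-- Case of a vertex adjacent to all others. -/
theorem case_univ {S : Set V} {a : V} (ha : a ∈ S) (huniv : ∀ x ∈ S, x = a ∨ G.Adj a x)
    (hns : ¬ SL G S) (ih : ¬ SL G {x | x ∈ S ∧ x ≠ a} → SC G {x | x ∈ S ∧ x ≠ a}) : SC G S := by
  have key : ∃ A B, MD G {x | x ∈ S ∧ x ≠ a} A ∧ MD G {x | x ∈ S ∧ x ≠ a} B ∧ Rel G A B := by
    by_cases h : SL G {x | x ∈ S ∧ x ≠ a}
    · by_cases he : ∃ x ∈ {x | x ∈ S ∧ x ≠ a}, ∃ y ∈ {x | x ∈ S ∧ x ≠ a}, G.Adj x y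
      · obtain ⟨x, hx, y, hy, hxy⟩ := he
        exact h.exists_rel hx hy hxy
      · exfalso
        push Not at he
        apply hns
        constructor
        · intro x hx y hy z hz w hw hxy hzw
          have h1 : x = a ∨ y = a := by
            by_contra hcon
            push Not at hcon
            exact he x ⟨hx, hcon.1⟩ y ⟨hy, hcon.2⟩ hxy
          have h2 : z = a ∨ w = a := by
            by_contra hcon
            push Not at hcon
            exact he z ⟨hz, hcon.1⟩ w ⟨hw, hcon.2⟩ hzw
          grind
        · intro x hx y hy z hz hxy hyz hxz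
          have h1 : x = a ∨ y = a := by
            by_contra hcon
            push Not at hcon
            exact he x ⟨hx, hcon.1⟩ y ⟨hy, hcon.2⟩ hxy
          have h2 : y = a ∨ z = a := by
            by_contra hcon
            push Not at hcon
            exact he y ⟨hy, hcon.1⟩ z ⟨hz, hcon.2⟩ hyz
          have h3 : x = a ∨ z = a := by
            by_contra hcon
            push Not at hcon
            exact he x ⟨hx, hcon.1⟩ z ⟨hz, hcon.2⟩ hxz
          have := hxy.ne
          have := hyz.ne
          have := hxz.ne
          grind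
    · exact (ih h).exists_rel
  obtain ⟨A, B, hA, hB, hAB⟩ := key
  have lift : ∀ M, MD G {x | x ∈ S ∧ x ≠ a} M → MD G S M := by
    intro M ⟨h1, h2, h3⟩
    have hne : ∃ m, m ∈ M := by
      by_contra hcon
      push Not at hcon
      apply hns
      have hS : ∀ x ∈ S, x = a := by
        intro x hx
        by_contra hxa
        rcases h2 x ⟨hx, hxa⟩ with h | ⟨m, hm, _⟩
        · exact hcon x h
        · exact hcon m hm
      constructor
      · intro x hx y hy z hz w hw hxy hzw
        exact Or.inl ((hS x hx).trans (hS z hz).symm)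
      · intro x hx y hy z hz hxy hyz hxz
        exact hxy.ne ((hS x hx).trans (hS y hy).symm)
    refine ⟨fun x hx => (h1 hx).1, ?_, ?_⟩
    · intro x hx
      by_cases hxa : x = a
      · subst hxa
        obtain ⟨m, hm⟩ := hne
        rcases huniv m (h1 hm).1 with h | h
        · exact absurd h (h1 hm).2
        · exact Or.inr ⟨m, hm, h.symm⟩
      · exact h2 x ⟨hx, hxa⟩
    · intro m hm
      obtain ⟨p, hp, h4, h5⟩ := h3 m hm
      exact ⟨p, hp.1, h4, h5⟩
  have hrel : ∀ M, MD G {x | x ∈ S ∧ x ≠ a} M → Rel G {a} M := by
    intro M hM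
    refine Or.inl ⟨a, rfl, fun h => (hM.1 h).2 rfl, fun x hx => Or.inl hx, fun x hx => Or.inr ?_⟩
    rcases huniv x (hM.1 hx).1 with h | h
    · exact absurd h (hM.1 hx).2
    · exact h
  have hsing : MD G S {a} := by
    refine ⟨fun x hx => by rw [Set.mem_singleton_iff.mp hx]; exact ha, ?_, ?_⟩
    · intro x hx
      rcases huniv x hx with h | h
      · exact Or.inl h
      · exact Or.inr ⟨a, rfl, h⟩
    · intro m hm
      rw [Set.mem_singleton_iff.mp hm]
      exact ⟨a, ha, Or.inl rfl, fun m' hm' hne => absurd (Set.mem_singleton_iff.mp hm') hne⟩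
  exact Or.inl ⟨{a}, A, B, hsing, lift A hA, lift B hB, hrel A hA, hAB, (hrel B hB).symm⟩

/-- Case where no three vertices are independent. -/
theorem case_small {S : Set V} (hns : ¬ SL G S)
    (huniv : ∀ a ∈ S, ∃ x ∈ S, x ≠ a ∧ ¬ G.Adj a x)
    (hsl : ∀ a ∈ S, SL G (Non G S a))
    (hind : ∀ a ∈ S, ∀ b ∈ S, ∀ c ∈ S, a ≠ b → a ≠ c → b ≠ c → ¬ G.Adj a b → ¬ G.Adj a c →
      ¬ G.Adj b c → False) : SC G S := by
  have loop : ∀ a, ¬ G.Adj a a := G.loopless.irrefl
  -- pairs without a common nonneighbour are minimal dominating sets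
  have pair : ∀ a ∈ S, ∀ b ∈ S, a ≠ b → (∀ x ∈ S, x ≠ a → x ≠ b → G.Adj a x ∨ G.Adj b x) →
      MD G S {a, b} := by
    intro a ha b hb hab hdom
    refine ⟨?_, ?_, ?_⟩
    · rintro x (rfl | rfl) <;> assumption
    · intro x hx
      by_cases hxa : x = a
      · exact Or.inl (Or.inl hxa)
      by_cases hxb : x = b
      · exact Or.inl (Or.inr hxb)
      rcases hdom x hx hxa hxb with h | h
      · exact Or.inr ⟨a, Or.inl rfl, h⟩
      · exact Or.inr ⟨b, Or.inr rfl, h⟩
    · intro m hm
      rcases hm with rfl | rfl
      · obtain ⟨x, hx, hxb, hxadj⟩ := huniv b hb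
        refine ⟨x, hx, ?_, ?_⟩
        · by_cases hxm : x = m
          · exact Or.inl hxm
          · rcases hdom x hx hxm hxb with h | h
            · exact Or.inr h
            · exact absurd h hxadj
        · rintro m' (rfl | rfl) hne
          · exact absurd rfl hne
          · exact ⟨hxb, hxadj⟩
      · obtain ⟨x, hx, hxa, hxadj⟩ := huniv a ha
        refine ⟨x, hx, ?_, ?_⟩
        · by_cases hxm : x = m
          · exact Or.inl hxm
          · rcases hdom x hx hxa hxm with h | h
            · exact absurd h hxadj
            · exact Or.inr h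
        · rintro m' (rfl | rfl) hne
          · exact ⟨hxa, hxadj⟩
          · exact absurd rfl hne
  -- nonadjacent pairs
  have npair : ∀ a ∈ S, ∀ b ∈ S, a ≠ b → ¬ G.Adj a b → MD G S {a, b} := by
    intro a ha b hb hab hnadj
    apply pair a ha b hb hab
    intro x hx hxa hxb
    by_contra hcon
    push Not at hcon
    exact hind a ha b hb x hx hab hxa.symm hxb.symm hnadj hcon.1 hcon.2
  -- swapping
  have swap : ∀ a b c : V, G.Adj b c → Rel G {a, b} {a, c} := by
    intro a b c hbc
    by_cases hac : a = b
    · subst hac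
      refine Or.inr ⟨c, Or.inr rfl, ?_, ?_, ?_⟩
      · rintro (h | h)
        · exact hbc.ne h.symm
        · exact hbc.ne h.symm
      · rintro x (rfl | rfl)
        · exact Or.inr (Or.inl rfl)
        · exact Or.inl rfl
      · rintro x (rfl | rfl)
        · exact Or.inl (Or.inl rfl)
        · exact Or.inl (Or.inl rfl)
    · refine Or.inl ⟨b, Or.inr rfl, ?_, ?_, ?_⟩
      · rintro (h | h)
        · exact hac h.symm
        · exact hbc.ne h
      · rintro x (rfl | rfl)
        · exact Or.inr (Or.inl rfl)
        · exact Or.inl rfl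
      · rintro x (rfl | rfl)
        · exact Or.inl (Or.inl rfl)
        · exact Or.inr hbc
  -- at most two nonneighbours
  have two : ∀ a ∈ S, ∀ x ∈ S, ∀ y ∈ S, ∀ z ∈ S, x ≠ a → y ≠ a → z ≠ a → ¬ G.Adj a x →
      ¬ G.Adj a y → ¬ G.Adj a z → x = y ∨ x = z ∨ y = z := by
    intro a ha x hx y hy z hz hxa hya hza h1 h2 h3
    by_contra hcon
    push Not at hcon
    obtain ⟨hxy, hxz, hyz⟩ := hcon
    have e1 : G.Adj x y := by
      by_contra h
      exact hind a ha x hx y hy hxa.symm hya.symm hxy h1 h2 h
    have e2 : G.Adj y z := by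
      by_contra h
      exact hind a ha y hy z hz hya.symm hza.symm hyz h2 h3 h
    have e3 : G.Adj x z := by
      by_contra h
      exact hind a ha x hx z hz hxa.symm hza.symm hxz h1 h3 h
    exact (hsl a ha).2 x ⟨hx, hxa, h1⟩ y ⟨hy, hya, h2⟩ z ⟨hz, hza, h3⟩ e1 e2 e3
  by_cases hC1 : ∃ b ∈ S, ∃ a ∈ S, ∃ c ∈ S, a ≠ b ∧ c ≠ b ∧ a ≠ c ∧ ¬ G.Adj b a ∧ ¬ G.Adj b c
  · -- the triangle configuration
    by_cases hT : ∃ b ∈ S, ∃ a ∈ S, ∃ c ∈ S, ∃ d ∈ S, a ≠ b ∧ c ≠ b ∧ a ≠ c ∧ ¬ G.Adj b a ∧
        ¬ G.Adj b c ∧ d ≠ a ∧ d ≠ b ∧ d ≠ c ∧ G.Adj d a ∧ G.Adj d c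
    · obtain ⟨b, hb, a, ha, c, hc, d, hd, hab, hcb, hac, nba, nbc, hda, hdb, hdc, ada, adc⟩ := hT
      have eac : G.Adj a c := by
        by_contra h
        exact hind b hb a ha c hc hab.symm hcb.symm hac nba nbc h
      have hbd : MD G S {b, d} := by
        apply pair b hb d hd hdb.symm
        intro x hx hxb hxd
        by_cases h : G.Adj b x
        · exact Or.inl h
        · rcases two b hb a ha c hc x hx hab hcb hxb nba nbc h with h' | h' | h'
          · exact absurd h' hac
          · exact Or.inr (h' ▸ ada)
          · exact Or.inr (h' ▸ adc)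
      exact Or.inl ⟨{b, a}, {b, c}, {b, d}, npair b hb a ha hab.symm nba,
        npair b hb c hc hcb.symm nbc, hbd, swap b a c eac, swap b c d adc.symm, swap b d a ada⟩
    · push Not at hT
      obtain ⟨b, hb, a, ha, c, hc, hab, hcb, hac, nba, nbc⟩ := hC1
      have eac : G.Adj a c := by
        by_contra h
        exact hind b hb a ha c hc hab.symm hcb.symm hac nba nbc h
      -- there is another vertex
      have hother : ∃ d ∈ S, d ≠ a ∧ d ≠ b ∧ d ≠ c := by
        by_contra hcon
        push Not at hcon
        apply hns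
        have hS : ∀ x ∈ S, x = a ∨ x = b ∨ x = c := by
          intro x hx
          by_contra h
          push Not at h
          exact h.2.2 (hcon x hx h.1 h.2.1)
        have nab : ¬ G.Adj a b := fun h => nba h.symm
        have ncb : ¬ G.Adj c b := fun h => nbc h.symm
        constructor
        · intro x hx y hy z hz w hw hxy hzw
          have := hS x hx
          have := hS y hy
          have := hS z hz
          have := hS w hw
          have := loop a
          have := loop b
          have := loop c
          grind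
        · intro x hx y hy z hz hxy hyz hxz
          have := hS x hx
          have := hS y hy
          have := hS z hz
          have := loop a
          have := loop b
          have := loop c
          grind
      -- every other vertex is nonadjacent to a or c and adjacent to b
      have hdab : ∀ d ∈ S, d ≠ a → d ≠ b → d ≠ c → (¬ G.Adj d a ∨ ¬ G.Adj d c) ∧ G.Adj d b := by
        intro d hd hda hdb hdc
        refine ⟨?_, ?_⟩
        · by_contra h
          push Not at h
          exact hT b hb a ha c hc d hd hab hcb hac nba nbc hda hdb hdc h.1 h.2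
        · by_contra h
          have h' : ¬ G.Adj b d := fun e => h e.symm
          rcases two b hb a ha c hc d hd hab hcb hdb nba nbc h' with e | e | e
          · exact hac e
          · exact hda e.symm
          · exact hdc e.symm
      obtain ⟨d, hd, hda, hdb, hdc⟩ := hother
      obtain ⟨h1, h2⟩ := hdab d hd hda hdb hdc
      -- reduce to the case where d is nonadjacent to a
      have main : ∀ a c : V, a ∈ S → c ∈ S → a ≠ b → c ≠ b → a ≠ c → ¬ G.Adj b a → ¬ G.Adj b c →
          G.Adj a c → d ≠ a → d ≠ c → ¬ G.Adj d a →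
          (∀ d ∈ S, d ≠ a → d ≠ b → d ≠ c → (¬ G.Adj d a ∨ ¬ G.Adj d c) ∧ G.Adj d b) → SC G S := by
        intro a c ha hc hab hcb hac nba nbc eac hda hdc nda hall
        have edb : G.Adj d b := (hall d hd hda hdb hdc).2
        -- the 4-cycle available once {c, d} is minimal dominating
        have fourc : MD G S {c, d} → SC G S := by
          intro hfour
          refine Or.inr (Or.inl ⟨{b, a}, {b, c}, {c, d}, {d, a}, npair b hb a ha hab.symm nba,
            npair b hb c hc hcb.symm nbc, hfour, npair d hd a ha hda nda,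
            swap b a c eac, ?_, ?_, ?_, ?_, ?_⟩)
          · rw [Set.pair_comm b c]
            exact swap c b d edb.symm
          · rw [Set.pair_comm c d]
            exact swap d c a eac.symm
          · rw [Set.pair_comm d a, Set.pair_comm b a]
            exact swap a d b edb
          · intro h
            have : b ∈ ({c, d} : Set V) := h ▸ Or.inl rfl
            rcases this with h | h
            · exact hcb h.symm
            · exact hdb h.symm
          · intro h
            have : b ∈ ({d, a} : Set V) := h ▸ Or.inl rfl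
            rcases this with h | h
            · exact hdb h.symm
            · exact hab h.symm
        by_cases hdc2 : G.Adj d c
        · by_cases hx : ∃ x ∈ S, x ≠ c ∧ x ≠ d ∧ ¬ G.Adj c x ∧ ¬ G.Adj d x
          · obtain ⟨x, hx, hxc, hxd, ncx, ndx⟩ := hx
            have hxa : x ≠ a := fun e => ncx (e ▸ eac.symm)
            have hxb : x ≠ b := fun e => ndx (e ▸ edb)
            have exa : G.Adj a x := by
              by_contra h
              rcases two a ha b hb d hd x hx hab.symm hda hxa (fun e => nba e.symm)
                (fun e => nda e.symm) h with e | e | e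
              · exact hdb e.symm
              · exact hxb e.symm
              · exact hxd e.symm
            have e2 : G.Adj b x := by
              by_contra h
              rcases two b hb a ha c hc x hx hab hcb hxb nba nbc h with e | e | e
              · exact hac e
              · exact hxa e.symm
              · exact hxc e.symm
            -- 5-cycle {a,b},{b,c},{c,x},{x,d},{d,a}
            refine Or.inr (Or.inr ⟨{b, a}, {b, c}, {c, x}, {x, d}, {d, a},
              npair b hb a ha hab.symm nba, npair b hb c hc hcb.symm nbc,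
              npair c hc x hx hxc.symm ncx, npair x hx d hd hxd (fun e => ndx e.symm),
              npair d hd a ha hda nda, swap b a c eac, ?_, ?_, ?_, ?_⟩)
            · rw [Set.pair_comm b c]
              exact swap c b x e2
            · rw [Set.pair_comm c x]
              exact swap x c d hdc2.symm
            · rw [Set.pair_comm x d]
              exact swap d x a exa.symm
            · rw [Set.pair_comm d a, Set.pair_comm b a]
              exact swap a d b edb
          · push Not at hx
            apply fourc
            apply pair c hc d hd hdc.symm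
            intro x hxS hxc hxd
            by_cases h : G.Adj c x
            · exact Or.inl h
            · exact Or.inr (hx x hxS hxc hxd h)
        · exact fourc (npair c hc d hd hdc.symm (fun e => hdc2 e.symm))
      rcases h1 with h1 | h1
      · exact main a c ha hc hab hcb hac nba nbc eac hda hdc h1 hdab
      · exact main c a hc ha hcb hab hac.symm nbc nba eac.symm hdc hda h1
          (fun d hd h1 h2 h3 => ⟨(hdab d hd h3 h2 h1).1.symm, (hdab d hd h3 h2 h1).2⟩)
  · push Not at hC1
    have one : ∀ b ∈ S, ∀ a ∈ S, ∀ c ∈ S, a ≠ b → c ≠ b → ¬ G.Adj b a → ¬ G.Adj b c → a = c := by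
      intro b hb a ha c hc hab hcb nba nbc
      by_contra hac
      exact nbc (hC1 b hb a ha c hc hab hcb hac nba)
    have hne : ∃ a, a ∈ S := by
      by_contra h
      push Not at h
      exact hns ⟨fun a ha => absurd ha (h a), fun a ha => absurd ha (h a)⟩
    obtain ⟨a, ha⟩ := hne
    obtain ⟨b, hb, hba, nab⟩ := huniv a ha
    have hother : ∃ c ∈ S, c ≠ a ∧ c ≠ b := by
      by_contra hcon
      push Not at hcon
      apply hns
      have hS : ∀ x ∈ S, x = a ∨ x = b := by
        intro x hx
        by_contra h
        push Not at h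
        exact h.2 (hcon x hx h.1)
      have nba : ¬ G.Adj b a := fun h => nab h.symm
      have hnone : ∀ x ∈ S, ∀ y ∈ S, ¬ G.Adj x y := by
        intro x hx y hy
        rcases hS x hx with rfl | rfl <;> rcases hS y hy with rfl | rfl
        · exact loop _
        · exact nab
        · exact nba
        · exact loop _
      exact ⟨fun x hx y hy z hz w hw hxy => absurd hxy (hnone x hx y hy),
        fun x hx y hy z hz hxy => absurd hxy (hnone x hx y hy)⟩
    obtain ⟨c, hc, hca, hcb⟩ := hother
    obtain ⟨d, hd, hdc, ncd⟩ := huniv c hc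
    have eac : G.Adj a c := by
      by_contra h
      exact hcb (one a ha c hc b hb hca hba h nab)
    have ebc : G.Adj b c := by
      by_contra h
      exact hca (one b hb c hc a ha hcb hba.symm h (fun e => nab e.symm))
    have hda : d ≠ a := fun e => ncd (e ▸ eac.symm)
    have hdb : d ≠ b := fun e => ncd (e ▸ ebc.symm)
    have ead : G.Adj a d := by
      by_contra h
      exact hdb (one a ha d hd b hb hda hba h nab)
    have ebd : G.Adj b d := by
      by_contra h
      exact hda (one b hb d hd a ha hdb hba.symm h (fun e => nab e.symm))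
    have mac : MD G S {c, a} := by
      apply pair c hc a ha hca
      intro x hx hxc hxa
      by_cases h : G.Adj c x
      · exact Or.inl h
      · have hxd : x = d := one c hc x hx d hd hxc hdc h ncd
        exact Or.inr (hxd ▸ ead)
    have mcb : MD G S {c, b} := by
      apply pair c hc b hb hcb
      intro x hx hxc hxb
      by_cases h : G.Adj c x
      · exact Or.inl h
      · have hxd : x = d := one c hc x hx d hd hxc hdc h ncd
        exact Or.inr (hxd ▸ ebd)
    refine Or.inr (Or.inl ⟨{a, b}, {c, a}, {c, d}, {c, b}, npair a ha b hb hba.symm nab, mac,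
      npair c hc d hd hdc.symm ncd, mcb, ?_, swap c a d ead, swap c d b ebd.symm, ?_, ?_, ?_⟩)
    · rw [Set.pair_comm c a]
      exact swap a b c ebc
    · rw [Set.pair_comm c b, Set.pair_comm a b]
      exact swap b c a eac.symm
    · intro h
      have : a ∈ ({c, d} : Set V) := h ▸ Or.inl rfl
      rcases this with h | h
      · exact hca h.symm
      · exact hda h.symm
    · intro h
      have : a ∈ ({c, b} : Set V) := h ▸ Or.inr rfl
      rcases this with h | h
      · exact hca h.symm
      · exact hba h.symm

end Q106.Reconf
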