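import Pool.Agent.Q106.Reconf2

set_option autoImplicit false

namespace Q106.Reconf

variable {V : Type*} {G : SimpleGraph V}

/-- Adjacency, convenient form. -/
theorem rel_intro {M N : Set V} (v : V) (h1 : v ∈ M) (h2 : v ∉ N) (h3 : ∀ x ∈ M, x = v ∨ x ∈ N)
    (h4 : ∀ x ∈ N, x ∈ M ∨ G.Adj v x) : Rel G M N := Or.inl ⟨v, h1, h2, h3, h4⟩

theorem case_S1 {S I : Set V} (hns : ¬ SL G S)
    (huniv : ∀ a ∈ S, ∃ x ∈ S, x ≠ a ∧ ¬ G.Adj a x)
    (hsl : ∀ a ∈ S, SL G (Non G S a))
    (hIS : I ⊆ S) (hI : Ind G I) (hdom : Dom G S I)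
    {t k1 k2 w0 : V} (ht : t ∈ I) (hk1 : k1 ∈ I) (hk2 : k2 ∈ I) (htk1 : k1 ≠ t) (htk2 : k2 ≠ t)
    (hk12 : k1 ≠ k2) (hw0 : w0 ∈ S) (hw0I : w0 ∉ I) (htw0 : G.Adj t w0)
    (hkw0 : ∀ k ∈ I, k ≠ t → ¬ G.Adj k w0) : SC G S := by
  have loop : ∀ a, ¬ G.Adj a a := G.loopless.irrefl
  have symm : ∀ a b, G.Adj a b → G.Adj b a := fun a b h => h.symm
  -- the private neighbours of t
  set W : Set V := {w | w ∈ S ∧ w ∉ I ∧ G.Adj t w ∧ ∀ k ∈ I, k ≠ t → ¬ G.Adj k w} with hW
  set F : Set V := {f | f ∈ S ∧ f ∉ I ∧ f ∉ W} with hF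
  have hw0W : w0 ∈ W := ⟨hw0, hw0I, htw0, hkw0⟩
  -- all of F is adjacent to all of K
  have c1 : ∀ f ∈ F, ∀ k ∈ I, k ≠ t → G.Adj f k := by
    intro f hf k hk hkt
    by_contra hfk
    have hS := hsl k (hIS hk)
    have key : ∀ s ∈ I, G.Adj s f → s = t := by
      intro s hs hsf
      have hsk : s ≠ k := fun e => hfk (e ▸ hsf.symm)
      have := hS.1 t ⟨hIS ht, hkt.symm, hI k hk t ht⟩ w0
        ⟨hw0, fun e => hw0I (e ▸ hk), hkw0 k hk hkt⟩ s ⟨hIS hs, hsk, hI k hk s hs⟩ f
        ⟨hf.1, fun e => hf.2.1 (e ▸ hk), fun e => hfk e.symm⟩ htw0 hsf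
      rcases this with h | h | h | h
      · exact h.symm
      · exact absurd (h ▸ ht) hf.2.1
      · exact absurd (h ▸ hs) hw0I
      · exact absurd (h ▸ hw0W) hf.2.2
    apply hf.2.2
    refine ⟨hf.1, hf.2.1, ?_, ?_⟩
    · rcases hdom f hf.1 with h | ⟨s, hs, hsf⟩
      · exact absurd h hf.2.1
      · exact key s hs hsf ▸ hsf
    · intro s hs hst hsf
      exact hst (key s hs hsf)
  -- W is independent
  have c2 : ∀ w ∈ W, ∀ w' ∈ W, ¬ G.Adj w w' := by
    intro w hw w' hw' hadj
    exact (hsl k1 (hIS hk1)).2 t ⟨hIS ht, htk1.symm, hI k1 hk1 t ht⟩ w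
      ⟨hw.1, fun e => hw.2.1 (e ▸ hk1), hw.2.2.2 k1 hk1 htk1⟩ w'
      ⟨hw'.1, fun e => hw'.2.1 (e ▸ hk1), hw'.2.2.2 k1 hk1 htk1⟩ hw.2.2.1 hadj hw'.2.2.1
  -- at most one vertex of F is nonadjacent to t
  have c3 : ∀ y ∈ F, ∀ y' ∈ F, ¬ G.Adj t y → ¬ G.Adj t y' → y = y' := by
    intro y hy y' hy' h1 h2
    have := (hsl t (hIS ht)).1 y ⟨hy.1, fun e => hy.2.1 (e ▸ ht), h1⟩ k1
      ⟨hIS hk1, htk1, hI t ht k1 hk1⟩ y' ⟨hy'.1, fun e => hy'.2.1 (e ▸ ht), h2⟩ k2
      ⟨hIS hk2, htk2, hI t ht k2 hk2⟩ (c1 y hy k1 hk1 htk1) (c1 y' hy' k2 hk2 htk2)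
    rcases this with h | h | h | h
    · exact h
    · exact absurd (h ▸ hk2) hy.2.1
    · exact absurd (h ▸ hk1) hy'.2.1
    · exact absurd h hk12
  -- each w in W has at most one nonneighbour in F
  have c4 : ∀ w ∈ W, ∀ f ∈ F, ∀ f' ∈ F, ¬ G.Adj w f → ¬ G.Adj w f' → f = f' := by
    intro w hw f hf f' hf' h1 h2
    have := (hsl w hw.1).1 f ⟨hf.1, fun e => hf.2.2 (e ▸ hw), h1⟩ k1
      ⟨hIS hk1, fun e => hw.2.1 (e ▸ hk1), fun e => hw.2.2.2 k1 hk1 htk1 e.symm⟩ f'
      ⟨hf'.1, fun e => hf'.2.2 (e ▸ hw), h2⟩ k2
      ⟨hIS hk2, fun e => hw.2.1 (e ▸ hk2), fun e => hw.2.2.2 k2 hk2 htk2 e.symm⟩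
      (c1 f hf k1 hk1 htk1) (c1 f' hf' k2 hk2 htk2)
    rcases this with h | h | h | h
    · exact h
    · exact absurd (h ▸ hk2) hf.2.1
    · exact absurd (h ▸ hk1) hf'.2.1
    · exact absurd h hk12
  -- trichotomy for S
  have tri : ∀ x ∈ S, x = t ∨ (x ∈ I ∧ x ≠ t) ∨ x ∈ W ∨ x ∈ F := by
    intro x hx
    by_cases h1 : x = t
    · exact Or.inl h1
    by_cases h2 : x ∈ I
    · exact Or.inr (Or.inl ⟨h2, h1⟩)
    by_cases h3 : x ∈ W
    · exact Or.inr (Or.inr (Or.inl h3))
    · exact Or.inr (Or.inr (Or.inr ⟨hx, h2, h3⟩))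
  -- F is nonempty
  have c5 : ∃ f, f ∈ F := by
    by_contra hcon
    push Not at hcon
    apply hns
    have hall : ∀ x ∈ S, ∀ y ∈ S, G.Adj x y → x = t ∨ y = t := by
      intro x hx y hy hxy
      rcases tri x hx with h1 | h1 | h1 | h1
      · exact Or.inl h1
      · rcases tri y hy with h2 | h2 | h2 | h2
        · exact Or.inr h2
        · exact absurd hxy (hI x h1.1 y h2.1)
        · exact absurd hxy (h2.2.2.2 x h1.1 h1.2)
        · exact absurd h2 (hcon y)
      · rcases tri y hy with h2 | h2 | h2 | h2
        · exact Or.inr h2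
        · exact absurd hxy.symm (h1.2.2.2 y h2.1 h2.2)
        · exact absurd hxy (c2 x h1 y h2)
        · exact absurd h2 (hcon y)
      · exact absurd h1 (hcon x)
    constructor
    · intro x hx y hy z hz w hw hxy hzw
      have := hall x hx y hy hxy
      have := hall z hz w hw hzw
      grind
    · intro x hx y hy z hz hxy hyz hxz
      have := hall x hx y hy hxy
      have := hall y hy z hz hyz
      have := hall x hx z hz hxz
      have := hxy.ne
      have := hyz.ne
      have := hxz.ne
      grind
  -- the two basic sets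
  have m0 : MD G S I := md_of_ind hIS hI hdom
  set M1 : Set V := {x | x ∈ W ∨ (x ∈ I ∧ x ≠ t)} with hM1
  have m1 : MD G S M1 := by
    apply md_of_ind
    · rintro x (h | h)
      · exact h.1
      · exact hIS h.1
    · rintro x (hx | hx) y (hy | hy) hxy
      · exact c2 x hx y hy hxy
      · exact hx.2.2.2 y hy.1 hy.2 hxy.symm
      · exact hy.2.2.2 x hx.1 hx.2 hxy
      · exact hI x hx.1 y hy.1 hxy
    · intro x hx
      rcases tri x hx with h | h | h | h
      · exact Or.inr ⟨w0, Or.inl hw0W, h ▸ htw0.symm⟩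
      · exact Or.inl (Or.inr h)
      · exact Or.inl (Or.inl h)
      · exact Or.inr ⟨k1, Or.inr ⟨hk1, htk1⟩, (c1 x h k1 hk1 htk1).symm⟩
  have tM1 : t ∉ M1 := by
    rintro (h | h)
    · exact h.2.1 ht
    · exact h.2 rfl
  have r01 : Rel G I M1 := by
    refine rel_intro t ht tM1 ?_ ?_
    · intro x hx
      by_cases h : x = t
      · exact Or.inl h
      · exact Or.inr (Or.inr ⟨hx, h⟩)
    · rintro x (h | h)
      · exact Or.inr h.2.2.1
      · exact Or.inl h.1
  -- facts on membership
  have fI : ∀ f ∈ F, f ∉ I := fun f hf => hf.2.1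
  have fW : ∀ f ∈ F, f ∉ W := fun f hf => hf.2.2
  have fM1 : ∀ f ∈ F, f ∉ M1 := by
    rintro f hf (h | h)
    · exact fW f hf h
    · exact fI f hf h.1
  have ft : ∀ f ∈ F, f ≠ t := fun f hf e => fI f hf (e ▸ ht)
  have wI : ∀ w ∈ W, w ∉ I := fun w hw => hw.2.1
  have wt : ∀ w ∈ W, w ≠ t := fun w hw e => wI w hw (e ▸ ht)
  have wadj : ∀ w ∈ W, G.Adj t w := fun w hw => hw.2.2.1
  have hkw : ∀ w ∈ W, ∀ k ∈ I, k ≠ t → ¬ G.Adj k w := fun w hw => hw.2.2.2
  have hFS : ∀ f ∈ F, f ∈ S := fun f hf => hf.1
  have hWS : ∀ w ∈ W, w ∈ S := fun w hw => hw.1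
  by_cases ha : ∃ y ∈ F, ¬ G.Adj t y
  · -- case (a)
    obtain ⟨y, hy, nty⟩ := ha
    have hyt := ft y hy
    have mty : MD G S {t, y} := by
      apply md_of_ind
      · rintro x (rfl | rfl)
        · exact hIS ht
        · exact hy.1
      · rintro x (rfl | rfl) z (rfl | rfl) h
        · exact loop _ h
        · exact nty h
        · exact nty h.symm
        · exact loop _ h
      · intro x hx
        rcases tri x hx with h | h | h | h
        · exact Or.inl (Or.inl h)
        · exact Or.inr ⟨y, Or.inr rfl, c1 y hy x h.1 h.2⟩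
        · exact Or.inr ⟨t, Or.inl rfl, wadj x h⟩
        · by_cases hxy : x = y
          · exact Or.inl (Or.inr hxy)
          · refine Or.inr ⟨t, Or.inl rfl, ?_⟩
            by_contra hcon
            exact hxy (c3 x h y hy hcon nty)
    have r0 : Rel G {t, y} I := by
      refine rel_intro y (Or.inr rfl) (fI y hy) ?_ ?_
      · rintro x (rfl | rfl)
        · exact Or.inr ht
        · exact Or.inl rfl
      · intro x hx
        by_cases h : x = t
        · exact Or.inl (Or.inl h)
        · exact Or.inr (c1 y hy x hx h)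
    have ne1 : M1 ≠ {t, y} := by
      intro h
      exact tM1 (h ▸ Or.inl rfl)
    -- the nonneighbours of y in W ∪ F form an independent set
    have tB : ∀ b ∈ F, b ≠ y → G.Adj t b := by
      intro b hb hby
      by_contra h
      exact hby (c3 b hb y hy h nty)
    have ca : ∀ x ∈ S, ∀ z ∈ S, G.Adj t x → G.Adj t z → x ≠ y → z ≠ y → ¬ G.Adj y x →
        ¬ G.Adj y z → ¬ G.Adj x z := by
      intro x hx z hz htx htz hxy hzy nx nz hxz
      exact (hsl y hy.1).2 t ⟨hIS ht, hyt.symm, fun e => nty e.symm⟩ x ⟨hx, hxy, nx⟩ z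
        ⟨hz, hzy, nz⟩ htx hxz htz
    by_cases hWy : ∃ w ∈ W, ¬ G.Adj y w
    · -- (a1)
      obtain ⟨w1, hw1, nyw1⟩ := hWy
      have hB : ∀ b ∈ F, b ≠ y → G.Adj y b := by
        intro b hb hby
        by_contra nyb
        have e1 : G.Adj w1 b := by
          by_contra h
          exact hby (c4 w1 hw1 b hb y hy h (fun e => nyw1 e.symm))
        exact ca w1 (hWS w1 hw1) b (hFS b hb) (wadj w1 hw1) (tB b hb hby)
          (fun e => fW y hy (e ▸ hw1)) hby nyw1 nyb e1
      set N : Set V := {x | x = y ∨ (x ∈ W ∧ ¬ G.Adj y x)} with hN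
      have mN : MD G S N := by
        apply md_of_ind
        · rintro x (h | h)
          · exact h ▸ hy.1
          · exact hWS x h.1
        · rintro x (hx | hx) z (hz | hz) hxz
          · subst hx; subst hz; exact loop _ hxz
          · subst hx; exact hz.2 hxz
          · subst hz; exact hx.2 hxz.symm
          · exact c2 x hx.1 z hz.1 hxz
        · intro x hx
          rcases tri x hx with h | h | h | h
          · exact Or.inr ⟨w1, Or.inr ⟨hw1, nyw1⟩, h ▸ (wadj w1 hw1).symm⟩
          · exact Or.inr ⟨y, Or.inl rfl, c1 y hy x h.1 h.2⟩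
          · by_cases e : G.Adj y x
            · exact Or.inr ⟨y, Or.inl rfl, e⟩
            · exact Or.inl (Or.inr ⟨h, e⟩)
          · by_cases e : x = y
            · exact Or.inl (Or.inl e)
            · exact Or.inr ⟨y, Or.inl rfl, hB x h e⟩
      have rN : Rel G {t, y} N := by
        refine rel_intro t (Or.inl rfl) ?_ ?_ ?_
        · rintro (h | h)
          · exact hyt h.symm
          · exact wt t h.1 rfl
        · rintro x (rfl | rfl)
          · exact Or.inl rfl
          · exact Or.inr (Or.inl rfl)
        · rintro x (h | h)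
          · exact Or.inl (Or.inr h)
          · exact Or.inr (wadj x h.1)
      have rN1 : Rel G N M1 := by
        refine rel_intro y (Or.inl rfl) (fM1 y hy) ?_ ?_
        · rintro x (h | h)
          · exact Or.inl h
          · exact Or.inr (Or.inl h.1)
        · rintro x (h | h)
          · by_cases e : G.Adj y x
            · exact Or.inr e
            · exact Or.inl (Or.inr ⟨h, e⟩)
          · exact Or.inr (c1 y hy x h.1 h.2)
      refine Or.inr (Or.inl ⟨I, M1, N, {t, y}, m0, m1, mN, mty, r01, rN1.symm, rN.symm, r0, ?_, ne1⟩)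
      intro h
      exact fI y hy (h ▸ Or.inl rfl)
    · push Not at hWy
      by_cases hw0B : ∀ b ∈ F, b ≠ y → ¬ G.Adj y b → G.Adj w0 b
      · -- (a2)
        have mN : MD G S {y, w0} := by
          refine ⟨?_, ?_, ?_⟩
          · rintro x (rfl | rfl)
            · exact hy.1
            · exact hw0
          · intro x hx
            rcases tri x hx with h | h | h | h
            · exact Or.inr ⟨w0, Or.inr rfl, h ▸ htw0.symm⟩
            · exact Or.inr ⟨y, Or.inl rfl, c1 y hy x h.1 h.2⟩
            · exact Or.inr ⟨y, Or.inl rfl, hWy x h⟩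
            · by_cases e : x = y
              · exact Or.inl (Or.inl e)
              by_cases e2 : G.Adj y x
              · exact Or.inr ⟨y, Or.inl rfl, e2⟩
              · exact Or.inr ⟨w0, Or.inr rfl, hw0B x h e e2⟩
          · rintro m (rfl | rfl)
            · refine ⟨k1, hIS hk1, Or.inr (c1 m hy k1 hk1 htk1), ?_⟩
              rintro m' (rfl | rfl) hne
              · exact absurd rfl hne
              · exact ⟨fun e => hw0I (e ▸ hk1), fun e => hkw0 k1 hk1 htk1 e.symm⟩
            · refine ⟨t, hIS ht, Or.inr htw0.symm, ?_⟩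
              rintro m' (rfl | rfl) hne
              · exact ⟨hyt.symm, fun e => nty e.symm⟩
              · exact absurd rfl hne
        have rN : Rel G {t, y} {y, w0} := by
          refine rel_intro t (Or.inl rfl) ?_ ?_ ?_
          · rintro (h | h)
            · exact hyt h.symm
            · exact wt w0 hw0W h.symm
          · rintro x (rfl | rfl)
            · exact Or.inl rfl
            · exact Or.inr (Or.inl rfl)
          · rintro x (rfl | rfl)
            · exact Or.inl (Or.inr rfl)
            · exact Or.inr htw0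
        have rN1 : Rel G {y, w0} M1 := by
          refine rel_intro y (Or.inl rfl) (fM1 y hy) ?_ ?_
          · rintro x (rfl | rfl)
            · exact Or.inl rfl
            · exact Or.inr (Or.inl hw0W)
          · rintro x (h | h)
            · exact Or.inr (hWy x h)
            · exact Or.inr (c1 y hy x h.1 h.2)
        refine Or.inr (Or.inl ⟨I, M1, {y, w0}, {t, y}, m0, m1, mN, mty, r01, rN1.symm, rN.symm,
          r0, ?_, ne1⟩)
        intro h
        exact fI y hy (h ▸ Or.inl rfl)
      · -- (a3)
        push Not at hw0B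
        obtain ⟨b, hb, hby, nyb, nwb⟩ := hw0B
        have tb : G.Adj t b := tB b hb hby
        have w0adj : ∀ f ∈ F, f ≠ b → G.Adj w0 f := by
          intro f hf hfb
          by_contra h
          exact hfb (c4 w0 hw0W f hf b hb h nwb)
        have Wbadj : ∀ w ∈ W, ¬ G.Adj w b → ∀ f ∈ F, f ≠ b → G.Adj w f := by
          intro w hw hwb f hf hfb
          by_contra h
          exact hfb (c4 w hw f hf b hb h hwb)
        -- nonneighbours of b in F are pairwise nonadjacent
        have Bb : ∀ x ∈ F, ∀ z ∈ F, x ≠ b → z ≠ b → ¬ G.Adj b x → ¬ G.Adj b z → ¬ G.Adj x z := by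
          intro x hx z hz hxb hzb nx nz hxz
          exact (hsl b hb.1).2 w0 ⟨hw0, fun e => fW b hb (e ▸ hw0W), fun e => nwb e.symm⟩ x
            ⟨hx.1, hxb, nx⟩ z ⟨hz.1, hzb, nz⟩ (w0adj x hx hxb) hxz (w0adj z hz hzb)
        -- nonneighbours of y in F are pairwise nonadjacent
        have By : ∀ x ∈ F, ∀ z ∈ F, x ≠ y → z ≠ y → ¬ G.Adj y x → ¬ G.Adj y z → ¬ G.Adj x z := by
          intro x hx z hz hxy hzy nx nz
          exact ca x hx.1 z hz.1 (tB x hx hxy) (tB z hz hzy) hxy hzy nx nz
        set N1 : Set V := {x | x = b ∨ (x ∈ W ∧ ¬ G.Adj b x)} with hN1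
        have mN1 : MD G S N1 := by
          apply md_of_ind
          · rintro x (h | h)
            · exact h ▸ hb.1
            · exact hWS x h.1
          · rintro x (hx | hx) z (hz | hz) hxz
            · subst hx; subst hz; exact loop _ hxz
            · subst hx; exact hz.2 hxz
            · subst hz; exact hx.2 hxz.symm
            · exact c2 x hx.1 z hz.1 hxz
          · intro x hx
            rcases tri x hx with h | h | h | h
            · exact Or.inr ⟨b, Or.inl rfl, h ▸ tb.symm⟩
            · exact Or.inr ⟨b, Or.inl rfl, c1 b hb x h.1 h.2⟩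
            · by_cases e : G.Adj b x
              · exact Or.inr ⟨b, Or.inl rfl, e⟩
              · exact Or.inl (Or.inr ⟨h, e⟩)
            · by_cases e : x = b
              · exact Or.inl (Or.inl e)
              · exact Or.inr ⟨w0, Or.inr ⟨hw0W, fun e => nwb e.symm⟩, w0adj x h e⟩
        have r1 : Rel G N1 M1 := by
          refine rel_intro b (Or.inl rfl) (fM1 b hb) ?_ ?_
          · rintro x (h | h)
            · exact Or.inl h
            · exact Or.inr (Or.inl h.1)
          · rintro x (h | h)
            · by_cases e : G.Adj b x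
              · exact Or.inr e
              · exact Or.inl (Or.inr ⟨h, e⟩)
            · exact Or.inr (c1 b hb x h.1 h.2)
        set N2 : Set V := {x | x = y ∨ (x ∈ F ∧ x ≠ y ∧ ¬ G.Adj y x)} with hN2
        have mN2 : MD G S N2 := by
          apply md_of_ind
          · rintro x (h | h)
            · exact h ▸ hy.1
            · exact hFS x h.1
          · rintro x (hx | hx) z (hz | hz) hxz
            · subst hx; subst hz; exact loop _ hxz
            · subst hx; exact hz.2.2 hxz
            · subst hz; exact hx.2.2 hxz.symm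
            · exact By x hx.1 z hz.1 hx.2.1 hz.2.1 hx.2.2 hz.2.2 hxz
          · intro x hx
            rcases tri x hx with h | h | h | h
            · exact Or.inr ⟨b, Or.inr ⟨hb, hby, nyb⟩, h ▸ tb.symm⟩
            · exact Or.inr ⟨y, Or.inl rfl, c1 y hy x h.1 h.2⟩
            · exact Or.inr ⟨y, Or.inl rfl, hWy x h⟩
            · by_cases e : x = y
              · exact Or.inl (Or.inl e)
              by_cases e2 : G.Adj y x
              · exact Or.inr ⟨y, Or.inl rfl, e2⟩
              · exact Or.inl (Or.inr ⟨h, e, e2⟩)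
        have r2 : Rel G {t, y} N2 := by
          refine rel_intro t (Or.inl rfl) ?_ ?_ ?_
          · rintro (h | h)
            · exact hyt h.symm
            · exact ft t h.1 rfl
          · rintro x (rfl | rfl)
            · exact Or.inl rfl
            · exact Or.inr (Or.inl rfl)
          · rintro x (h | h)
            · exact Or.inl (Or.inr h)
            · exact Or.inr (tB x h.1 h.2.1)
        -- N2 = {b} ∪ (nonneighbours of b in F)
        have N2b : ∀ x ∈ N2, x = b ∨ (x ∈ F ∧ ¬ G.Adj b x) := by
          rintro x (h | h)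
          · exact Or.inr ⟨h ▸ hy, h ▸ fun e => nyb e.symm⟩
          · exact Or.inr ⟨h.1, By b hb x h.1 hby h.2.1 nyb h.2.2⟩
        have bN2 : b ∈ N2 := Or.inr ⟨hb, hby, nyb⟩
        have r12 : Rel G N1 N2 := by
          by_cases hone : ∀ w ∈ W, ¬ G.Adj b w → w = w0
          · refine rel_intro w0 (Or.inr ⟨hw0W, fun e => nwb e.symm⟩) ?_ ?_ ?_
            · rintro (h | h)
              · exact fW y hy (h ▸ hw0W)
              · exact fW w0 h.1 hw0W
            · rintro x (h | h)
              · exact Or.inr (h ▸ bN2)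
              · exact Or.inl (hone x h.1 h.2)
            · intro x hx
              by_cases e : x = b
              · exact Or.inl (Or.inl e)
              · rcases N2b x hx with h | h
                · exact absurd h e
                · exact Or.inr (w0adj x h.1 e)
          · push Not at hone
            obtain ⟨w, hw, nbw, hww0⟩ := hone
            have hN2one : ∀ x ∈ N2, x = b ∨ x = y := by
              intro x hx
              by_contra hcon
              push Not at hcon
              rcases N2b x hx with h | h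
              · exact hcon.1 h
              · have := (hsl b hb.1).1 w ⟨hWS w hw, fun e => fW b hb (e ▸ hw), nbw⟩ x
                  ⟨h.1.1, hcon.1, h.2⟩ w0 ⟨hw0, fun e => fW b hb (e ▸ hw0W), fun e => nwb e.symm⟩ y
                  ⟨hy.1, hby.symm, fun e => nyb e.symm⟩ (Wbadj w hw (fun e => nbw e.symm) x h.1 hcon.1)
                  (w0adj y hy hby.symm)
                rcases this with e | e | e | e
                · exact hww0 e
                · exact fW y hy (e ▸ hw)
                · exact fW x h.1 (e ▸ hw0W)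
                · exact hcon.2 e
            apply Rel.symm
            refine rel_intro y (Or.inl rfl) ?_ ?_ ?_
            · rintro (h | h)
              · exact hby h.symm
              · exact fW y hy h.1
            · intro x hx
              rcases hN2one x hx with h | h
              · exact Or.inr (Or.inl h)
              · exact Or.inl h
            · rintro x (h | h)
              · exact Or.inl (h ▸ bN2)
              · exact Or.inr (hWy x h.1)
        exact Or.inr (Or.inr ⟨I, M1, N1, N2, {t, y}, m0, m1, mN1, mN2, mty, r01, r1.symm, r12,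
          r2.symm, r0⟩)
  · -- case (b)
    push Not at ha
    have nonF : ∀ f ∈ F, ∀ x ∈ Non G S f, x ∈ W ∨ x ∈ F := by
      intro f hf x hx
      rcases tri x hx.1 with h | h | h | h
      · exact absurd (h ▸ (ha f hf).symm) hx.2.2
      · exact absurd (c1 f hf x h.1 h.2) hx.2.2
      · exact Or.inl h
      · exact Or.inr h
    have tadj : ∀ x, x ∈ W ∨ x ∈ F → G.Adj t x := by
      rintro x (h | h)
      · exact wadj x h
      · exact ha x h
    have mtf : ∀ f ∈ F, MD G S {t, f} := by
      intro f hf
      refine ⟨?_, ?_, ?_⟩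
      · rintro x (rfl | rfl)
        · exact hIS ht
        · exact hf.1
      · intro x hx
        rcases tri x hx with h | h | h | h
        · exact Or.inl (Or.inl h)
        · exact Or.inr ⟨f, Or.inr rfl, c1 f hf x h.1 h.2⟩
        · exact Or.inr ⟨t, Or.inl rfl, wadj x h⟩
        · exact Or.inr ⟨t, Or.inl rfl, ha x h⟩
      · rintro m (rfl | rfl)
        · obtain ⟨x, hx, hxf, nfx⟩ := huniv f hf.1
          refine ⟨x, hx, Or.inr (tadj x (nonF f hf x ⟨hx, hxf, nfx⟩)), ?_⟩
          rintro m' (rfl | rfl) hne
          · exact absurd rfl hne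
          · exact ⟨hxf, nfx⟩
        · refine ⟨k1, hIS hk1, Or.inr (c1 m hf k1 hk1 htk1), ?_⟩
          rintro m' (rfl | rfl) hne
          · exact ⟨htk1, hI m' ht k1 hk1⟩
          · exact absurd rfl hne
    have r0 : ∀ f ∈ F, Rel G {t, f} I := by
      intro f hf
      refine rel_intro f (Or.inr rfl) (fI f hf) ?_ ?_
      · rintro x (rfl | rfl)
        · exact Or.inr ht
        · exact Or.inl rfl
      · intro x hx
        by_cases h : x = t
        · exact Or.inl (Or.inl h)
        · exact Or.inr (c1 f hf x hx h)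
    have ne1 : ∀ f ∈ F, M1 ≠ {t, f} := by
      intro f hf h
      exact tM1 (h ▸ Or.inl rfl)
    by_cases hb0 : ∃ f ∈ F, ∃ x ∈ Non G S f, ∃ z ∈ Non G S f, G.Adj x z
    · obtain ⟨f, hf, x, hx, z, hz, hxz⟩ := hb0
      obtain ⟨A, B, hA, hB, hAB⟩ := (hsl f hf.1).exists_rel hx hz hxz
      have hr : ∀ M, MD G (Non G S f) M → Rel G {t, f} (insert f M) := by
        intro M hM
        refine rel_intro t (Or.inl rfl) ?_ ?_ ?_
        · rintro (h | h)
          · exact ft f hf h.symm
          · exact loop t (tadj t (nonF f hf t (hM.1 h)))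
        · rintro x (rfl | rfl)
          · exact Or.inl rfl
          · exact Or.inr (Or.inl rfl)
        · rintro x (h | h)
          · exact Or.inl (Or.inr h)
          · exact Or.inr (tadj x (nonF f hf x (hM.1 h)))
      exact Or.inl ⟨{t, f}, insert f A, insert f B, mtf f hf, md_insert hf.1 hA, md_insert hf.1 hB,
        hr A hA, rel_insert (not_mem_of_md_non hA) (not_mem_of_md_non hB) hAB, (hr B hB).symm⟩
    · push Not at hb0
      obtain ⟨f, hf⟩ := c5
      by_cases hWf : ∃ w ∈ W, ¬ G.Adj f w
      · obtain ⟨w1, hw1, nfw1⟩ := hWf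
        have hB : ∀ b ∈ F, b ≠ f → G.Adj f b := by
          intro b hb hbf
          by_contra nfb
          have e1 : G.Adj w1 b := by
            by_contra h
            exact hbf (c4 w1 hw1 b hb f hf h (fun e => nfw1 e.symm))
          exact hb0 f hf w1 ⟨hWS w1 hw1, fun e => fW f hf (e ▸ hw1), nfw1⟩ b
            ⟨hFS b hb, hbf, nfb⟩ e1
        set N : Set V := {x | x = f ∨ (x ∈ W ∧ ¬ G.Adj f x)} with hN
        have mN : MD G S N := by
          apply md_of_ind
          · rintro x (h | h)
            · exact h ▸ hf.1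
            · exact hWS x h.1
          · rintro x (hx | hx) z (hz | hz) hxz
            · subst hx; subst hz; exact loop _ hxz
            · subst hx; exact hz.2 hxz
            · subst hz; exact hx.2 hxz.symm
            · exact c2 x hx.1 z hz.1 hxz
          · intro x hx
            rcases tri x hx with h | h | h | h
            · exact Or.inr ⟨w1, Or.inr ⟨hw1, nfw1⟩, h ▸ (wadj w1 hw1).symm⟩
            · exact Or.inr ⟨f, Or.inl rfl, c1 f hf x h.1 h.2⟩
            · by_cases e : G.Adj f x
              · exact Or.inr ⟨f, Or.inl rfl, e⟩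
              · exact Or.inl (Or.inr ⟨h, e⟩)
            · by_cases e : x = f
              · exact Or.inl (Or.inl e)
              · exact Or.inr ⟨f, Or.inl rfl, hB x h e⟩
        have rN : Rel G {t, f} N := by
          refine rel_intro t (Or.inl rfl) ?_ ?_ ?_
          · rintro (h | h)
            · exact ft f hf h.symm
            · exact wt t h.1 rfl
          · rintro x (rfl | rfl)
            · exact Or.inl rfl
            · exact Or.inr (Or.inl rfl)
          · rintro x (h | h)
            · exact Or.inl (Or.inr h)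
            · exact Or.inr (wadj x h.1)
        have rN1 : Rel G N M1 := by
          refine rel_intro f (Or.inl rfl) (fM1 f hf) ?_ ?_
          · rintro x (h | h)
            · exact Or.inl h
            · exact Or.inr (Or.inl h.1)
          · rintro x (h | h)
            · by_cases e : G.Adj f x
              · exact Or.inr e
              · exact Or.inl (Or.inr ⟨h, e⟩)
            · exact Or.inr (c1 f hf x h.1 h.2)
        refine Or.inr (Or.inl ⟨I, M1, N, {t, f}, m0, m1, mN, mtf f hf, r01, rN1.symm, rN.symm,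
          r0 f hf, ?_, ne1 f hf⟩)
        intro h
        exact fI f hf (h ▸ Or.inl rfl)
      · push Not at hWf
        have hw0B : ∀ b ∈ F, b ≠ f → ¬ G.Adj f b → G.Adj w0 b := by
          intro b hb hbf nfb
          by_contra h
          exact hb0 b hb w0 ⟨hw0, fun e => fW b hb (e ▸ hw0W), fun e => h e.symm⟩ f
            ⟨hf.1, hbf.symm, fun e => nfb e.symm⟩ (hWf w0 hw0W).symm
        have mN : MD G S {f, w0} := by
          refine ⟨?_, ?_, ?_⟩
          · rintro x (rfl | rfl)
            · exact hf.1
            · exact hw0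
          · intro x hx
            rcases tri x hx with h | h | h | h
            · exact Or.inr ⟨w0, Or.inr rfl, h ▸ htw0.symm⟩
            · exact Or.inr ⟨f, Or.inl rfl, c1 f hf x h.1 h.2⟩
            · exact Or.inr ⟨f, Or.inl rfl, hWf x h⟩
            · by_cases e : x = f
              · exact Or.inl (Or.inl e)
              by_cases e2 : G.Adj f x
              · exact Or.inr ⟨f, Or.inl rfl, e2⟩
              · exact Or.inr ⟨w0, Or.inr rfl, hw0B x h e e2⟩
          · rintro m (rfl | rfl)
            · refine ⟨k1, hIS hk1, Or.inr (c1 m hf k1 hk1 htk1), ?_⟩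
              rintro m' (rfl | rfl) hne
              · exact absurd rfl hne
              · exact ⟨fun e => hw0I (e ▸ hk1), fun e => hkw0 k1 hk1 htk1 e.symm⟩
            · obtain ⟨x, hx, hxf, nfx⟩ := huniv f hf.1
              have hxF : x ∈ F := by
                rcases nonF f hf x ⟨hx, hxf, nfx⟩ with h | h
                · exact absurd (hWf x h) nfx
                · exact h
              refine ⟨x, hx, Or.inr (hw0B x hxF hxf nfx), ?_⟩
              rintro m' (rfl | rfl) hne
              · exact ⟨hxf, nfx⟩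
              · exact absurd rfl hne
        have rN : Rel G {t, f} {f, w0} := by
          refine rel_intro t (Or.inl rfl) ?_ ?_ ?_
          · rintro (h | h)
            · exact ft f hf h.symm
            · exact wt w0 hw0W h.symm
          · rintro x (rfl | rfl)
            · exact Or.inl rfl
            · exact Or.inr (Or.inl rfl)
          · rintro x (rfl | rfl)
            · exact Or.inl (Or.inr rfl)
            · exact Or.inr htw0
        have rN1 : Rel G {f, w0} M1 := by
          refine rel_intro f (Or.inl rfl) (fM1 f hf) ?_ ?_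
          · rintro x (rfl | rfl)
            · exact Or.inl rfl
            · exact Or.inr (Or.inl hw0W)
          · rintro x (h | h)
            · exact Or.inr (hWf x h)
            · exact Or.inr (c1 f hf x h.1 h.2)
        refine Or.inr (Or.inl ⟨I, M1, {f, w0}, {t, f}, m0, m1, mN, mtf f hf, r01, rN1.symm, rN.symm,
          r0 f hf, ?_, ne1 f hf⟩)
        intro h
        exact fI f hf (h ▸ Or.inl rfl)

end Q106.Reconf
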