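import Pool.Agent.Q106.Reconf3

set_option autoImplicit false

namespace Q106.Reconf

variable {V : Type*} {G : SimpleGraph V}

theorem case_S2 [Finite V] {S I : Set V} (hns : ¬ SL G S)
    (huniv : ∀ a ∈ S, ∃ x ∈ S, x ≠ a ∧ ¬ G.Adj a x)
    (hsl : ∀ a ∈ S, SL G (Non G S a))
    (hIS : I ⊆ S) (hI : Ind G I) (hdom : Dom G S I)
    {i1 i2 i3 : V} (hi1 : i1 ∈ I) (hi2 : i2 ∈ I) (hi3 : i3 ∈ I) (h12 : i1 ≠ i2) (h13 : i1 ≠ i3)
    (h23 : i2 ≠ i3)
    (hno : ∀ I' : Set V, I' ⊆ S → Ind G I' → Dom G S I' → ∀ t ∈ I', ∀ k1 ∈ I', ∀ k2 ∈ I',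
      k1 ≠ t → k2 ≠ t → k1 ≠ k2 → ∀ w ∈ S, w ∉ I' → G.Adj t w →
        ∃ k ∈ I', k ≠ t ∧ G.Adj k w) : SC G S := by
  have loop : ∀ a, ¬ G.Adj a a := G.loopless.irrefl
  set F : Set V := {f | f ∈ S ∧ f ∉ I} with hF
  have fI : ∀ f ∈ F, f ∉ I := fun f hf => hf.2
  -- every vertex of F has two neighbours in I
  have two : ∀ f ∈ F, ∃ s ∈ I, ∃ s' ∈ I, s ≠ s' ∧ G.Adj s f ∧ G.Adj s' f := by
    intro f hf
    rcases hdom f hf.1 with h | ⟨s, hs, hsf⟩
    · exact absurd h hf.2
    · have hex : ∃ a ∈ I, ∃ b ∈ I, a ≠ s ∧ b ≠ s ∧ a ≠ b := by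
        by_cases e1 : s = i1
        · exact ⟨i2, hi2, i3, hi3, e1 ▸ h12.symm, e1 ▸ h13.symm, h23⟩
        · by_cases e2 : s = i2
          · exact ⟨i1, hi1, i3, hi3, fun e => e1 e.symm, e2 ▸ h23.symm, h13⟩
          · exact ⟨i1, hi1, i2, hi2, fun e => e1 e.symm, fun e => e2 e.symm, h12⟩
      obtain ⟨a, ha, b, hb, has, hbs, hab⟩ := hex
      obtain ⟨k, hk, hks, hkf⟩ := hno I hIS hI hdom s hs a ha b hb has hbs hab f hf.1 hf.2 hsf
      exact ⟨s, hs, k, hk, hks.symm, hsf, hkf⟩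
  -- each k in I is missed by at most one vertex of F
  have c1 : ∀ k ∈ I, ∀ x ∈ F, ∀ x' ∈ F, ¬ G.Adj k x → ¬ G.Adj k x' → x = x' := by
    intro k hk x hx x' hx' h1 h2
    by_contra hne
    obtain ⟨s, hs, s', hs', hss, hsx, hsx'⟩ := two x hx
    obtain ⟨r, hr, r', hr', hrr, hrx, hrx'⟩ := two x' hx'
    have key : ∀ u ∈ I, ∀ u' ∈ I, G.Adj u x → G.Adj u' x' → u = u' := by
      intro u hu u' hu' hux hux'
      have e1 : u ≠ k := fun e => h1 (e ▸ hux)
      have e2 : u' ≠ k := fun e => h2 (e ▸ hux')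
      have := (hsl k (hIS hk)).1 u ⟨hIS hu, e1, hI k hk u hu⟩ x
        ⟨hx.1, fun e => hx.2 (e ▸ hk), h1⟩ u' ⟨hIS hu', e2, hI k hk u' hu'⟩ x'
        ⟨hx'.1, fun e => hx'.2 (e ▸ hk), h2⟩ hux hux'
      rcases this with h | h | h | h
      · exact h
      · exact absurd (h ▸ hu) hx'.2
      · exact absurd (h ▸ hu') hx.2
      · exact absurd h hne
    exact hrr ((key s hs r hr hsx hrx).symm.trans (key s hs r' hr' hsx hrx'))
  -- each vertex of F misses at most one k
  have c2 : ∀ y ∈ F, ∀ k ∈ I, ∀ k' ∈ I, ¬ G.Adj y k → ¬ G.Adj y k' → k = k' := by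
    intro y hy k hk k' hk' h1 h2
    by_contra hne
    set N : Set V := {x | x = y ∨ (x ∈ I ∧ ¬ G.Adj y x)} with hN
    obtain ⟨s, hs, s', hs', hss, hsy, hsy'⟩ := two y hy
    have sN : s ∉ N := by
      rintro (h | h)
      · exact hy.2 (h ▸ hs)
      · exact h.2 hsy.symm
    have := hno N ?_ ?_ ?_ y (Or.inl rfl) k (Or.inr ⟨hk, h1⟩) k' (Or.inr ⟨hk', h2⟩)
      (fun e => hy.2 (e ▸ hk)) (fun e => hy.2 (e ▸ hk')) hne s (hIS hs) sN hsy.symm
    · obtain ⟨z, hz, hzy, hzs⟩ := this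
      rcases hz with h | h
      · exact hzy h
      · exact hI z h.1 s hs hzs
    · rintro x (h | h)
      · exact h ▸ hy.1
      · exact hIS h.1
    · rintro x (hx | hx) z (hz | hz) hxz
      · subst hx; subst hz; exact loop _ hxz
      · subst hx; exact hz.2 hxz
      · subst hz; exact hx.2 hxz.symm
      · exact hI x hx.1 z hz.1 hxz
    · intro x hx
      by_cases hxI : x ∈ I
      · by_cases e : G.Adj y x
        · exact Or.inr ⟨y, Or.inl rfl, e⟩
        · exact Or.inl (Or.inr ⟨hxI, e⟩)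
      · by_cases e : x = y
        · exact Or.inl (Or.inl e)
        · refine Or.inr ⟨k, Or.inr ⟨hk, h1⟩, ?_⟩
          by_contra h
          exact e (c1 k hk x ⟨hx, hxI⟩ y hy h (fun e' => h1 e'.symm))
  have m0 : MD G S I := md_of_ind hIS hI hdom
  -- the pairs {y, k} with y missing k
  have c1' : ∀ y ∈ F, ∀ k ∈ I, ¬ G.Adj y k → ∀ x ∈ F, x ≠ y → G.Adj k x := by
    intro y hy k hk hyk x hx hxy
    by_contra h
    exact hxy (c1 k hk x hx y hy h (fun e => hyk e.symm))
  have c2' : ∀ y ∈ F, ∀ k ∈ I, ¬ G.Adj y k → ∀ k' ∈ I, k' ≠ k → G.Adj y k' := by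
    intro y hy k hk hyk k' hk' hkk
    by_contra h
    exact hkk (c2 y hy k' hk' k hk h hyk)
  have mM : ∀ y ∈ F, ∀ k ∈ I, ¬ G.Adj y k → MD G S {y, k} := by
    intro y hy k hk hyk
    apply md_of_ind
    · rintro x (rfl | rfl)
      · exact hy.1
      · exact hIS hk
    · rintro x (rfl | rfl) z (rfl | rfl) h
      · exact loop _ h
      · exact hyk h
      · exact hyk h.symm
      · exact loop _ h
    · intro x hx
      by_cases hxI : x ∈ I
      · by_cases e : x = k
        · exact Or.inl (Or.inr e)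
        · exact Or.inr ⟨y, Or.inl rfl, c2' y hy k hk hyk x hxI e⟩
      · by_cases e : x = y
        · exact Or.inl (Or.inl e)
        · exact Or.inr ⟨k, Or.inr rfl, c1' y hy k hk hyk x ⟨hx, hxI⟩ e⟩
  have rM : ∀ y ∈ F, ∀ k ∈ I, ¬ G.Adj y k → Rel G {y, k} I := by
    intro y hy k hk hyk
    refine rel_intro y (Or.inl rfl) hy.2 ?_ ?_
    · rintro x (rfl | rfl)
      · exact Or.inl rfl
      · exact Or.inr hk
    · intro x hx
      by_cases e : x = k
      · exact Or.inl (Or.inr e)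
      · exact Or.inr (c2' y hy k hk hyk x hx e)
  -- nonneighbours of y in F are pairwise nonadjacent
  have hB : ∀ y ∈ F, ∀ k ∈ I, ¬ G.Adj y k → ∀ x ∈ F, ∀ z ∈ F, x ≠ y → z ≠ y → ¬ G.Adj y x →
      ¬ G.Adj y z → ¬ G.Adj x z := by
    intro y hy k hk hyk x hx z hz hxy hzy nx nz hxz
    exact (hsl y hy.1).2 k ⟨hIS hk, fun e => hy.2 (e ▸ hk), hyk⟩ x ⟨hx.1, hxy, nx⟩ z
      ⟨hz.1, hzy, nz⟩ (c1' y hy k hk hyk x hx hxy) hxz (c1' y hy k hk hyk z hz hzy)
  -- Q y
  have mQ : ∀ y ∈ F, ∀ k ∈ I, ¬ G.Adj y k → (∃ b ∈ F, b ≠ y ∧ ¬ G.Adj y b) →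
      MD G S {x | x = y ∨ (x ∈ F ∧ x ≠ y ∧ ¬ G.Adj y x)} := by
    intro y hy k hk hyk ⟨b, hb, hby, nyb⟩
    apply md_of_ind
    · rintro x (h | h)
      · exact h ▸ hy.1
      · exact h.1.1
    · rintro x (hx | hx) z (hz | hz) hxz
      · subst hx; subst hz; exact loop _ hxz
      · subst hx; exact hz.2.2 hxz
      · subst hz; exact hx.2.2 hxz.symm
      · exact hB y hy k hk hyk x hx.1 z hz.1 hx.2.1 hz.2.1 hx.2.2 hz.2.2 hxz
    · intro x hx
      by_cases hxI : x ∈ I
      · by_cases e : x = k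
        · exact Or.inr ⟨b, Or.inr ⟨hb, hby, nyb⟩, e ▸ (c1' y hy k hk hyk b hb hby).symm⟩
        · exact Or.inr ⟨y, Or.inl rfl, c2' y hy k hk hyk x hxI e⟩
      · by_cases e : x = y
        · exact Or.inl (Or.inl e)
        by_cases e2 : G.Adj y x
        · exact Or.inr ⟨y, Or.inl rfl, e2⟩
        · exact Or.inl (Or.inr ⟨⟨hx, hxI⟩, e, e2⟩)
  have rQ : ∀ y ∈ F, ∀ k ∈ I, ¬ G.Adj y k → 
      Rel G {y, k} {x | x = y ∨ (x ∈ F ∧ x ≠ y ∧ ¬ G.Adj y x)} := by
    intro y hy k hk hyk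
    refine rel_intro k (Or.inr rfl) ?_ ?_ ?_
    · rintro (h | h)
      · exact hy.2 (h ▸ hk)
      · exact h.1.2 hk
    · rintro x (rfl | rfl)
      · exact Or.inr (Or.inl rfl)
      · exact Or.inl rfl
    · rintro x (h | h)
      · exact Or.inl (Or.inl h)
      · exact Or.inr (c1' y hy k hk hyk x h.1 h.2.1)
  by_cases hi : ∃ y1 ∈ F, ∃ k1 ∈ I, ∃ y2 ∈ F, ∃ k2 ∈ I, y1 ≠ y2 ∧ ¬ G.Adj y1 k1 ∧ ¬ G.Adj y2 k2
  · -- case (i)
    obtain ⟨y1, hy1, k1, hk1, y2, hy2, k2, hk2, hy12, n1, n2⟩ := hi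
    have neM : ({y1, k1} : Set V) ≠ {y2, k2} := by
      intro h
      have : y1 ∈ ({y2, k2} : Set V) := h ▸ Or.inl rfl
      rcases this with e | e
      · exact hy12 e
      · exact hy1.2 (e ▸ hk2)
    have hk12 : k1 ≠ k2 := by
      intro e
      exact hy12 (c1 k1 hk1 y1 hy1 y2 hy2 (fun e' => n1 e'.symm) (fun e' => n2 (e ▸ e'.symm)))
    by_cases hadj : G.Adj y1 y2
    · by_cases hx : ∃ x ∈ F, x ≠ y1 ∧ x ≠ y2 ∧ ¬ G.Adj y1 x ∧ ¬ G.Adj y2 x
      · obtain ⟨x, hx, hx1, hx2, nx1, nx2⟩ := hx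
        have mQ1 := mQ y1 hy1 k1 hk1 n1 ⟨x, hx, hx1, nx1⟩
        have mQ2 := mQ y2 hy2 k2 hk2 n2 ⟨x, hx, hx2, nx2⟩
        have key : ∀ y y' : V, y ∈ F → y' ∈ F → y ≠ y' → G.Adj y y' →
            (∀ z ∈ F, z ≠ y' → ¬ G.Adj y' z → z ≠ y ∧ ¬ G.Adj y z) →
            Rel G {x | x = y ∨ (x ∈ F ∧ x ≠ y ∧ ¬ G.Adj y x)}
              {x | x = y' ∨ (x ∈ F ∧ x ≠ y' ∧ ¬ G.Adj y' x)} := by
          intro y y' hy hy' hne hyy' hsub
          apply Rel.symm
          refine rel_intro y' (Or.inl rfl) ?_ ?_ ?_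
          · rintro (h | h)
            · exact hne h.symm
            · exact h.2.2 hyy'
          · rintro z (h | h)
            · exact Or.inl h
            · exact Or.inr (Or.inr ⟨h.1, (hsub z h.1 h.2.1 h.2.2).1, (hsub z h.1 h.2.1 h.2.2).2⟩)
          · rintro z (h | h)
            · exact Or.inr (h ▸ hyy'.symm)
            · by_cases e : G.Adj y' z
              · exact Or.inr e
              · refine Or.inl (Or.inr ⟨h.1, ?_, e⟩)
                intro e'
                exact h.2.2 (e' ▸ hyy')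
        have r12 : Rel G {x | x = y1 ∨ (x ∈ F ∧ x ≠ y1 ∧ ¬ G.Adj y1 x)}
            {x | x = y2 ∨ (x ∈ F ∧ x ≠ y2 ∧ ¬ G.Adj y2 x)} := by
          by_cases h1 : ∀ z ∈ F, z ≠ y2 → ¬ G.Adj y2 z → z ≠ y1 ∧ ¬ G.Adj y1 z
          · exact key y1 y2 hy1 hy2 hy12 hadj h1
          by_cases h2 : ∀ z ∈ F, z ≠ y1 → ¬ G.Adj y1 z → z ≠ y2 ∧ ¬ G.Adj y2 z
          · exact (key y2 y1 hy2 hy1 hy12.symm hadj.symm h2).symm
          exfalso
          push Not at h1 h2
          obtain ⟨z', hz', hz'2, nz'2, hz'1⟩ := h1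
          obtain ⟨z, hz, hz1, nz1, hz2⟩ := h2
          have z'1 : z' ≠ y1 := fun e => nz'2 (e ▸ hadj.symm)
          have z2 : z ≠ y2 := fun e => nz1 (e ▸ hadj)
          have az'1 := hz'1 z'1
          have az2 := hz2 z2
          have zx : ¬ G.Adj x z := hB y1 hy1 k1 hk1 n1 x hx z hz hx1 hz1 nx1 nz1
          have z'x : ¬ G.Adj x z' := hB y2 hy2 k2 hk2 n2 x hx z' hz' hx2 hz'2 nx2 nz'2
          have hzx : z ≠ x := fun e => nx2 (e ▸ az2)
          have hz'x : z' ≠ x := fun e => nx1 (e ▸ az'1)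
          have := (hsl x hx.1).1 z ⟨hz.1, hzx, zx⟩ y2 ⟨hy2.1, hx2.symm, fun e => nx2 e.symm⟩
            z' ⟨hz'.1, hz'x, z'x⟩ y1 ⟨hy1.1, hx1.symm, fun e => nx1 e.symm⟩ az2.symm az'1.symm
          rcases this with e | e | e | e
          · exact nz1 (e ▸ az'1)
          · exact hz1 e
          · exact hz'2 e.symm
          · exact hy12 e.symm
        exact Or.inr (Or.inr ⟨I, {y1, k1}, _, _, {y2, k2}, m0, mM y1 hy1 k1 hk1 n1, mQ1, mQ2,
          mM y2 hy2 k2 hk2 n2, (rM y1 hy1 k1 hk1 n1).symm, rQ y1 hy1 k1 hk1 n1, r12,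
          (rQ y2 hy2 k2 hk2 n2).symm, rM y2 hy2 k2 hk2 n2⟩)
      · push Not at hx
        have mP : MD G S {y1, y2} := by
          refine ⟨?_, ?_, ?_⟩
          · rintro x (rfl | rfl)
            · exact hy1.1
            · exact hy2.1
          · intro x hxS
            by_cases hxI : x ∈ I
            · by_cases e : G.Adj y1 x
              · exact Or.inr ⟨y1, Or.inl rfl, e⟩
              · refine Or.inr ⟨y2, Or.inr rfl, ?_⟩
                exact (c1' y1 hy1 x hxI e y2 hy2 hy12.symm).symm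
            · by_cases e1 : x = y1
              · exact Or.inl (Or.inl e1)
              by_cases e2 : x = y2
              · exact Or.inl (Or.inr e2)
              by_cases e3 : G.Adj y1 x
              · exact Or.inr ⟨y1, Or.inl rfl, e3⟩
              · exact Or.inr ⟨y2, Or.inr rfl, hx x ⟨hxS, hxI⟩ e1 e2 e3⟩
          · rintro m (rfl | rfl)
            · refine ⟨k2, hIS hk2, Or.inr (c2' m hy1 k1 hk1 n1 k2 hk2 hk12.symm), ?_⟩
              rintro m' (rfl | rfl) hne
              · exact absurd rfl hne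
              · exact ⟨fun e => hy2.2 (e ▸ hk2), n2⟩
            · refine ⟨k1, hIS hk1, Or.inr (c2' m hy2 k2 hk2 n2 k1 hk1 hk12), ?_⟩
              rintro m' (rfl | rfl) hne
              · exact ⟨fun e => hy1.2 (e ▸ hk1), n1⟩
              · exact absurd rfl hne
        have r1 : Rel G {y1, y2} {y1, k1} := by
          refine rel_intro y2 (Or.inr rfl) ?_ ?_ ?_
          · rintro (h | h)
            · exact hy12 h.symm
            · exact hy2.2 (h ▸ hk1)
          · rintro x (rfl | rfl)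
            · exact Or.inr (Or.inl rfl)
            · exact Or.inl rfl
          · rintro x (rfl | rfl)
            · exact Or.inl (Or.inl rfl)
            · exact Or.inr (c2' y2 hy2 k2 hk2 n2 x hk1 hk12)
        have r2 : Rel G {y1, y2} {y2, k2} := by
          refine rel_intro y1 (Or.inl rfl) ?_ ?_ ?_
          · rintro (h | h)
            · exact hy12 h
            · exact hy1.2 (h ▸ hk2)
          · rintro x (rfl | rfl)
            · exact Or.inl rfl
            · exact Or.inr (Or.inl rfl)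
          · rintro x (rfl | rfl)
            · exact Or.inl (Or.inr rfl)
            · exact Or.inr (c2' y1 hy1 k1 hk1 n1 x hk2 hk12.symm)
        refine Or.inr (Or.inl ⟨I, {y1, k1}, {y1, y2}, {y2, k2}, m0, mM y1 hy1 k1 hk1 n1, mP,
          mM y2 hy2 k2 hk2 n2, (rM y1 hy1 k1 hk1 n1).symm, r1.symm, r2, rM y2 hy2 k2 hk2 n2,
          ?_, neM⟩)
        intro h
        exact hy1.2 (h ▸ Or.inl rfl)
    · have mQ1 := mQ y1 hy1 k1 hk1 n1 ⟨y2, hy2, hy12.symm, hadj⟩
      have rQ2 : Rel G {y2, k2} {x | x = y1 ∨ (x ∈ F ∧ x ≠ y1 ∧ ¬ G.Adj y1 x)} := by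
        refine rel_intro k2 (Or.inr rfl) ?_ ?_ ?_
        · rintro (h | h)
          · exact hy1.2 (h ▸ hk2)
          · exact h.1.2 hk2
        · rintro x (rfl | rfl)
          · exact Or.inr (Or.inr ⟨hy2, hy12.symm, hadj⟩)
          · exact Or.inl rfl
        · rintro x (h | h)
          · exact Or.inr (c1' y2 hy2 k2 hk2 n2 x (h ▸ hy1) (h ▸ hy12))
          · by_cases e : x = y2
            · exact Or.inl (Or.inl e)
            · exact Or.inr (c1' y2 hy2 k2 hk2 n2 x h.1 e)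
      refine Or.inr (Or.inl ⟨I, {y1, k1}, _, {y2, k2}, m0, mM y1 hy1 k1 hk1 n1, mQ1,
        mM y2 hy2 k2 hk2 n2, (rM y1 hy1 k1 hk1 n1).symm, rQ y1 hy1 k1 hk1 n1, rQ2.symm,
        rM y2 hy2 k2 hk2 n2, ?_, neM⟩)
      intro h
      exact hy1.2 (h ▸ Or.inl rfl)
  · -- case (ii)
    push Not at hi
    have hfull : ∃ x ∈ F, ∀ k ∈ I, G.Adj x k := by
      by_contra hcon
      push Not at hcon
      apply hns
      by_cases hFe : ∃ y, y ∈ F
      · obtain ⟨y, hy⟩ := hFe
        obtain ⟨k, hk, nyk⟩ := hcon y hy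
        have honly : ∀ x ∈ F, x = y := by
          intro x hx
          by_contra hxy
          obtain ⟨k', hk', nxk'⟩ := hcon x hx
          exact nxk' (hi y hy k hk x hx k' hk' (fun e => hxy e.symm) nyk)
        have hall : ∀ a ∈ S, ∀ b ∈ S, G.Adj a b → a = y ∨ b = y := by
          intro a ha b hb hab
          by_cases h1 : a ∈ I
          · by_cases h2 : b ∈ I
            · exact absurd hab (hI a h1 b h2)
            · exact Or.inr (honly b ⟨hb, h2⟩)
          · exact Or.inl (honly a ⟨ha, h1⟩)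
        constructor
        · intro x hx z hz a ha b hb hxz hab
          have := hall x hx z hz hxz
          have := hall a ha b hb hab
          grind
        · intro x hx z hz a ha hxz hza hxa
          have := hall x hx z hz hxz
          have := hall z hz a ha hza
          have := hall x hx a ha hxa
          have := hxz.ne
          have := hza.ne
          have := hxa.ne
          grind
      · push Not at hFe
        have hnone : ∀ a ∈ S, ∀ b ∈ S, ¬ G.Adj a b := by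
          intro a ha b hb hab
          have h1 : a ∈ I := by
            by_contra h
            exact hFe a ⟨ha, h⟩
          have h2 : b ∈ I := by
            by_contra h
            exact hFe b ⟨hb, h⟩
          exact hI a h1 b h2 hab
        exact ⟨fun x hx z hz a ha b hb hxz => absurd hxz (hnone x hx z hz),
          fun x hx z hz a ha hxz => absurd hxz (hnone x hx z hz)⟩
    obtain ⟨x, hx, hxfull⟩ := hfull
    -- two elements of I adjacent to all of F
    have htwo : ∃ k ∈ I, ∃ k' ∈ I, k ≠ k' ∧ (∀ f ∈ F, G.Adj k f) ∧ (∀ f ∈ F, G.Adj k' f) := by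
      by_cases hnf : ∃ y ∈ F, ∃ ky ∈ I, ¬ G.Adj y ky
      · obtain ⟨y, hy, ky, hky, nyk⟩ := hnf
        have hgood : ∀ k ∈ I, k ≠ ky → ∀ f ∈ F, G.Adj k f := by
          intro k hk hkk f hf
          by_contra h
          by_cases e : f = y
          · subst e
            exact hkk (c2 f hf k hk ky hky (fun e' => h e'.symm) nyk)
          · exact h (hi y hy ky hky f hf k hk (fun e' => e e'.symm) nyk).symm
        by_cases e1 : i1 = ky
        · exact ⟨i2, hi2, i3, hi3, h23, hgood i2 hi2 (e1 ▸ h12.symm), hgood i3 hi3 (e1 ▸ h13.symm)⟩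
        · by_cases e2 : i2 = ky
          · exact ⟨i1, hi1, i3, hi3, h13, hgood i1 hi1 e1, hgood i3 hi3 (e2 ▸ h23.symm)⟩
          · exact ⟨i1, hi1, i2, hi2, h12, hgood i1 hi1 e1, hgood i2 hi2 e2⟩
      · push Not at hnf
        exact ⟨i1, hi1, i2, hi2, h12, fun f hf => (hnf f hf i1 hi1).symm,
          fun f hf => (hnf f hf i2 hi2).symm⟩
    obtain ⟨k, hk, k', hk', hkk, hkF, hkF'⟩ := htwo
    -- nonneighbours of x
    have hNonF : ∀ z ∈ Non G S x, z ∈ F := by
      intro z hz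
      refine ⟨hz.1, fun h => hz.2.2 (hxfull z h)⟩
    obtain ⟨U, -, hU1, hU2, hU3⟩ := exists_mis (G := G) (S := Non G S x) (A := ∅)
      (Set.empty_subset _) (fun a ha => absurd ha (Set.notMem_empty a))
    have mU : MD G S (insert x U) := md_insert hx.1 (md_of_ind hU1 hU2 hU3)
    have mk : ∀ k ∈ I, ∀ k' ∈ I, k ≠ k' → (∀ f ∈ F, G.Adj k f) → MD G S {x, k} := by
      intro k hk k' hk' hkk hkF
      refine ⟨?_, ?_, ?_⟩
      · rintro z (rfl | rfl)
        · exact hx.1
        · exact hIS hk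
      · intro z hz
        by_cases h : z ∈ I
        · exact Or.inr ⟨x, Or.inl rfl, hxfull z h⟩
        · exact Or.inr ⟨k, Or.inr rfl, hkF z ⟨hz, h⟩⟩
      · rintro m (rfl | rfl)
        · refine ⟨k', hIS hk', Or.inr (hxfull k' hk'), ?_⟩
          rintro m' (rfl | rfl) hne
          · exact absurd rfl hne
          · exact ⟨hkk.symm, hI m' hk k' hk'⟩
        · obtain ⟨z, hz, hzx, nxz⟩ := huniv x hx.1
          refine ⟨z, hz, Or.inr (hkF z (hNonF z ⟨hz, hzx, nxz⟩)), ?_⟩
          rintro m' (rfl | rfl) hne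
          · exact ⟨hzx, nxz⟩
          · exact absurd rfl hne
    have rk : ∀ k ∈ I, Rel G {x, k} I := by
      intro k hk
      refine rel_intro x (Or.inl rfl) hx.2 ?_ ?_
      · rintro z (rfl | rfl)
        · exact Or.inl rfl
        · exact Or.inr hk
      · intro z hz
        exact Or.inr (hxfull z hz)
    have rkU : ∀ k ∈ I, (∀ f ∈ F, G.Adj k f) → Rel G {x, k} (insert x U) := by
      intro k hk hkF
      refine rel_intro k (Or.inr rfl) ?_ ?_ ?_
      · rintro (h | h)
        · exact hx.2 (h ▸ hk)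
        · exact (hNonF k (hU1 h)).2 hk
      · rintro z (rfl | rfl)
        · exact Or.inr (Or.inl rfl)
        · exact Or.inl rfl
      · rintro z (h | h)
        · exact Or.inl (Or.inl h)
        · exact Or.inr (hkF z (hNonF z (hU1 h)))
    refine Or.inr (Or.inl ⟨I, {x, k}, insert x U, {x, k'}, m0, mk k hk k' hk' hkk hkF, mU,
      mk k' hk' k hk hkk.symm hkF', (rk k hk).symm, rkU k hk hkF, (rkU k' hk' hkF').symm,
      rk k' hk', ?_, ?_⟩)
    · intro h
      exact hx.2 (h ▸ Or.inl rfl)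
    · intro h
      have : k ∈ ({x, k'} : Set V) := h ▸ Or.inr rfl
      rcases this with e | e
      · exact hx.2 (e ▸ hk)
      · exact hkk e

/-- **Main theorem** (relative form): if the induced subgraph on `S` is not star-like, then its
reconfiguration graph contains a cycle of length at most `5`. -/
theorem main [Finite V] : ∀ (n : ℕ) (S : Set V), S.ncard = n → ¬ SL G S → SC G S := by
  intro n
  induction n using Nat.strong_induction_on with
  | _ n ih =>
    intro S hn hns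
    have hfin : S.Finite := Set.toFinite S
    by_cases hsl : ∀ a ∈ S, SL G (Non G S a)
    · by_cases huniv : ∀ a ∈ S, ∃ x ∈ S, x ≠ a ∧ ¬ G.Adj a x
      · by_cases h3 : ∃ a ∈ S, ∃ b ∈ S, ∃ c ∈ S, a ≠ b ∧ a ≠ c ∧ b ≠ c ∧ ¬ G.Adj a b ∧
            ¬ G.Adj a c ∧ ¬ G.Adj b c
        · obtain ⟨a, ha, b, hb, c, hc, hab, hac, hbc, nab, nac, nbc⟩ := h3
          by_cases hS1 : ∃ I' : Set V, I' ⊆ S ∧ Ind G I' ∧ Dom G S I' ∧ ∃ t ∈ I', ∃ k1 ∈ I',
              ∃ k2 ∈ I', k1 ≠ t ∧ k2 ≠ t ∧ k1 ≠ k2 ∧ ∃ w ∈ S, w ∉ I' ∧ G.Adj t w ∧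
              ∀ k ∈ I', k ≠ t → ¬ G.Adj k w
          · obtain ⟨I', h1, h2, h3, t, ht, k1, hk1, k2, hk2, e1, e2, e3, w, hw, hwI, htw, hkw⟩ := hS1
            exact case_S1 hns huniv hsl h1 h2 h3 ht hk1 hk2 e1 e2 e3 hw hwI htw hkw
          · push Not at hS1
            obtain ⟨I, hA, h1, h2, h3⟩ := exists_mis (G := G) (S := S) (A := {a, b, c}) (by
              rintro x (rfl | rfl | rfl) <;> assumption) (by
              rintro x (rfl | rfl | rfl) y (rfl | rfl | rfl) h
              · exact G.loopless.irrefl _ h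
              · exact nab h
              · exact nac h
              · exact nab h.symm
              · exact G.loopless.irrefl _ h
              · exact nbc h
              · exact nac h.symm
              · exact nbc h.symm
              · exact G.loopless.irrefl _ h)
            exact case_S2 hns huniv hsl h1 h2 h3 (hA (Or.inl rfl)) (hA (Or.inr (Or.inl rfl)))
              (hA (Or.inr (Or.inr rfl))) hab hac hbc hS1
        · push Not at h3
          refine case_small hns huniv hsl ?_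
          intro a ha b hb c hc hab hac hbc nab nac nbc
          exact nbc (h3 a ha b hb c hc hab hac hbc nab nac)
      · push Not at huniv
        obtain ⟨a, ha, hau⟩ := huniv
        apply case_univ ha _ hns
        · intro h
          have hlt : {x | x ∈ S ∧ x ≠ a}.ncard < S.ncard := by
            apply Set.ncard_lt_ncard _ hfin
            refine ⟨fun x hx => hx.1, fun hsub => (hsub ha).2 rfl⟩
          exact ih _ (hn ▸ hlt) _ rfl h
        · intro x hx
          by_cases e : x = a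
          · exact Or.inl e
          · exact Or.inr (hau x hx e)
    · push Not at hsl
      obtain ⟨a, ha, hna⟩ := hsl
      have hlt : (Non G S a).ncard < S.ncard := by
        apply Set.ncard_lt_ncard _ hfin
        refine ⟨fun x hx => hx.1, fun hsub => (hsub ha).2.1 rfl⟩
      exact sc_of_non ha (ih _ (hn ▸ hlt) _ rfl hna)

end Q106.Reconf
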