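import Pool.Agent.Q106.Reconf4

set_option autoImplicit false

/-!
# The reconfiguration graph of minimal dominating sets
-/

namespace Q106.ReconfGraph

open Q106.Reconf

section cycles

variable {α : Type*} {R : SimpleGraph α}

theorem cyc3 {a b c : α} (h1 : R.Adj a b) (h2 : R.Adj b c) (h3 : R.Adj c a) :
    ∃ (u : α) (w : R.Walk u u), w.IsCycle ∧ w.length ≤ 5 := by
  refine ⟨a, .cons h1 (.cons h2 (.cons h3 .nil)), ?_, by simp⟩
  rw [SimpleGraph.Walk.cons_isCycle_iff]
  have := h1.ne
  have := h2.ne
  have := h3.ne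
  simp [SimpleGraph.Walk.cons_isPath_iff]
  grind

theorem cyc4 {a b c d : α} (h1 : R.Adj a b) (h2 : R.Adj b c) (h3 : R.Adj c d) (h4 : R.Adj d a)
    (hac : a ≠ c) (hbd : b ≠ d) :
    ∃ (u : α) (w : R.Walk u u), w.IsCycle ∧ w.length ≤ 5 := by
  refine ⟨a, .cons h1 (.cons h2 (.cons h3 (.cons h4 .nil))), ?_, by simp⟩
  rw [SimpleGraph.Walk.cons_isCycle_iff]
  have := h1.ne
  have := h2.ne
  have := h3.ne
  have := h4.ne
  simp [SimpleGraph.Walk.cons_isPath_iff]
  grind

theorem cyc5 {a b c d e : α} (h1 : R.Adj a b) (h2 : R.Adj b c) (h3 : R.Adj c d) (h4 : R.Adj d e)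
    (h5 : R.Adj e a) :
    ∃ (u : α) (w : R.Walk u u), w.IsCycle ∧ w.length ≤ 5 := by
  by_cases hac : a = c
  · subst hac
    exact cyc3 h3 h4 h5
  by_cases hbd : b = d
  · subst hbd
    exact cyc3 h4 h5 h1
  by_cases hce : c = e
  · subst hce
    exact cyc3 h5 h1 h2
  by_cases hda : d = a
  · subst hda
    exact cyc3 h1 h2 h3
  by_cases heb : e = b
  · subst heb
    exact cyc3 h2 h3 h4
  refine ⟨a, .cons h1 (.cons h2 (.cons h3 (.cons h4 (.cons h5 .nil)))), ?_, by simp⟩
  rw [SimpleGraph.Walk.cons_isCycle_iff]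
  have := h1.ne
  have := h2.ne
  have := h3.ne
  have := h4.ne
  have := h5.ne
  simp [SimpleGraph.Walk.cons_isPath_iff]
  grind

end cycles

variable {V : Type*} (G : SimpleGraph V)

/-- `S` is a dominating set of `G`. -/
def IsDominating (S : Set V) : Prop := ∀ v, v ∈ S ∨ ∃ u ∈ S, G.Adj v u

/-- `S` is a minimal dominating set of `G`. -/
def IsMinimalDominating (S : Set V) : Prop :=
  IsDominating G S ∧ ∀ v ∈ S, ¬ IsDominating G (S \ {v})

/-- The reconfiguration graph `R(G)` on the minimal dominating sets of `G`. -/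
def reconf : SimpleGraph {M : Set V // IsMinimalDominating G M} where
  Adj M N := ∃ v : V, (N.1 \ M.1 = {v} ∧ M.1 \ N.1 ⊆ G.neighborSet v) ∨
    (M.1 \ N.1 = {v} ∧ N.1 \ M.1 ⊆ G.neighborSet v)
  symm := ⟨fun _ _ ⟨v, h⟩ => ⟨v, h.symm⟩⟩
  loopless := ⟨fun M ⟨v, h⟩ => by
    rcases h with h | h
    · have : v ∈ M.1 \ M.1 := h.1 ▸ rfl
      exact this.2 this.1
    · have : v ∈ M.1 \ M.1 := h.1 ▸ rfl
      exact this.2 this.1⟩

variable {G}

theorem isMinimalDominating_of_md {M : Set V} (h : MD G Set.univ M) : IsMinimalDominating G M := by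
  obtain ⟨h1, h2, h3⟩ := h
  constructor
  · intro v
    rcases h2 v (Set.mem_univ v) with h | ⟨m, hm, hadj⟩
    · exact Or.inl h
    · exact Or.inr ⟨m, hm, hadj.symm⟩
  · intro v hv hdom
    obtain ⟨p, -, hp, hpriv⟩ := h3 v hv
    rcases hdom p with h | ⟨u, hu, hadj⟩
    · rcases hp with rfl | hp
      · exact h.2 rfl
      · exact (hpriv p h.1 h.2).1 rfl
    · exact (hpriv u hu.1 hu.2).2 hadj.symm

theorem adj_of_rel {M N : Set V} (hM : MD G Set.univ M) (hN : MD G Set.univ N) (h : Rel G M N) :
    (reconf G).Adj ⟨M, isMinimalDominating_of_md hM⟩ ⟨N, isMinimalDominating_of_md hN⟩ := by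
  have key : ∀ M N : Set V, RA G M N → ∃ v, M \ N = {v} ∧ N \ M ⊆ G.neighborSet v := by
    rintro M N ⟨v, h1, h2, h3, h4⟩
    refine ⟨v, ?_, ?_⟩
    · ext x
      constructor
      · rintro ⟨hx, hx'⟩
        rcases h3 x hx with h | h
        · exact h
        · exact absurd h hx'
      · rintro rfl
        exact ⟨h1, h2⟩
    · rintro x ⟨hx, hx'⟩
      rcases h4 x hx with h | h
      · exact absurd h hx'
      · exact h
  rcases h with h | h
  · obtain ⟨v, hv⟩ := key M N h
    exact ⟨v, Or.inr hv⟩
  · obtain ⟨v, hv⟩ := key N M h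
    exact ⟨v, Or.inl hv⟩

theorem cycle_of_sc (h : SC G Set.univ) :
    ∃ (M : _) (c : (reconf G).Walk M M), c.IsCycle ∧ c.length ≤ 5 := by
  rcases h with ⟨A, B, C, hA, hB, hC, h1, h2, h3⟩ | ⟨A, B, C, D, hA, hB, hC, hD, h1, h2, h3, h4, h5, h6⟩ |
    ⟨A, B, C, D, E, hA, hB, hC, hD, hE, h1, h2, h3, h4, h5⟩
  · exact cyc3 (adj_of_rel hA hB h1) (adj_of_rel hB hC h2) (adj_of_rel hC hA h3)
  · exact cyc4 (adj_of_rel hA hB h1) (adj_of_rel hB hC h2) (adj_of_rel hC hD h3)
      (adj_of_rel hD hA h4) (fun e => h5 (congrArg Subtype.val e))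
      (fun e => h6 (congrArg Subtype.val e))
  · exact cyc5 (adj_of_rel hA hB h1) (adj_of_rel hB hC h2) (adj_of_rel hC hD h3)
      (adj_of_rel hD hE h4) (adj_of_rel hE hA h5)

/-- If the edges of `G` do not all share a vertex, the reconfiguration graph contains a cycle of
length at most `5`. -/
theorem exists_short_cycle [Finite V] (h : ¬ ∃ c : V, ∀ x y, G.Adj x y → x = c ∨ y = c)
    (hne : Nonempty V) :
    ∃ (M : _) (c : (reconf G).Walk M M), c.IsCycle ∧ c.length ≤ 5 := by
  apply cycle_of_sc
  apply main _ Set.univ rfl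
  intro hSL
  apply h
  by_cases he : ∃ x y, G.Adj x y
  · obtain ⟨x, y, hxy⟩ := he
    obtain ⟨c, -, -, hc⟩ := hSL.center (Set.mem_univ x) (Set.mem_univ y) hxy
    exact ⟨c, fun x y hxy => hc x (Set.mem_univ x) y (Set.mem_univ y) hxy⟩
  · push Not at he
    exact ⟨hne.some, fun x y hxy => absurd hxy (he x y)⟩

/-- The minimal dominating sets of a graph all of whose edges contain `c`. -/
theorem star_classify {c : V} (hc : ∀ x y, G.Adj x y → x = c ∨ y = c) {M : Set V}
    (hM : IsMinimalDominating G M) :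
    (M = {x | ¬ G.Adj c x}) ∨ (M = {x | x ≠ c} ∧ ∃ x, G.Adj c x) := by
  obtain ⟨hdom, hmin⟩ := hM
  have hZ : ∀ x, x ≠ c → ¬ G.Adj c x → x ∈ M := by
    intro x hx hadj
    rcases hdom x with h | ⟨u, hu, hxu⟩
    · exact h
    · rcases hc x u hxu with h | h
      · exact absurd h hx
      · exact absurd (h ▸ hxu.symm) hadj
  by_cases hcM : c ∈ M
  · left
    ext x
    constructor
    · intro hx hadj
      have hxc : x ≠ c := hadj.ne'
      apply hmin x hx
      intro v
      by_cases hvx : v = x
      · exact Or.inr ⟨c, ⟨hcM, hxc.symm⟩, hvx ▸ hadj.symm⟩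
      · rcases hdom v with h | ⟨u, hu, hvu⟩
        · exact Or.inl ⟨h, hvx⟩
        · by_cases hux : u = x
          · subst hux
            rcases hc v u hvu with h | h
            · exact Or.inl ⟨h ▸ hcM, hvx⟩
            · exact absurd h hxc
          · exact Or.inr ⟨u, ⟨hu, hux⟩, hvu⟩
    · intro hx
      by_cases hxc : x = c
      · exact hxc ▸ hcM
      · exact hZ x hxc hx
  · right
    constructor
    · ext x
      constructor
      · intro hx hxc
        exact hcM (hxc ▸ hx)
      · intro hx
        rcases hdom x with h | ⟨u, hu, hxu⟩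
        · exact h
        · rcases hc x u hxu with h | h
          · exact absurd h hx
          · exact absurd (h ▸ hu) hcM
    · rcases hdom c with h | ⟨u, hu, hcu⟩
      · exact absurd h hcM
      · exact ⟨u, hcu⟩

theorem star_min1 {c : V} (hc : ∀ x y, G.Adj x y → x = c ∨ y = c) :
    IsMinimalDominating G {x | ¬ G.Adj c x} := by
  constructor
  · intro v
    by_cases h : G.Adj c v
    · exact Or.inr ⟨c, G.loopless.irrefl c, h.symm⟩
    · exact Or.inl h
  · intro v hv hdom
    rcases hdom v with h | ⟨u, hu, hvu⟩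
    · exact h.2 rfl
    · rcases hc v u hvu with h | h
      · exact hu.1 (h ▸ hvu)
      · exact hv (h ▸ hvu.symm)

theorem star_min2 {c : V} (hc : ∀ x y, G.Adj x y → x = c ∨ y = c) (hex : ∃ x, G.Adj c x) :
    IsMinimalDominating G {x | x ≠ c} := by
  obtain ⟨d, hd⟩ := hex
  constructor
  · intro v
    by_cases h : v = c
    · exact Or.inr ⟨d, hd.ne', h ▸ hd⟩
    · exact Or.inl h
  · intro v hv hdom
    rcases hdom v with h | ⟨u, hu, hvu⟩
    · exact h.2 rfl
    · rcases hc v u hvu with h | h
      · exact hv h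
      · exact hu.1 h

/-- If all edges of `G` contain `c`, the reconfiguration graph is `K_1` or `K_2`, a tree. -/
theorem star_isTree [Finite V] {c : V} (hc : ∀ x y, G.Adj x y → x = c ∨ y = c) :
    (reconf G).IsTree := by
  classical
  let A : {M : Set V // IsMinimalDominating G M} := ⟨{x | ¬ G.Adj c x}, star_min1 hc⟩
  have : Fintype {M : Set V // IsMinimalDominating G M} := Fintype.ofFinite _
  have : Nonempty {M : Set V // IsMinimalDominating G M} := ⟨A⟩
  by_cases hex : ∃ x, G.Adj c x
  · let B : {M : Set V // IsMinimalDominating G M} := ⟨{x | x ≠ c}, star_min2 hc hex⟩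
    have hall : ∀ M : {M : Set V // IsMinimalDominating G M}, M = A ∨ M = B := by
      intro M
      rcases star_classify hc M.2 with h | h
      · exact Or.inl (Subtype.ext h)
      · exact Or.inr (Subtype.ext h.1)
    have hAB : (reconf G).Adj A B := by
      refine ⟨c, Or.inr ⟨?_, ?_⟩⟩
      · ext x
        constructor
        · rintro ⟨_, hx⟩
          by_contra h
          exact hx h
        · rintro rfl
          exact ⟨G.loopless.irrefl x, fun h => h rfl⟩
      · rintro x ⟨_, hx⟩
        by_contra h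
        exact hx h
    have hcard : Fintype.card {M : Set V // IsMinimalDominating G M} ≤ 2 := by
      have : (Finset.univ : Finset {M : Set V // IsMinimalDominating G M}) ⊆ {A, B} := by
        intro M _
        rcases hall M with h | h <;> simp [h]
      exact (Finset.card_le_card this).trans Finset.card_le_two
    refine ⟨SimpleGraph.Connected.mk ?_, ?_⟩
    · intro M N
      rcases hall M with rfl | rfl <;> rcases hall N with rfl | rfl
      · exact SimpleGraph.Reachable.refl _
      · exact hAB.reachable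
      · exact hAB.symm.reachable
      · exact SimpleGraph.Reachable.refl _
    · intro M w hw
      have h1 := hw.support_nodup.length_le_card
      have h2 := hw.three_le_length
      rw [List.length_tail, SimpleGraph.Walk.length_support] at h1
      omega
  · have hsub : Subsingleton {M : Set V // IsMinimalDominating G M} := by
      constructor
      intro M N
      rcases star_classify hc M.2 with h | h
      · rcases star_classify hc N.2 with h' | h'
        · exact Subtype.ext (h.trans h'.symm)
        · exact absurd h'.2 hex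
      · exact absurd h.2 hex
    refine ⟨SimpleGraph.Connected.mk ?_, ?_⟩
    · intro M N
      rw [Subsingleton.elim M N]
    · intro M w hw
      have h1 := hw.support_nodup.length_le_card
      have h2 := hw.three_le_length
      rw [List.length_tail, SimpleGraph.Walk.length_support] at h1
      have h3 := Fintype.card_le_one_iff_subsingleton.mpr hsub
      omega

end Q106.ReconfGraph
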