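import Mathlib

set_option autoImplicit false

/-! General lemmas on trees and paths. -/

namespace Q106.TreeLemmas

variable {V : Type*}

/-- A graph whose edges are given by a parent function which increases a height is acyclic. -/
theorem isAcyclic_of_parent (G : SimpleGraph V) (ht : V → ℕ) (par : V → V)
    (h : ∀ u v, G.Adj u v → (par u = v ∧ ht v < ht u) ∨ (par v = u ∧ ht u < ht v)) :
    G.IsAcyclic := by
  classical
  intro v c hc
  obtain ⟨x, hx, hmax⟩ := Finset.exists_max_image c.support.toFinset ht
    ⟨v, by simp⟩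
  rw [List.mem_toFinset] at hx
  have hc' : (c.rotate x hx).IsCycle := (SimpleGraph.Walk.isCycle_rotate hx).mpr hc
  have hnil : ¬ (c.rotate x hx).Nil := hc'.not_nil
  have hmem : ∀ i, ht ((c.rotate x hx).getVert i) ≤ ht x := by
    intro i
    apply hmax
    rw [List.mem_toFinset, ← SimpleGraph.Walk.mem_support_rotate_iff c x hx]
    exact SimpleGraph.Walk.getVert_mem_support _ i
  have h1 : par x = (c.rotate x hx).snd := by
    rcases h _ _ (SimpleGraph.Walk.adj_snd hnil) with h1 | h1
    · exact h1.1
    · have := hmem 1
      have h2 : ht x < ht ((c.rotate x hx).getVert 1) := h1.2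
      omega
  have h2 : par x = (c.rotate x hx).penultimate := by
    rcases h _ _ (SimpleGraph.Walk.adj_penultimate hnil) with h1 | h1
    · have := hmem ((c.rotate x hx).length - 1)
      have h2 : ht x < ht ((c.rotate x hx).getVert ((c.rotate x hx).length - 1)) := h1.2
      omega
    · exact h1.1
  exact hc'.snd_ne_penultimate (h1.symm.trans h2)

/-- An internal vertex of a path has two distinct neighbours. -/
theorem two_nbrs_of_internal [DecidableEq V] {G : SimpleGraph V} {u v x : V} (p : G.Walk u v)
    (hp : p.IsPath) (hx : x ∈ p.support) (hxu : x ≠ u) (hxv : x ≠ v) :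
    ∃ y z, y ≠ z ∧ G.Adj x y ∧ G.Adj x z := by
  have h1 : ¬ (p.takeUntil x hx).Nil := fun h => hxu h.eq.symm
  have h2 : ¬ (p.dropUntil x hx).Nil := fun h => hxv h.eq
  refine ⟨(p.takeUntil x hx).penultimate, (p.dropUntil x hx).snd, ?_,
    (SimpleGraph.Walk.adj_penultimate h1).symm, SimpleGraph.Walk.adj_snd h2⟩
  intro heq
  have hy : (p.takeUntil x hx).penultimate ∈ (p.takeUntil x hx).support :=
    SimpleGraph.Walk.getVert_mem_support _ _
  have hz : (p.dropUntil x hx).snd ∈ (p.dropUntil x hx).support.tail := by
    have := SimpleGraph.Walk.getVert_mem_support (p.dropUntil x hx).tail 0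
    rw [SimpleGraph.Walk.getVert_zero] at this
    rwa [SimpleGraph.Walk.support_tail_of_not_nil _ h2] at this
  have hnd := hp.support_nodup
  rw [← SimpleGraph.Walk.take_spec p hx, SimpleGraph.Walk.support_append] at hnd
  have hdis := (List.nodup_append.mp hnd).2.2
  exact hdis _ hy _ hz heq

end Q106.TreeLemmas
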