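import Mathlib

/-!
# Word-representable graphs: semi-transitive orientations, level functions, true twins

`wr_of_semi`: a finite graph with a semi-transitive orientation is word-representable
(Halldórsson, Kitaev, Pyatkin). `wr_of_levels`: a criterion with a colouring with four colours.
`wr_of_twins`: replacing the vertices by cliques of true twins.
-/

set_option autoImplicit false

namespace Pool.Agent.Q106.WordRep

open List

variable {V : Type*} [DecidableEq V]

/-- the letters `a` and `b` alternate in `w`: after deleting all other letters no two consecutive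
letters are equal -/
def Alternate (w : List V) (a b : V) : Prop :=
  (w.filter (fun z => z = a ∨ z = b)).IsChain (· ≠ ·)

/-- every vertex occurs in `w`, and distinct `a`, `b` alternate iff they are adjacent -/
def Represents (G : SimpleGraph V) (w : List V) : Prop :=
  (∀ v, v ∈ w) ∧ ∀ a b, a ≠ b → (Alternate w a b ↔ G.Adj a b)

def WordRepresentable (G : SimpleGraph V) : Prop := ∃ w : List V, Represents G w

/-- the order of the twelve blocks -/
def seq : List (Fin 6) := [0, 1, 5, 0, 2, 3, 1, 2, 4, 5, 3, 4]

/-- the pattern of two letters in classes `i`, `j` -/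
def pat (i j : Fin 6) : List Bool :=
  seq.flatMap fun k => (if i = k then [false] else []) ++ (if j = k then [true] else [])

theorem nodup_filter_pair {l : List V} (hl : l.Nodup) {x y : V} (hx : x ∈ l) (hy : y ∈ l)
    (hxy : x ≠ y) : l.filter (fun z => z = x ∨ z = y) = [x, y] ∨
      l.filter (fun z => z = x ∨ z = y) = [y, x] := by
  have h1 : (l.filter (fun z => decide (z = x ∨ z = y))).Perm [x, y] := by
    rw [List.perm_ext_iff_of_nodup (hl.filter _) (by simp [hxy])]
    intro a
    simp only [mem_filter, decide_eq_true_eq, mem_cons, not_mem_nil, or_false]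
    constructor
    · rintro ⟨_, h⟩; exact h
    · rintro (rfl | rfl)
      · exact ⟨hx, Or.inl rfl⟩
      · exact ⟨hy, Or.inr rfl⟩
  have h2 := h1.length_eq
  generalize l.filter (fun z => decide (z = x ∨ z = y)) = m at h1 h2
  match m, h2 with
  | [a, b], _ =>
    have ha : a = x ∨ a = y := by
      have : a ∈ [x, y] := h1.subset (by simp)
      simpa using this
    have hb : b = x ∨ b = y := by
      have : b ∈ [x, y] := h1.subset (by simp)
      simpa using this
    have hnd : [a, b].Nodup := h1.symm.nodup (by simp [hxy])
    have hab : a ≠ b := by simpa using hnd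
    rcases ha with rfl | rfl <;> rcases hb with rfl | rfl
    · exact absurd rfl hab
    · exact Or.inl rfl
    · exact Or.inr rfl
    · exact absurd rfl hab

/-- the word of a vertex, given the classes of the vertices -/
def vword (ord : List V) (cls : V → Fin 6) : List V :=
  seq.flatMap fun k => ord.filter fun z => cls z = k

theorem filter_vword {ord : List V} {cls : V → Fin 6} {x y : V}
    (h : ord.filter (fun z => z = x ∨ z = y) = [x, y]) :
    (vword ord cls).filter (fun z => z = x ∨ z = y) =
      (pat (cls x) (cls y)).map (fun b => if b then y else x) := by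
  have key : ∀ k : Fin 6, (ord.filter fun z => cls z = k).filter (fun z => decide (z = x ∨ z = y)) =
      ((if cls x = k then [false] else []) ++ (if cls y = k then [true] else [])).map
        (fun b => if b then y else x) := by
    intro k
    rw [List.filter_comm, h]
    by_cases h1 : cls x = k <;> by_cases h2 : cls y = k <;> simp [h1, h2]
  unfold vword pat
  rw [List.filter_flatMap, List.map_flatMap]
  congr 1
  funext k
  exact key k

/-- the pairs of classes of the two ends of an edge -/
def okPair (i j : Fin 6) : Bool :=
  decide ((i, j) ∈ ([(0, 0), (0, 1), (0, 5), (1, 1), (1, 2), (1, 3), (1, 5), (2, 3), (3, 3), (3, 4),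
    (4, 4), (5, 3), (5, 4), (5, 5)] : List (Fin 6 × Fin 6)))

theorem pat_ok : ∀ i j : Fin 6, okPair i j = true → pat i j = [false, true, false, true] := by
  decide

theorem pat_bad : ∀ j : Fin 6, j = 0 ∨ j = 4 ∨ j = 5 →
    ¬ ((pat 2 j).IsChain (· ≠ ·)) ∧ ¬ ((pat j 2).IsChain (· ≠ ·)) := by
  decide

theorem isChain_map_bool {x y : V} (hxy : x ≠ y) (l : List Bool) :
    ((l.map (fun b => if b then y else x)).IsChain (· ≠ ·)) ↔ l.IsChain (· ≠ ·) := by
  rw [List.isChain_map]
  constructor
  · intro h
    refine h.imp ?_
    intro a b hab hc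
    exact hab (by rw [hc])
  · intro h
    refine h.imp ?_
    intro a b hab hc
    cases a <;> cases b <;> simp at hc hab ⊢
    · exact hxy hc
    · exact hxy hc.symm

theorem isChain_blocks {x y : V} (hxy : x ≠ y) {U : Type*} (l : List U) :
    (l.flatMap fun _ => [x, y, x, y]).IsChain (· ≠ ·) ∧
      ∀ a ∈ (l.flatMap fun _ => [x, y, x, y]).head?, a = x := by
  induction l with
  | nil => simp
  | cons u l ih =>
    obtain ⟨h1, h2⟩ := ih
    rw [List.flatMap_cons]
    constructor
    · rw [List.isChain_append]
      refine ⟨by simp [hxy, hxy.symm], h1, ?_⟩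
      intro a ha b hb
      have h3 : a = y := by simpa using ha.symm
      rw [h3, h2 b hb]
      exact hxy.symm
    · simp

theorem ok_or : ∀ i j : Fin 6, okPair i j = true ∨ (i = 0 ∧ j = 2) ∨ (i = 0 ∧ j = 3) ∨
    (i = 0 ∧ j = 4) ∨ (i = 1 ∧ j = 0) ∨ (i = 1 ∧ j = 4) ∨ (i = 2 ∧ j = 0) ∨ (i = 2 ∧ j = 1) ∨
    (i = 2 ∧ j = 2) ∨ (i = 2 ∧ j = 4) ∨ (i = 2 ∧ j = 5) ∨ (i = 3 ∧ j = 0) ∨ (i = 3 ∧ j = 1) ∨
    (i = 3 ∧ j = 2) ∨ (i = 3 ∧ j = 5) ∨ (i = 4 ∧ j = 0) ∨ (i = 4 ∧ j = 1) ∨ (i = 4 ∧ j = 2) ∨
    (i = 4 ∧ j = 3) ∨ (i = 4 ∧ j = 5) ∨ (i = 5 ∧ j = 0) ∨ (i = 5 ∧ j = 1) ∨ (i = 5 ∧ j = 2) := by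
  decide

/-- **A graph with a semi-transitive orientation is word-representable.** -/
theorem wr_of_semi [Fintype V] (G : SimpleGraph V) (R : V → V → Prop) (rank : V → ℕ)
    (hR : ∀ a b, G.Adj a b ↔ R a b ∨ R b a) (hrank : ∀ a b, R a b → rank a < rank b)
    (hsemi : ∀ u w z, R u z → Relation.TransGen R u w → Relation.TransGen R w z → R u w ∧ R w z) :
    WordRepresentable G := by
  classical
  -- a topological order
  obtain ⟨ord, hnd, hmem, hord⟩ : ∃ ord : List V, ord.Nodup ∧ (∀ v, v ∈ ord) ∧
      ord.Pairwise (fun a b => ¬ R b a) := by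
    refine ⟨(Finset.univ : Finset V).toList.mergeSort (fun a b => rank a ≤ rank b), ?_, ?_, ?_⟩
    · exact ((List.mergeSort_perm _ _).nodup_iff).2 (Finset.nodup_toList _)
    · intro v
      rw [List.mem_mergeSort]
      exact Finset.mem_toList.2 (Finset.mem_univ v)
    · have h1 := List.pairwise_mergeSort (le := fun a b => decide (rank a ≤ rank b))
        (by intro a b c h1 h2; simp only [decide_eq_true_eq] at *; omega)
        (by intro a b; simp only [Bool.or_eq_true, decide_eq_true_eq]; omega)
        (Finset.univ : Finset V).toList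
      refine h1.imp ?_
      intro a b hab hba
      have h2 := hrank _ _ hba
      simp only [decide_eq_true_eq] at hab
      omega
  have hT : ∀ a b, Relation.TransGen R a b → rank a < rank b := by
    intro a b h
    induction h with
    | single h => exact hrank _ _ h
    | tail _ h ih => exact ih.trans (hrank _ _ h)
  have hirr : ∀ a b, Relation.TransGen R a b → ¬ Relation.TransGen R b a := fun a b h h' =>
    absurd (hT _ _ h) (not_lt.2 (hT _ _ h').le)
  have hirr' : ∀ a, ¬ Relation.TransGen R a a := fun a h => absurd (hT _ _ h) (lt_irrefl _)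
  -- the classes
  let cls : V → V → Fin 6 := fun v z =>
    if z = v then 2 else if R z v then 1 else if R v z then 3 else
      if Relation.TransGen R z v then 0 else if Relation.TransGen R v z then 4 else 5
  have hc0 : ∀ v z, cls v z = 0 → Relation.TransGen R z v ∧ ¬ R z v := by
    intro v z h
    simp only [cls] at h
    split_ifs at h with h1 h2 h3 h4 h5 <;> simp_all
  have hc1 : ∀ v z, cls v z = 1 → R z v := by
    intro v z h
    simp only [cls] at h
    split_ifs at h with h1 h2 h3 h4 h5 <;> simp_all
  have hc2 : ∀ v z, cls v z = 2 → z = v := by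
    intro v z h
    simp only [cls] at h
    split_ifs at h with h1 h2 h3 h4 h5 <;> simp_all
  have hc3 : ∀ v z, cls v z = 3 → R v z := by
    intro v z h
    simp only [cls] at h
    split_ifs at h with h1 h2 h3 h4 h5 <;> simp_all
  have hc4 : ∀ v z, cls v z = 4 → Relation.TransGen R v z ∧ ¬ R v z := by
    intro v z h
    simp only [cls] at h
    split_ifs at h with h1 h2 h3 h4 h5 <;> simp_all
  have hc5 : ∀ v z, cls v z = 5 → ¬ Relation.TransGen R v z ∧ ¬ Relation.TransGen R z v := by
    intro v z h
    simp only [cls] at h
    split_ifs at h with h1 h2 h3 h4 h5 <;> simp_all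
  have hok : ∀ v x y, R x y → okPair (cls v x) (cls v y) = true := by
    intro v x y hxy
    have t1 : Relation.TransGen R x y := Relation.TransGen.single hxy
    have a0 := hc0 v x
    have a1 := hc1 v x
    have a2 := hc2 v x
    have a3 := hc3 v x
    have a4 := hc4 v x
    have a5 := hc5 v x
    have b0 := hc0 v y
    have b1 := hc1 v y
    have b2 := hc2 v y
    have b3 := hc3 v y
    have b4 := hc4 v y
    have b5 := hc5 v y
    generalize cls v x = i at a0 a1 a2 a3 a4 a5 ⊢
    generalize cls v y = j at b0 b1 b2 b3 b4 b5 ⊢
    rcases ok_or i j with h | ⟨rfl, rfl⟩ | ⟨rfl, rfl⟩ | ⟨rfl, rfl⟩ | ⟨rfl, rfl⟩ | ⟨rfl, rfl⟩ |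
      ⟨rfl, rfl⟩ | ⟨rfl, rfl⟩ | ⟨rfl, rfl⟩ | ⟨rfl, rfl⟩ | ⟨rfl, rfl⟩ | ⟨rfl, rfl⟩ | ⟨rfl, rfl⟩ |
      ⟨rfl, rfl⟩ | ⟨rfl, rfl⟩ | ⟨rfl, rfl⟩ | ⟨rfl, rfl⟩ | ⟨rfl, rfl⟩ | ⟨rfl, rfl⟩ | ⟨rfl, rfl⟩ |
      ⟨rfl, rfl⟩ | ⟨rfl, rfl⟩ | ⟨rfl, rfl⟩
    · exact h
    · exact absurd (b2 rfl ▸ hxy) (a0 rfl).2
    · exact absurd (hsemi x v y hxy (a0 rfl).1 (.single (b3 rfl))).1 (a0 rfl).2
    · exact absurd (hsemi x v y hxy (a0 rfl).1 (b4 rfl).1).1 (a0 rfl).2
    · exact absurd (hsemi x y v (a1 rfl) t1 (b0 rfl).1).2 (b0 rfl).2
    · exact absurd (hsemi x v y hxy (.single (a1 rfl)) (b4 rfl).1).2 (b4 rfl).2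
    · exact (hirr _ _ t1 (a2 rfl ▸ (b0 rfl).1)).elim
    · exact (hirr _ _ t1 (a2 rfl ▸ .single (b1 rfl))).elim
    · rw [a2 rfl, b2 rfl] at t1
      exact (hirr' _ t1).elim
    · exact absurd (a2 rfl ▸ hxy) (b4 rfl).2
    · exact absurd (a2 rfl ▸ t1) (b5 rfl).1
    · exact (hirr _ _ (t1.trans (b0 rfl).1) (.single (a3 rfl))).elim
    · exact (hirr _ _ (t1.trans (.single (b1 rfl))) (.single (a3 rfl))).elim
    · exact (hirr _ _ (b2 rfl ▸ t1) (.single (a3 rfl))).elim
    · exact absurd (Relation.TransGen.trans (.single (a3 rfl)) t1) (b5 rfl).1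
    · exact (hirr _ _ (t1.trans (b0 rfl).1) (a4 rfl).1).elim
    · exact (hirr _ _ (t1.trans (.single (b1 rfl))) (a4 rfl).1).elim
    · exact (hirr _ _ (b2 rfl ▸ t1) (a4 rfl).1).elim
    · exact absurd (hsemi v x y (b3 rfl) (a4 rfl).1 t1).1 (a4 rfl).2
    · exact absurd ((a4 rfl).1.trans t1) (b5 rfl).1
    · exact absurd (t1.trans (b0 rfl).1) (a5 rfl).2
    · exact absurd (t1.trans (.single (b1 rfl))) (a5 rfl).2
    · exact absurd (b2 rfl ▸ t1) (a5 rfl).2
  -- the order of two vertices
  have hpair : ∀ x y, R x y → ord.filter (fun z => decide (z = x ∨ z = y)) = [x, y] := by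
    intro x y hxy
    have hne : x ≠ y := fun h => hirr' x (.single (by rw [h] at hxy ⊢; exact hxy))
    rcases nodup_filter_pair hnd (hmem x) (hmem y) hne with h | h
    · exact h
    · exfalso
      have h1 : [y, x].Sublist ord := by
        rw [← h]
        exact List.filter_sublist
      have h2 := hord.sublist h1
      rw [List.pairwise_pair] at h2
      exact h2 hxy
  refine ⟨ord.flatMap fun v => vword ord (cls v), ?_, ?_⟩
  · intro v
    rw [List.mem_flatMap]
    refine ⟨v, hmem v, ?_⟩
    unfold vword
    rw [List.mem_flatMap]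
    refine ⟨2, by decide, ?_⟩
    rw [List.mem_filter]
    exact ⟨hmem v, by simp [cls]⟩
  · -- edges in one direction
    have hedge : ∀ x y, R x y → Alternate (ord.flatMap fun v => vword ord (cls v)) x y := by
      intro x y hxy
      have hne : x ≠ y := fun h => hirr' x (.single (by rw [h] at hxy ⊢; exact hxy))
      unfold Alternate
      rw [List.filter_flatMap]
      have h1 : (fun v => (vword ord (cls v)).filter (fun z => decide (z = x ∨ z = y))) =
          fun _ => [x, y, x, y] := by
        funext v
        rw [filter_vword (hpair x y hxy), pat_ok _ _ (hok v x y hxy)]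
        simp
      rw [h1]
      exact (isChain_blocks hne ord).1
    have hsymm : ∀ (w : List V) (x y : V), Alternate w x y → Alternate w y x := by
      intro w x y h
      unfold Alternate at *
      have : (fun z => decide (z = y ∨ z = x)) = (fun z => decide (z = x ∨ z = y)) := by
        funext z
        exact decide_eq_decide.2 or_comm
      rw [this]
      exact h
    intro a b hab
    constructor
    · intro halt
      by_contra hnadj
      rw [hR] at hnadj
      push Not at hnadj
      -- the word of `a`
      have hinf : (vword ord (cls a)).IsInfix (ord.flatMap fun v => vword ord (cls v)) := by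
        obtain ⟨s, t, hst⟩ := List.append_of_mem (hmem a)
        rw [hst, List.flatMap_append, List.flatMap_cons]
        exact ⟨s.flatMap fun v => vword (s ++ a :: t) (cls v),
          t.flatMap fun v => vword (s ++ a :: t) (cls v), by rw [List.append_assoc]⟩
      have hinf2 := hinf.filter (fun z => decide (z = a ∨ z = b))
      obtain ⟨s2, t2, hst2⟩ := hinf2
      unfold Alternate at halt
      rw [← hst2] at halt
      have h3 := halt.left_of_append.right_of_append
      have hca : cls a a = 2 := by simp [cls]
      have hcb : cls a b = 0 ∨ cls a b = 4 ∨ cls a b = 5 := by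
        have := hab.symm
        simp only [cls]
        rw [if_neg this, if_neg hnadj.2, if_neg hnadj.1]
        split_ifs <;> simp
      rcases nodup_filter_pair hnd (hmem a) (hmem b) hab with h | h
      · rw [filter_vword h, isChain_map_bool hab, hca] at h3
        exact (pat_bad _ hcb).1 h3
      · have h4 : ord.filter (fun z => decide (z = b ∨ z = a)) = [b, a] := by
          rw [← h]
          congr 1
          funext z
          exact decide_eq_decide.2 or_comm
        have h5 : (vword ord (cls a)).filter (fun z => decide (z = a ∨ z = b)) =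
            (vword ord (cls a)).filter (fun z => decide (z = b ∨ z = a)) := by
          congr 1
          funext z
          exact decide_eq_decide.2 or_comm
        rw [h5, filter_vword h4, isChain_map_bool hab.symm, hca] at h3
        exact (pat_bad _ hcb).2 h3
    · intro hadj
      rcases (hR a b).1 hadj with h | h
      · exact hedge a b h
      · exact hsymm _ _ _ (hedge b a h)

/-- **A criterion with four colours.** -/
theorem wr_of_levels [Fintype V] (G : SimpleGraph V) (c : V → ℕ) (h3 : ∀ v, c v ≤ 3)
    (hc : ∀ a b, G.Adj a b → c a ≠ c b)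
    (hp : ∀ u w w' z, c u = 0 → c w = 1 → c w' = 2 → c z = 3 → G.Adj u w → G.Adj w w' →
      G.Adj w' z → G.Adj u z → G.Adj u w' ∧ G.Adj w z) : WordRepresentable G := by
  let R : V → V → Prop := fun a b => G.Adj a b ∧ c a < c b
  have hT : ∀ a b, Relation.TransGen R a b → c a < c b := by
    intro a b h
    induction h with
    | single h => exact h.2
    | tail _ h ih => exact ih.trans h.2
  have hone : ∀ a b, Relation.TransGen R a b → R a b ∨ ∃ m, R a m ∧ Relation.TransGen R m b := by
    intro a b h
    rcases Relation.TransGen.head'_iff.1 h with ⟨m, hm, h⟩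
    rcases Relation.reflTransGen_iff_eq_or_transGen.1 h with rfl | h
    · exact Or.inl hm
    · exact Or.inr ⟨m, hm, h⟩
  refine wr_of_semi G R c ?_ (fun a b h => h.2) ?_
  · intro a b
    constructor
    · intro h
      rcases lt_or_gt_of_ne (hc a b h) with h1 | h1
      · exact Or.inl ⟨h, h1⟩
      · exact Or.inr ⟨h.symm, h1⟩
    · rintro (h | h)
      · exact h.1
      · exact h.1.symm
  · intro u w z huz huw hwz
    have e1 := hT _ _ huw
    have e2 := hT _ _ hwz
    have e3 := h3 z
    have h0 : R u w ∨ ∃ m, R u m ∧ Relation.TransGen R m w := hone _ _ huw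
    have h1 : R w z ∨ ∃ m, R w m ∧ Relation.TransGen R m z := hone _ _ hwz
    rcases h0 with h0 | ⟨m, hm, hmw⟩
    · rcases h1 with h1 | ⟨m', hm', hmz⟩
      · exact ⟨h0, h1⟩
      · have f1 := hm'.2
        have f2 := hT _ _ hmz
        have h2 : R m' z := by
          rcases hone _ _ hmz with h2 | ⟨m2, hm2, hm3⟩
          · exact h2
          · exfalso
            have := hm2.2
            have := hT _ _ hm3
            omega
        have h4 := hp u w m' z (by omega) (by omega) (by omega) (by omega) h0.1 hm'.1 h2.1 huz.1
        exact ⟨h0, h4.2, by omega⟩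
    · have f1 := hm.2
      have f2 := hT _ _ hmw
      have h2 : R m w := by
        rcases hone _ _ hmw with h2 | ⟨m2, hm2, hm3⟩
        · exact h2
        · exfalso
          have := hm2.2
          have := hT _ _ hm3
          omega
      have h5 : R w z := by
        rcases h1 with h1 | ⟨m', hm', hmz⟩
        · exact h1
        · exfalso
          have := hm'.2
          have := hT _ _ hmz
          omega
      have h4 := hp u m w z (by omega) (by omega) (by omega) (by omega) hm.1 h2.1 h5.1 huz.1
      exact ⟨⟨h4.1, by omega⟩, h5⟩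

/-- three-colourable graphs -/
theorem wr_of_three [Fintype V] (G : SimpleGraph V) (c : V → ℕ) (h3 : ∀ v, c v ≤ 2)
    (hc : ∀ a b, G.Adj a b → c a ≠ c b) : WordRepresentable G :=
  wr_of_levels G c (fun v => (h3 v).trans (by norm_num)) hc
    (fun u w w' z _ _ _ hz _ _ _ _ => absurd (h3 z) (by omega))

theorem isChain_flatMap_pair {x y : V} (hxy : x ≠ y) {U : Type*} (p : U → Prop)
    [DecidablePred p] (l : List U) :
    (l.flatMap fun u => if p u then [x, y] else []).IsChain (· ≠ ·) ∧
      ∀ a ∈ (l.flatMap fun u => if p u then [x, y] else []).head?, a = x := by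
  induction l with
  | nil => simp
  | cons u l ih =>
    obtain ⟨h1, h2⟩ := ih
    rw [List.flatMap_cons]
    by_cases hp : p u
    · rw [if_pos hp]
      constructor
      · rw [List.isChain_append]
        refine ⟨by simp [hxy], h1, ?_⟩
        intro a ha b hb
        have h3 : a = y := by simpa using ha.symm
        rw [h3, h2 b hb]
        exact hxy.symm
      · simp
    · rw [if_neg hp]
      exact ⟨by simpa using h1, by simpa using h2⟩

/-- **True twins.** -/
theorem wr_of_twins [Fintype V] {U : Type*} [DecidableEq U] (H : SimpleGraph U) (G : SimpleGraph V)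
    (φ : V → U) (h : ∀ a b, a ≠ b → (G.Adj a b ↔ (φ a = φ b ∨ H.Adj (φ a) (φ b))))
    (hH : WordRepresentable H) : WordRepresentable G := by
  classical
  obtain ⟨w, hw1, hw2⟩ := hH
  let ord : List V := (Finset.univ : Finset V).toList
  have hnd : ord.Nodup := Finset.nodup_toList _
  have hmem : ∀ v, v ∈ ord := fun v => Finset.mem_toList.2 (Finset.mem_univ v)
  refine ⟨w.flatMap fun u => ord.filter fun z => φ z = u, ?_, ?_⟩
  · intro v
    rw [List.mem_flatMap]
    exact ⟨φ v, hw1 _, by rw [List.mem_filter]; exact ⟨hmem v, by simp⟩⟩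
  · -- symmetric form
    have hsymm : ∀ (w : List V) (x y : V), Alternate w x y → Alternate w y x := by
      intro w x y h
      unfold Alternate at *
      have : (fun z => decide (z = y ∨ z = x)) = (fun z => decide (z = x ∨ z = y)) := by
        funext z
        exact decide_eq_decide.2 or_comm
      rw [this]
      exact h
    have key : ∀ a b, a ≠ b → ord.filter (fun z => decide (z = a ∨ z = b)) = [a, b] →
        (Alternate (w.flatMap fun u => ord.filter fun z => φ z = u) a b ↔ G.Adj a b) := by
      intro a b hab hord
      unfold Alternate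
      rw [List.filter_flatMap]
      have h1 : (fun u => (ord.filter fun z => decide (φ z = u)).filter
          (fun z => decide (z = a ∨ z = b))) =
          fun u => [a, b].filter fun z => decide (φ z = u) := by
        funext u
        rw [List.filter_comm, hord]
      rw [h1, h a b hab]
      by_cases hφ : φ a = φ b
      · have h2 : (fun u => [a, b].filter fun z => decide (φ z = u)) =
            fun u => if u = φ a then [a, b] else [] := by
          funext u
          by_cases hu : u = φ a
          · subst hu
            simp [hφ]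
          · have hu' : φ a ≠ u := fun h => hu h.symm
            have hu'' : φ b ≠ u := by rw [← hφ]; exact hu'
            simp [hu, hu', hu'']
        rw [h2]
        exact ⟨fun _ => Or.inl hφ, fun _ => (isChain_flatMap_pair hab _ w).1⟩
      · have h2 : (w.flatMap fun u => [a, b].filter fun z => decide (φ z = u)) =
            (w.filter (fun u => decide (u = φ a ∨ u = φ b))).map
              (fun u => if u = φ a then a else b) := by
          clear hw1 hw2
          induction w with
          | nil => simp
          | cons u w ih =>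
            rw [List.flatMap_cons, ih]
            by_cases hu : u = φ a
            · subst hu
              have hba : φ b ≠ φ a := fun h => hφ h.symm
              simp [hba]
            · by_cases hu2 : u = φ b
              · subst hu2
                have hba : φ b ≠ φ a := fun h => hφ h.symm
                simp [hφ, hba]
              · have e1 : φ a ≠ u := fun h => hu h.symm
                have e2 : φ b ≠ u := fun h => hu2 h.symm
                simp [hu, hu2, e1, e2]
        rw [h2, List.isChain_map]
        have h3 := hw2 (φ a) (φ b) hφ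
        unfold Alternate at h3
        have h4 : (φ a = φ b ∨ H.Adj (φ a) (φ b)) ↔ H.Adj (φ a) (φ b) := by simp [hφ]
        rw [h4, ← h3]
        have hall : ∀ u ∈ w.filter (fun u => decide (u = φ a ∨ u = φ b)), u = φ a ∨ u = φ b := by
          intro u hu
          rw [List.mem_filter] at hu
          simpa using hu.2
        generalize w.filter (fun u => decide (u = φ a ∨ u = φ b)) = l at hall
        constructor
        · intro hch
          refine hch.imp ?_
          intro p q hpq hne
          exact hpq (by rw [hne])
        · intro hch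
          refine hch.imp_of_mem_imp ?_
          intro p q hp hq hpq hne
          apply hpq
          have hba : φ b ≠ φ a := fun h => hφ h.symm
          rcases hall p hp with rfl | rfl <;> rcases hall q hq with rfl | rfl <;>
            simp_all
    intro a b hab
    rcases nodup_filter_pair hnd (hmem a) (hmem b) hab with h1 | h1
    · exact key a b hab h1
    · have h2 : ord.filter (fun z => decide (z = b ∨ z = a)) = [b, a] := by
        rw [← h1]
        congr 1
        funext z
        exact decide_eq_decide.2 or_comm
      rw [G.adj_comm, ← key b a hab.symm h2]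
      exact ⟨hsymm _ _ _, hsymm _ _ _⟩

end Pool.Agent.Q106.WordRep
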